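import Mathlib
import Pool.Agent.H710R2.DP.Final

/-!
A universal distance estimate for von Neumann algebras.
-/

open scoped ComplexOrder InnerProductSpace ComplexConjugate

noncomputable section

namespace Pool.Agent.X191.CC

open H759R2.Kad H710R2.DP

/-- Derivations of von Neumann algebras are implemented by operators of norm at most a universal
constant times the norm of the derivation. -/
theorem univ_inner : ∃ K : ℝ, 0 ≤ K ∧ ∀ (H : Type) [NormedAddCommGroup H]
    [InnerProductSpace ℂ H] [CompleteSpace H] (M : VonNeumannAlgebra H)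
    (D : M.toStarSubalgebra →ₗ[ℂ] (H →L[ℂ] H)), IsDerB (inc M) D 1 →
    ∃ T : H →L[ℂ] H, ‖T‖ ≤ K ∧ ∀ a : M.toStarSubalgebra,
      D a = T * (a : H →L[ℂ] H) - (a : H →L[ℂ] H) * T := by
  obtain ⟨C, hC, hW⟩ := fin_W
  refine ⟨1 + C, by linarith, ?_⟩
  intro H _ _ _ M D hD
  letI : PartialOrder M.toStarSubalgebra := CStarAlgebra.spectralOrder M.toStarSubalgebra
  haveI : StarOrderedRing M.toStarSubalgebra :=
    CStarAlgebra.spectralOrderedRing M.toStarSubalgebra
  have hlvl : ∀ m, LvlBd (uD (inc M) D) m (1 + C * 1) := fun m =>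
    dp_uD H M.toStarSubalgebra (inc M) D _ m (by positivity) (hW H M D 1 zero_le_one hD m)
  obtain ⟨hh1, _⟩ := prove4_dhom M.toStarSubalgebra H (inc M) D hD.leib 1 zero_le_one hD.bound
  obtain ⟨S, S', hSS', hS'S, hSn, hSn', hst⟩ := final_similar M.toStarSubalgebra (HH (Fin 2) H)
    (uD (inc M) D) hh1 (1 + C * 1) (by linarith) hlvl
  obtain ⟨T, hTn, hT⟩ := prove4_dinner M.toStarSubalgebra H (inc M) D hD.leib S S' hSS' hS'S hst
  refine ⟨T, ?_, fun a => hT a⟩
  have h1 : ‖S‖ * ‖S'‖ ≤ 1 + C := by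
    nlinarith [sq_nonneg (‖S‖ - ‖S'‖)]
  exact hTn.trans h1

/-- Universal distance estimate: an operator that almost commutes with the elements of the unit
ball of a von Neumann algebra is close to the commutant. -/
theorem univ_dist : ∃ K : ℝ, 0 ≤ K ∧ ∀ (H : Type) [NormedAddCommGroup H]
    [InnerProductSpace ℂ H] [CompleteSpace H] (M : VonNeumannAlgebra H) (x : H →L[ℂ] H) (ε : ℝ),
    0 ≤ ε → (∀ a ∈ M, ‖x * a - a * x‖ ≤ ε * ‖a‖) → ∃ y ∈ M.commutant, ‖x - y‖ ≤ K * ε := by
  obtain ⟨K, hK, hD⟩ := univ_inner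
  refine ⟨K, hK, ?_⟩
  intro H _ _ _ M x ε hε hx
  rcases hε.eq_or_lt with h0 | h0
  · refine ⟨x, ?_, by simp [← h0]⟩
    rw [VonNeumannAlgebra.mem_commutant_iff]
    intro a ha
    have := hx a ha
    rw [← h0, zero_mul] at this
    exact (sub_eq_zero.1 (norm_le_zero_iff.1 this)).symm
  · let D : M.toStarSubalgebra →ₗ[ℂ] (H →L[ℂ] H) :=
      { toFun := fun a => ((ε : ℂ)⁻¹) • (x * (a : H →L[ℂ] H) - (a : H →L[ℂ] H) * x)
        map_add' := fun a b => by
          rw [← smul_add]
          congr 1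
          push_cast
          noncomm_ring
        map_smul' := fun c a => by
          rw [RingHom.id_apply, smul_comm c]
          congr 1
          push_cast
          rw [mul_smul_comm, smul_mul_assoc, smul_sub] }
    have hDa : ∀ a, D a = ((ε : ℂ)⁻¹) • (x * (a : H →L[ℂ] H) - (a : H →L[ℂ] H) * x) :=
      fun a => rfl
    have hder : IsDerB (inc M) D 1 := by
      refine ⟨fun a b => ?_, fun a => ?_⟩
      · rw [hDa, hDa, hDa]
        show _ = (a : H →L[ℂ] H) * _ + _ * (b : H →L[ℂ] H)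
        rw [mul_smul_comm, smul_mul_assoc, ← smul_add]
        congr 1
        push_cast
        noncomm_ring
      · rw [hDa, norm_smul, norm_inv, Complex.norm_real, Real.norm_of_nonneg hε]
        have h1 : ‖x * (a : H →L[ℂ] H) - (a : H →L[ℂ] H) * x‖ ≤ ε * ‖a‖ := hx a a.2
        calc ε⁻¹ * ‖x * (a : H →L[ℂ] H) - (a : H →L[ℂ] H) * x‖ ≤ ε⁻¹ * (ε * ‖a‖) := by gcongr
          _ = 1 * ‖a‖ := by rw [← mul_assoc, inv_mul_cancel₀ h0.ne']
    obtain ⟨T, hT, hTa⟩ := hD H M D hder
    have hεc : (ε : ℂ) ≠ 0 := by exact_mod_cast h0.ne'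
    refine ⟨x - (ε : ℂ) • T, ?_, ?_⟩
    · rw [VonNeumannAlgebra.mem_commutant_iff]
      intro a ha
      have h1 := hTa ⟨a, ha⟩
      rw [hDa] at h1
      have h2 : x * a - a * x = (ε : ℂ) • (T * a - a * T) := by
        have h3 := congrArg (fun z => (ε : ℂ) • z) h1
        simp only [smul_smul, mul_inv_cancel₀ hεc, one_smul] at h3
        exact h3
      rw [mul_sub, sub_mul, mul_smul_comm, smul_mul_assoc]
      rw [smul_sub] at h2
      have h4 : x * a = a * x + ((ε : ℂ) • (T * a) - (ε : ℂ) • (a * T)) := by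
        rw [← h2]; abel
      rw [h4]; abel
    · rw [sub_sub_cancel, norm_smul, Complex.norm_real, Real.norm_of_nonneg hε]
      calc ε * ‖T‖ ≤ ε * K := by gcongr
        _ = K * ε := mul_comm _ _

end Pool.Agent.X191.CC
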