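import Mathlib

/-!
Signs and polar parts of operators close to symmetries / to the identity.
-/

open ContinuousLinearMap

noncomputable section

namespace Pool.Agent.X191.CC

variable {H : Type} [NormedAddCommGroup H] [InnerProductSpace ℂ H] [CompleteSpace H]

/-- The symmetry next to a self-adjoint operator with square close to `1`. -/
theorem exists_sgn (x : H →L[ℂ] H) (hx : star x = x) {ε : ℝ} (hε : ε < 1)
    (h : ‖x * x - 1‖ ≤ ε) :
    ∃ s : H →L[ℂ] H, star s = s ∧ s * s = 1 ∧ ‖s - x‖ ≤ ε ∧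
      ∀ y : H →L[ℂ] H, y * x = x * y → y * s = s * y := by
  have hsa : IsSelfAdjoint x := hx
  have hε0 : 0 ≤ ε := (norm_nonneg _).trans h
  -- the spectrum
  have hsp : ∀ t ∈ spectrum ℝ x, |t ^ 2 - 1| ≤ ε := by
    intro t ht
    have h1 : cfc (fun t : ℝ => t ^ 2 - 1) x = x * x - 1 := by
      rw [cfc_sub (fun t : ℝ => t ^ 2) (fun _ => 1) x, cfc_pow_id (R := ℝ) x 2, cfc_const_one ℝ x, sq]
    have h2 := norm_apply_le_norm_cfc (fun t : ℝ => t ^ 2 - 1) x ht
    rw [h1] at h2
    simpa using h2.trans h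
  have hne : ∀ t ∈ spectrum ℝ x, t ≠ 0 := by
    intro t ht h0
    have := hsp t ht
    rw [h0] at this
    norm_num at this
    linarith
  have hcont : ContinuousOn (fun t : ℝ => t / |t|) (spectrum ℝ x) := by
    refine ContinuousOn.div continuousOn_id continuous_abs.continuousOn fun t ht => ?_
    exact abs_ne_zero.2 (hne t ht)
  refine ⟨cfc (fun t : ℝ => t / |t|) x, ?_, ?_, ?_, ?_⟩
  · exact (cfc_predicate (R := ℝ) (fun t : ℝ => t / |t|) x : IsSelfAdjoint _)
  · rw [← cfc_mul (fun t : ℝ => t / |t|) (fun t : ℝ => t / |t|) x hcont hcont, ← cfc_const_one ℝ x]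
    refine cfc_congr fun t ht => ?_
    have := hne t ht
    show t / |t| * (t / |t|) = 1
    rw [div_mul_div_comm, abs_mul_abs_self]
    exact div_self (mul_self_ne_zero.2 this)
  · have h1 : cfc (fun t : ℝ => t / |t|) x - x = cfc (fun t : ℝ => t / |t| - t) x := by
      rw [cfc_sub (fun t : ℝ => t / |t|) (fun t => t) x hcont, cfc_id' ℝ x]
    rw [h1]
    refine norm_cfc_le hε0 fun t ht => ?_
    have h2 := hsp t ht
    have h3 := hne t ht
    rw [Real.norm_eq_abs]
    have h4 : abs (t / abs t - t) = abs (1 - abs t) := by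
      rcases lt_or_gt_of_ne h3 with h5 | h5
      · rw [abs_of_neg h5]
        have : t / -t = -1 := by field_simp
        rw [this, ← abs_neg]; congr 1; ring
      · rw [abs_of_pos h5, div_self h3]
    rw [h4]
    have h5 : abs (t ^ 2 - 1) = abs (1 - abs t) * (1 + abs t) := by
      have : t ^ 2 - 1 = -((1 - abs t) * (1 + abs t)) := by
        rw [← sq_abs]; ring
      rw [this, abs_neg, abs_mul, abs_of_nonneg (by positivity : (0:ℝ) ≤ 1 + abs t)]
    rw [h5] at h2
    have h6 : 0 ≤ abs (1 - abs t) := abs_nonneg _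
    have h7 : 0 ≤ abs t := abs_nonneg _
    nlinarith
  · intro y hy
    exact ((Commute.cfc_real (show Commute x y from hy.symm) _)).symm.eq

/-- The polar part of an operator close to `1`. -/
theorem exists_polar (s : H →L[ℂ] H) {κ : ℝ} (hκ : κ ≤ 1 / 8) (h : ‖s - 1‖ ≤ κ) :
    ∃ w r : H →L[ℂ] H, star w * w = 1 ∧ w * star w = 1 ∧ ‖w - 1‖ ≤ 5 * κ ∧ w = s * r ∧
      ∀ y : H →L[ℂ] H, y * (star s * s) = star s * s * y → y * r = r * y := by
  have hκ0 : 0 ≤ κ := (norm_nonneg _).trans h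
  set a := star s * s with ha
  have hasa : IsSelfAdjoint a := IsSelfAdjoint.star_mul_self s
  have hs1 : ‖s‖ ≤ 1 + κ := by
    calc ‖s‖ = ‖(s - 1) + 1‖ := by rw [sub_add_cancel]
      _ ≤ ‖s - 1‖ + ‖(1 : H →L[ℂ] H)‖ := norm_add_le _ _
      _ ≤ κ + 1 := add_le_add h ContinuousLinearMap.norm_id_le
      _ = 1 + κ := add_comm _ _
  have hstar : ‖star s - 1‖ ≤ κ := by
    have : star s - 1 = star (s - 1) := by rw [star_sub, star_one]
    rw [this, norm_star]; exact h
  have ha1 : ‖a - 1‖ ≤ 3 * κ := by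
    have : a - 1 = (star s - 1) * s + (s - 1) := by rw [ha]; noncomm_ring
    rw [this]
    calc ‖(star s - 1) * s + (s - 1)‖ ≤ ‖(star s - 1) * s‖ + ‖s - 1‖ := norm_add_le _ _
      _ ≤ κ * (1 + κ) + κ := by
          refine add_le_add ((norm_mul_le _ _).trans ?_) h
          exact mul_le_mul hstar hs1 (norm_nonneg _) hκ0
      _ ≤ 3 * κ := by nlinarith
  have hsp : ∀ t ∈ spectrum ℝ a, |t - 1| ≤ 3 * κ := by
    intro t ht
    have h1 : cfc (fun t : ℝ => t - 1) a = a - 1 := by
      rw [cfc_sub (fun t : ℝ => t) (fun _ => 1) a, cfc_id' ℝ a, cfc_const_one ℝ a]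
    have h2 := norm_apply_le_norm_cfc (fun t : ℝ => t - 1) a ht
    rw [h1] at h2
    exact h2.trans ha1
  have hlow : ∀ t ∈ spectrum ℝ a, 5 / 8 ≤ t := by
    intro t ht
    have := (abs_le.1 (hsp t ht)).1
    linarith
  have hcont : ContinuousOn (fun t : ℝ => (Real.sqrt t)⁻¹) (spectrum ℝ a) := by
    refine ContinuousOn.inv₀ Real.continuous_sqrt.continuousOn fun t ht => ?_
    have := hlow t ht
    exact (Real.sqrt_pos.2 (by linarith)).ne'
  set r := cfc (fun t : ℝ => (Real.sqrt t)⁻¹) a with hr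
  have hrsa : star r = r := (cfc_predicate (R := ℝ) (fun t : ℝ => (Real.sqrt t)⁻¹) a : IsSelfAdjoint _)
  have hrr : r * r = cfc (fun t : ℝ => t⁻¹) a := by
    rw [hr, ← cfc_mul _ _ a hcont hcont]
    refine cfc_congr fun t ht => ?_
    have := hlow t ht
    show (Real.sqrt t)⁻¹ * (Real.sqrt t)⁻¹ = t⁻¹
    rw [← mul_inv, Real.mul_self_sqrt (by linarith)]
  have hcont' : ContinuousOn (fun t : ℝ => t⁻¹) (spectrum ℝ a) := by
    refine ContinuousOn.inv₀ continuousOn_id fun t ht => ?_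
    have := hlow t ht
    exact (by linarith : (0:ℝ) < t).ne'
  have hrra : r * r * a = 1 := by
    rw [hrr]
    nth_rewrite 2 [← cfc_id' ℝ a]
    rw [← cfc_mul (fun t : ℝ => t⁻¹) (fun t : ℝ => t) a hcont' continuous_id.continuousOn,
      ← cfc_const_one ℝ a]
    refine cfc_congr fun t ht => ?_
    have := hlow t ht
    show t⁻¹ * t = 1
    exact inv_mul_cancel₀ (by linarith : (0:ℝ) < t).ne'
  have hcom : ∀ y : H →L[ℂ] H, y * a = a * y → y * r = r * y := by
    intro y hy
    exact ((Commute.cfc_real (show Commute a y from hy.symm) _)).symm.eq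
  have hra : a * r = r * a := hcom a rfl
  -- `s` is invertible
  obtain ⟨t, ht⟩ : ∃ t, s * t = 1 := by
    have hu : IsUnit s := by
      have : ‖(1 : H →L[ℂ] H) - s‖ < 1 := by
        rw [norm_sub_rev]; linarith
      have h' := isUnit_one_sub_of_norm_lt_one this
      rwa [sub_sub_cancel] at h'
    exact hu.exists_right_inv
  have hr1 : ‖r - 1‖ ≤ 3 * κ := by
    have h1 : r - 1 = cfc (fun t : ℝ => (Real.sqrt t)⁻¹ - 1) a := by
      rw [cfc_sub (fun t : ℝ => (Real.sqrt t)⁻¹) (fun _ => 1) a hcont, cfc_const_one ℝ a]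
    rw [h1]
    refine norm_cfc_le (by positivity) fun t ht => ?_
    have h2 := hsp t ht
    have h3 := hlow t ht
    rw [Real.norm_eq_abs]
    refine le_trans ?_ h2
    have h4 : 0 < Real.sqrt t := Real.sqrt_pos.2 (by linarith)
    have h5 : Real.sqrt t * Real.sqrt t = t := Real.mul_self_sqrt (by linarith)
    have h6 : 1 / 2 ≤ Real.sqrt t := by
      by_contra hlt
      push Not at hlt
      nlinarith
    have h7 : (Real.sqrt t)⁻¹ - 1 = -((t - 1) * ((Real.sqrt t)⁻¹ * (1 + Real.sqrt t)⁻¹)) := by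
      field_simp
      nlinarith
    rw [h7, abs_neg, abs_mul]
    have h8 : |(Real.sqrt t)⁻¹ * (1 + Real.sqrt t)⁻¹| ≤ 1 := by
      rw [abs_of_nonneg (by positivity), ← mul_inv]
      refine inv_le_one_of_one_le₀ ?_
      nlinarith
    calc |t - 1| * |(Real.sqrt t)⁻¹ * (1 + Real.sqrt t)⁻¹| ≤ |t - 1| * 1 := by gcongr
      _ = |t - 1| := mul_one _
  refine ⟨s * r, r, ?_, ?_, ?_, rfl, hcom⟩
  · rw [star_mul, hrsa]
    calc r * star s * (s * r) = r * (a * r) := by rw [ha]; noncomm_ring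
      _ = r * r * a := by rw [hra]; noncomm_ring
      _ = 1 := hrra
  · rw [star_mul, hrsa]
    have h1 : star t * star s = 1 := by rw [← star_mul, ht, star_one]
    calc s * r * (r * star s) = s * (r * r) * star s := by noncomm_ring
      _ = s * (r * r) * (star s * (s * t)) := by rw [ht, mul_one]
      _ = s * (r * r * a) * t := by rw [ha]; noncomm_ring
      _ = 1 := by rw [hrra, mul_one, ht]
  · have : s * r - 1 = s * (r - 1) + (s - 1) := by noncomm_ring
    rw [this]
    calc ‖s * (r - 1) + (s - 1)‖ ≤ ‖s * (r - 1)‖ + ‖s - 1‖ := norm_add_le _ _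
      _ ≤ (1 + κ) * (3 * κ) + κ := by
          refine add_le_add ((norm_mul_le _ _).trans ?_) h
          exact mul_le_mul hs1 hr1 (norm_nonneg _) (by linarith)
      _ ≤ 5 * κ := by nlinarith

end Pool.Agent.X191.CC
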