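import Mathlib

/-!
Means of bounded operator valued functions on elementary abelian 2-groups.
-/

open scoped InnerProductSpace ComplexOrder
open ContinuousLinearMap Filter Topology

noncomputable section

namespace Pool.Agent.X191.CC

variable {H : Type} [NormedAddCommGroup H] [InnerProductSpace ℂ H] [CompleteSpace H]

/-- Weak operator limits of bounded families along ultrafilters. -/
theorem exists_wlim {I : Type} (U : Ultrafilter I) (T : I → (H →L[ℂ] H)) (C : ℝ)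
    (hT : ∀ i, ‖T i‖ ≤ C) : ∃ S : H →L[ℂ] H, ‖S‖ ≤ C ∧ ∀ ξ η : H,
      Tendsto (fun i => ⟪η, T i ξ⟫_ℂ) U (𝓝 ⟪η, S ξ⟫_ℂ) := by
  have hC : 0 ≤ C := by
    obtain ⟨i⟩ : Nonempty I := by
      have := U.neBot.nonempty
      exact this
    exact (norm_nonneg _).trans (hT i)
  have hb : ∀ ξ η : H, ∀ i, ‖⟪η, T i ξ⟫_ℂ‖ ≤ C * ‖ξ‖ * ‖η‖ := by
    intro ξ η i
    calc ‖⟪η, T i ξ⟫_ℂ‖ ≤ ‖η‖ * ‖T i ξ‖ := norm_inner_le_norm _ _
      _ ≤ ‖η‖ * (‖T i‖ * ‖ξ‖) := by gcongr; exact le_opNorm _ _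
      _ ≤ ‖η‖ * (C * ‖ξ‖) := by gcongr; exact hT i
      _ = _ := by ring
  have hlim : ∀ ξ η : H, ∃ z : ℂ, Tendsto (fun i => ⟪η, T i ξ⟫_ℂ) U (𝓝 z) := by
    intro ξ η
    have hcomp : IsCompact (Metric.closedBall (0 : ℂ) (C * ‖ξ‖ * ‖η‖)) := isCompact_closedBall _ _
    have hle : (U.map (fun i => ⟪η, T i ξ⟫_ℂ) : Filter ℂ) ≤
        𝓟 (Metric.closedBall (0 : ℂ) (C * ‖ξ‖ * ‖η‖)) := by
      rw [le_principal_iff]
      refine Filter.mem_map.2 (Filter.univ_mem' fun i => ?_)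
      simpa using hb ξ η i
    obtain ⟨z, _, hz⟩ := hcomp.ultrafilter_le_nhds (U.map (fun i => ⟪η, T i ξ⟫_ℂ)) hle
    exact ⟨z, hz⟩
  choose B hB using hlim
  -- the sesquilinear form
  have hBadd : ∀ ξ ξ' η, B (ξ + ξ') η = B ξ η + B ξ' η := by
    intro ξ ξ' η
    refine tendsto_nhds_unique (hB (ξ + ξ') η) ?_
    have := (hB ξ η).add (hB ξ' η)
    refine this.congr fun i => ?_
    rw [map_add, inner_add_right]
  have hBsmul : ∀ (c : ℂ) ξ η, B (c • ξ) η = c * B ξ η := by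
    intro c ξ η
    refine tendsto_nhds_unique (hB (c • ξ) η) ?_
    have := (hB ξ η).const_mul c
    refine this.congr fun i => ?_
    rw [map_smul, inner_smul_right]
  have hBadd' : ∀ ξ η η', B ξ (η + η') = B ξ η + B ξ η' := by
    intro ξ η η'
    refine tendsto_nhds_unique (hB ξ (η + η')) ?_
    have := (hB ξ η).add (hB ξ η')
    refine this.congr fun i => ?_
    rw [inner_add_left]
  have hBsmul' : ∀ (c : ℂ) ξ η, B ξ (c • η) = (starRingEnd ℂ) c * B ξ η := by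
    intro c ξ η
    refine tendsto_nhds_unique (hB ξ (c • η)) ?_
    have := (hB ξ η).const_mul ((starRingEnd ℂ) c)
    refine this.congr fun i => ?_
    rw [inner_smul_left]
  have hBb : ∀ ξ η, ‖B ξ η‖ ≤ C * ‖ξ‖ * ‖η‖ := by
    intro ξ η
    refine le_of_tendsto ((hB ξ η).norm) ?_
    exact Filter.Eventually.of_forall fun i => hb ξ η i
  -- `η ↦ B ξ η` is conjugate linear; represent `conj (B ξ η) = ⟪S ξ, η⟫`
  let F : H → (H →L[ℂ] ℂ) := fun ξ =>
    LinearMap.mkContinuous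
      { toFun := fun η => (starRingEnd ℂ) (B ξ η)
        map_add' := fun η η' => by rw [hBadd', map_add]
        map_smul' := fun c η => by
          rw [hBsmul', map_mul, Complex.conj_conj]; rfl } (C * ‖ξ‖)
      (fun η => by
        show ‖(starRingEnd ℂ) (B ξ η)‖ ≤ _
        rw [RCLike.norm_conj]; exact hBb ξ η)
  have hF : ∀ ξ η, F ξ η = (starRingEnd ℂ) (B ξ η) := fun ξ η => rfl
  let S₀ : H → H := fun ξ => (InnerProductSpace.toDual ℂ H).symm (F ξ)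
  have hS₀ : ∀ ξ η, ⟪η, S₀ ξ⟫_ℂ = B ξ η := by
    intro ξ η
    have h1 : ⟪S₀ ξ, η⟫_ℂ = F ξ η := InnerProductSpace.toDual_symm_apply
    rw [← inner_conj_symm, h1, hF, Complex.conj_conj]
  let S₁ : H →ₗ[ℂ] H :=
    { toFun := S₀
      map_add' := fun ξ ξ' => ext_inner_left ℂ fun η => by
        rw [inner_add_right, hS₀, hS₀, hS₀, hBadd]
      map_smul' := fun c ξ => ext_inner_left ℂ fun η => by
        rw [RingHom.id_apply, inner_smul_right, hS₀, hS₀, hBsmul] }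
  have hS₁ : ∀ ξ, ‖S₁ ξ‖ ≤ C * ‖ξ‖ := by
    intro ξ
    by_cases h0 : S₁ ξ = 0
    · rw [h0, norm_zero]; positivity
    · have h1 : ‖S₁ ξ‖ * ‖S₁ ξ‖ ≤ C * ‖ξ‖ * ‖S₁ ξ‖ := by
        have h2 : ⟪S₁ ξ, S₁ ξ⟫_ℂ = B ξ (S₁ ξ) := hS₀ ξ (S₁ ξ)
        have h3 : ‖⟪S₁ ξ, S₁ ξ⟫_ℂ‖ = ‖S₁ ξ‖ * ‖S₁ ξ‖ := by
          rw [inner_self_eq_norm_sq_to_K]; simp [sq]
        rw [← h3, h2]
        exact hBb ξ _
      exact le_of_mul_le_mul_right h1 (norm_pos_iff.2 h0)
  refine ⟨S₁.mkContinuous C hS₁, LinearMap.mkContinuous_norm_le _ hC _, fun ξ η => ?_⟩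
  have : ⟪η, (S₁.mkContinuous C hS₁) ξ⟫_ℂ = B ξ η := hS₀ ξ η
  rw [this]
  exact hB ξ η

section grp

variable {G : Type} [CommGroup G]

/-- The ultrafilter used for the means. -/
def uf (G : Type) : Ultrafilter (Finset G) := Ultrafilter.of Filter.atTop

lemma uf_le (G : Type) : (uf G : Filter (Finset G)) ≤ Filter.atTop := Ultrafilter.of_le _

/-- Averages over the finite subgroup generated by `F`. -/
def avg (F : Finset G) (f : G → (H →L[ℂ] H)) : H →L[ℂ] H :=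
  ((2 : ℂ) ^ F.card)⁻¹ • ∑ S ∈ F.powerset, f (∏ g ∈ S, g)

/-- `S` is the mean of `f`. -/
def IsMean (f : G → (H →L[ℂ] H)) (S : H →L[ℂ] H) : Prop :=
  ∀ ξ η : H, Tendsto (fun F : Finset G => ⟪η, avg F f ξ⟫_ℂ) (uf G) (𝓝 ⟪η, S ξ⟫_ℂ)

omit [CompleteSpace H] in
lemma norm_avg_le (F : Finset G) (f : G → (H →L[ℂ] H)) (C : ℝ) (hf : ∀ g, ‖f g‖ ≤ C) :
    ‖avg F f‖ ≤ C := by
  unfold avg
  rw [norm_smul, norm_inv, norm_pow, Complex.norm_ofNat]
  have h1 : ‖∑ S ∈ F.powerset, f (∏ g ∈ S, g)‖ ≤ ∑ S ∈ F.powerset, C :=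
    (norm_sum_le _ _).trans (Finset.sum_le_sum fun S _ => hf _)
  rw [Finset.sum_const, Finset.card_powerset, nsmul_eq_mul] at h1
  push_cast at h1
  calc ((2 : ℝ) ^ F.card)⁻¹ * ‖∑ S ∈ F.powerset, f (∏ g ∈ S, g)‖
      ≤ ((2 : ℝ) ^ F.card)⁻¹ * (2 ^ F.card * C) := by gcongr
    _ = C := by rw [← mul_assoc, inv_mul_cancel₀ (by positivity), one_mul]

theorem exists_mean (f : G → (H →L[ℂ] H)) (C : ℝ) (hf : ∀ g, ‖f g‖ ≤ C) :
    ∃ S, IsMean f S := by
  obtain ⟨S, _, hS⟩ := exists_wlim (uf G) (fun F => avg F f) C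
    (fun F => norm_avg_le F f C hf)
  exact ⟨S, hS⟩

omit [CompleteSpace H] in
lemma IsMean.unique {f : G → (H →L[ℂ] H)} {S T : H →L[ℂ] H} (hS : IsMean f S)
    (hT : IsMean f T) : S = T := by
  refine ContinuousLinearMap.ext fun ξ => ext_inner_left ℂ fun η => ?_
  exact tendsto_nhds_unique (hS ξ η) (hT ξ η)

omit [CompleteSpace H] in
lemma IsMean.norm_le {f : G → (H →L[ℂ] H)} {S : H →L[ℂ] H} (hS : IsMean f S) {C : ℝ}
    (hC : 0 ≤ C) (hf : ∀ g, ‖f g‖ ≤ C) : ‖S‖ ≤ C := by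
  refine ContinuousLinearMap.opNorm_le_bound _ hC fun ξ => ?_
  have hb : ∀ η : H, ‖⟪η, S ξ⟫_ℂ‖ ≤ C * ‖ξ‖ * ‖η‖ := by
    intro η
    refine le_of_tendsto ((hS ξ η).norm) (Filter.Eventually.of_forall fun F => ?_)
    calc ‖⟪η, avg F f ξ⟫_ℂ‖ ≤ ‖η‖ * ‖avg F f ξ‖ := norm_inner_le_norm _ _
      _ ≤ ‖η‖ * (‖avg F f‖ * ‖ξ‖) := by gcongr; exact le_opNorm _ _
      _ ≤ ‖η‖ * (C * ‖ξ‖) := by gcongr; exact norm_avg_le F f C hf
      _ = _ := by ring
  by_cases h0 : S ξ = 0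
  · rw [h0, norm_zero]; positivity
  · have h3 : ‖⟪S ξ, S ξ⟫_ℂ‖ = ‖S ξ‖ * ‖S ξ‖ := by
      rw [inner_self_eq_norm_sq_to_K]; simp [sq]
    have h1 := hb (S ξ)
    rw [h3] at h1
    exact le_of_mul_le_mul_right h1 (norm_pos_iff.2 h0)

omit [CompleteSpace H] in
lemma avg_add (F : Finset G) (f f' : G → (H →L[ℂ] H)) :
    avg F (fun g => f g + f' g) = avg F f + avg F f' := by
  simp only [avg, Finset.sum_add_distrib, smul_add]

omit [CompleteSpace H] in
lemma avg_mul_left (F : Finset G) (f : G → (H →L[ℂ] H)) (a : H →L[ℂ] H) :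
    avg F (fun g => a * f g) = a * avg F f := by
  simp only [avg, ← Finset.mul_sum, mul_smul_comm]

omit [CompleteSpace H] in
lemma avg_mul_right (F : Finset G) (f : G → (H →L[ℂ] H)) (a : H →L[ℂ] H) :
    avg F (fun g => f g * a) = avg F f * a := by
  simp only [avg, ← Finset.sum_mul, smul_mul_assoc]

lemma avg_star (F : Finset G) (f : G → (H →L[ℂ] H)) :
    avg F (fun g => star (f g)) = star (avg F f) := by
  simp only [avg, star_smul, star_sum]
  congr 1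
  simp

omit [CompleteSpace H] in
lemma avg_const (F : Finset G) (a : H →L[ℂ] H) : avg F (fun _ : G => a) = a := by
  simp only [avg, Finset.sum_const, Finset.card_powerset]
  rw [← Nat.cast_smul_eq_nsmul ℂ, smul_smul]
  push_cast
  rw [inv_mul_cancel₀ (by positivity), one_smul]

omit [CompleteSpace H] in
lemma avg_shift (h2 : ∀ g : G, g * g = 1) (F : Finset G) (f : G → (H →L[ℂ] H)) (h : G)
    (hh : h ∈ F) : avg F (fun g => f (h * g)) = avg F f := by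
  classical
  unfold avg
  congr 1
  refine Finset.sum_bij' (fun S _ => if h ∈ S then S.erase h else insert h S)
    (fun S _ => if h ∈ S then S.erase h else insert h S) ?_ ?_ ?_ ?_ ?_
  · intro S hS
    rw [Finset.mem_powerset] at hS ⊢
    by_cases hm : h ∈ S
    · rw [if_pos hm]; exact (Finset.erase_subset _ _).trans hS
    · rw [if_neg hm]; exact Finset.insert_subset hh hS
  · intro S hS
    rw [Finset.mem_powerset] at hS ⊢
    by_cases hm : h ∈ S
    · rw [if_pos hm]; exact (Finset.erase_subset _ _).trans hS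
    · rw [if_neg hm]; exact Finset.insert_subset hh hS
  · intro S hS
    by_cases hm : h ∈ S
    · simp [hm, Finset.insert_erase hm]
    · simp [hm]
  · intro S hS
    by_cases hm : h ∈ S
    · simp [hm, Finset.insert_erase hm]
    · simp [hm]
  · intro S hS
    by_cases hm : h ∈ S
    · simp only [hm, if_true]
      congr 1
      have : ∏ g ∈ S, g = h * ∏ g ∈ S.erase h, g := (Finset.mul_prod_erase S (fun g => g) hm).symm
      rw [this, ← mul_assoc, h2, one_mul]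
    · simp only [hm, if_false]
      rw [Finset.prod_insert hm]

omit [CompleteSpace H] in
lemma IsMean.add {f f' : G → (H →L[ℂ] H)} {S S' : H →L[ℂ] H} (hS : IsMean f S)
    (hS' : IsMean f' S') : IsMean (fun g => f g + f' g) (S + S') := by
  intro ξ η
  have := (hS ξ η).add (hS' ξ η)
  rw [add_apply, inner_add_right]
  refine this.congr fun F => ?_
  rw [avg_add, add_apply, inner_add_right]

lemma IsMean.mul_left {f : G → (H →L[ℂ] H)} {S : H →L[ℂ] H} (hS : IsMean f S)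
    (a : H →L[ℂ] H) : IsMean (fun g => a * f g) (a * S) := by
  intro ξ η
  have := hS ξ (star a η)
  have e : ∀ x : H →L[ℂ] H, ⟪star a η, x ξ⟫_ℂ = ⟪η, (a * x) ξ⟫_ℂ := fun x => by
    rw [ContinuousLinearMap.star_eq_adjoint, adjoint_inner_left]; rfl
  rw [e] at this
  refine this.congr fun F => ?_
  rw [e, avg_mul_left]

omit [CompleteSpace H] in
lemma IsMean.mul_right {f : G → (H →L[ℂ] H)} {S : H →L[ℂ] H} (hS : IsMean f S)
    (a : H →L[ℂ] H) : IsMean (fun g => f g * a) (S * a) := by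
  intro ξ η
  have := hS (a ξ) η
  refine this.congr fun F => ?_
  rw [avg_mul_right]; rfl

lemma IsMean.star {f : G → (H →L[ℂ] H)} {S : H →L[ℂ] H} (hS : IsMean f S) :
    IsMean (fun g => Star.star (f g)) (Star.star S) := by
  intro ξ η
  have e : ∀ x : H →L[ℂ] H, ⟪η, (Star.star x) ξ⟫_ℂ = (starRingEnd ℂ) ⟪ξ, x η⟫_ℂ := fun x => by
    rw [ContinuousLinearMap.star_eq_adjoint, adjoint_inner_right, inner_conj_symm]
  rw [e]
  have := (Complex.continuous_conj.tendsto _).comp (hS η ξ)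
  refine this.congr fun F => ?_
  rw [avg_star, e]; rfl

omit [CompleteSpace H] in
lemma IsMean.const (a : H →L[ℂ] H) : IsMean (fun _ : G => a) a := by
  intro ξ η
  simp only [avg_const]
  exact tendsto_const_nhds

omit [CompleteSpace H] in
lemma IsMean.neg {f : G → (H →L[ℂ] H)} {S : H →L[ℂ] H} (hS : IsMean f S) :
    IsMean (fun g => - f g) (- S) := by
  have := hS.mul_right (-1)
  simpa using this

omit [CompleteSpace H] in
lemma IsMean.sub {f f' : G → (H →L[ℂ] H)} {S S' : H →L[ℂ] H} (hS : IsMean f S)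
    (hS' : IsMean f' S') : IsMean (fun g => f g - f' g) (S - S') := by
  simpa only [sub_eq_add_neg] using hS.add hS'.neg

omit [CompleteSpace H] in
lemma IsMean.shift (h2 : ∀ g : G, g * g = 1) {f : G → (H →L[ℂ] H)} {S : H →L[ℂ] H}
    (hS : IsMean f S) (h : G) : IsMean (fun g => f (h * g)) S := by
  intro ξ η
  refine (hS ξ η).congr' ?_
  have hev : ∀ᶠ F : Finset G in (uf G : Filter (Finset G)), h ∈ F := by
    refine (uf_le G) ?_
    have := Filter.eventually_ge_atTop ({h} : Finset G)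
    exact this.mono fun F hF => hF (Finset.mem_singleton_self h)
  refine hev.mono fun F hF => ?_
  show ⟪η, avg F f ξ⟫_ℂ = ⟪η, avg F (fun g => f (h * g)) ξ⟫_ℂ
  rw [avg_shift h2 F f h hF]

lemma IsMean.commute {f : G → (H →L[ℂ] H)} {S : H →L[ℂ] H} (hS : IsMean f S)
    {y : H →L[ℂ] H} (hy : ∀ g, y * f g = f g * y) : y * S = S * y := by
  have h1 := hS.mul_left y
  have h2 := hS.mul_right y
  simp only [hy] at h1
  exact h1.unique h2

lemma IsMean.mem {f : G → (H →L[ℂ] H)} {S : H →L[ℂ] H} (hS : IsMean f S)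
    {P : VonNeumannAlgebra H} (hf : ∀ g, f g ∈ P) : S ∈ P := by
  rw [← VonNeumannAlgebra.commutant_commutant P, VonNeumannAlgebra.mem_commutant_iff]
  intro y hy
  rw [VonNeumannAlgebra.mem_commutant_iff] at hy
  exact hS.commute fun g => (hy (f g) (hf g)).symm

omit [CompleteSpace H] in
lemma IsMean.norm_sub_le {f : G → (H →L[ℂ] H)} {S : H →L[ℂ] H} (hS : IsMean f S)
    (a : H →L[ℂ] H) {C : ℝ} (hC : 0 ≤ C) (hf : ∀ g, ‖f g - a‖ ≤ C) : ‖S - a‖ ≤ C :=
  (hS.sub (IsMean.const a)).norm_le hC hf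

/-- Vector functional `x ↦ ∑ ⟨ζₙ, x ζₙ⟩`. -/
def tv (ζ : ℕ → H) (x : H →L[ℂ] H) : ℂ := ∑' n, ⟪ζ n, x (ζ n)⟫_ℂ

omit [CompleteSpace H] in
lemma tv_summable {ζ : ℕ → H} (hζ : Summable fun n => ‖ζ n‖ ^ 2) (x : H →L[ℂ] H) :
    Summable fun n => ⟪ζ n, x (ζ n)⟫_ℂ := by
  refine Summable.of_norm_bounded (g := fun n => ‖x‖ * ‖ζ n‖ ^ 2) (hζ.mul_left _) fun n => ?_
  calc ‖⟪ζ n, x (ζ n)⟫_ℂ‖ ≤ ‖ζ n‖ * ‖x (ζ n)‖ := norm_inner_le_norm _ _
    _ ≤ ‖ζ n‖ * (‖x‖ * ‖ζ n‖) := by gcongr; exact le_opNorm _ _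
    _ = _ := by ring

omit [CompleteSpace H] in
lemma tv_add {ζ : ℕ → H} (hζ : Summable fun n => ‖ζ n‖ ^ 2) (x y : H →L[ℂ] H) :
    tv ζ (x + y) = tv ζ x + tv ζ y := by
  unfold tv
  rw [← (tv_summable hζ x).tsum_add (tv_summable hζ y)]
  refine tsum_congr fun n => ?_
  rw [add_apply, inner_add_right]

omit [CompleteSpace H] in
lemma tv_smul {ζ : ℕ → H} (c : ℂ) (x : H →L[ℂ] H) :
    tv ζ (c • x) = c * tv ζ x := by
  unfold tv
  rw [← tsum_mul_left]
  refine tsum_congr fun n => ?_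
  rw [smul_apply, inner_smul_right]

omit [CompleteSpace H] in
lemma tv_zero {ζ : ℕ → H} : tv ζ (0 : H →L[ℂ] H) = 0 := by
  simp [tv]

omit [CompleteSpace H] in
lemma tv_neg {ζ : ℕ → H} (x : H →L[ℂ] H) : tv ζ (-x) = - tv ζ x := by
  have := tv_smul (ζ := ζ) (-1) x
  simpa using this

omit [CompleteSpace H] in
lemma tv_sub {ζ : ℕ → H} (hζ : Summable fun n => ‖ζ n‖ ^ 2) (x y : H →L[ℂ] H) :
    tv ζ (x - y) = tv ζ x - tv ζ y := by
  rw [sub_eq_add_neg, tv_add hζ, tv_neg, sub_eq_add_neg]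

omit [CompleteSpace H] in
lemma tv_sum {ζ : ℕ → H} (hζ : Summable fun n => ‖ζ n‖ ^ 2) {ι : Type*} (s : Finset ι)
    (f : ι → (H →L[ℂ] H)) : tv ζ (∑ i ∈ s, f i) = ∑ i ∈ s, tv ζ (f i) := by
  classical
  induction s using Finset.induction_on with
  | empty => simp [tv_zero]
  | insert a s ha ih => rw [Finset.sum_insert ha, Finset.sum_insert ha, tv_add hζ, ih]

omit [CompleteSpace H] in
lemma tv_avg {ζ : ℕ → H} (hζ : Summable fun n => ‖ζ n‖ ^ 2) (F : Finset G)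
    (f : G → (H →L[ℂ] H)) (c : ℂ) (hc : ∀ g, tv ζ (f g) = c) : tv ζ (avg F f) = c := by
  unfold avg
  rw [tv_smul, tv_sum hζ]
  simp only [hc, Finset.sum_const, Finset.card_powerset, nsmul_eq_mul]
  push_cast
  rw [← mul_assoc, inv_mul_cancel₀ (by positivity), one_mul]

omit [CompleteSpace H] in
lemma IsMean.tv_eq {f : G → (H →L[ℂ] H)} {S : H →L[ℂ] H} (hS : IsMean f S) {C : ℝ}
    (hf : ∀ g, ‖f g‖ ≤ C) {ζ : ℕ → H} (hζ : Summable fun n => ‖ζ n‖ ^ 2) (c : ℂ)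
    (hc : ∀ g, tv ζ (f g) = c) : tv ζ S = c := by
  have h1 : Tendsto (fun F : Finset G => tv ζ (avg F f)) (uf G) (𝓝 (tv ζ S)) := by
    unfold tv
    refine tendsto_tsum_of_dominated_convergence (bound := fun n => C * ‖ζ n‖ ^ 2)
      (hζ.mul_left _) (fun n => hS (ζ n) (ζ n)) ?_
    refine Filter.Eventually.of_forall fun F n => ?_
    calc ‖⟪ζ n, avg F f (ζ n)⟫_ℂ‖ ≤ ‖ζ n‖ * ‖avg F f (ζ n)‖ := norm_inner_le_norm _ _
      _ ≤ ‖ζ n‖ * (‖avg F f‖ * ‖ζ n‖) := by gcongr; exact le_opNorm _ _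
      _ ≤ ‖ζ n‖ * (C * ‖ζ n‖) := by gcongr; exact norm_avg_le F f C hf
      _ = _ := by ring
  have h2 : (fun F : Finset G => tv ζ (avg F f)) = fun _ => c := by
    funext F
    exact tv_avg hζ F f c hc
  rw [h2] at h1
  exact tendsto_nhds_unique h1 tendsto_const_nhds

end grp

end Pool.Agent.X191.CC
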