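import Mathlib
import Pool.Agent.X191.CC.Mean
import Pool.Agent.X191.CC.Cfc

/-!
Groups of commuting symmetries close to a von Neumann algebra are close to groups of symmetries
of the algebra.
-/

open ContinuousLinearMap Filter Topology

noncomputable section

namespace Pool.Agent.X191.CC

variable {H : Type} [NormedAddCommGroup H] [InnerProductSpace ℂ H] [CompleteSpace H]

lemma norm_sym_le {s : H →L[ℂ] H} (h1 : star s = s) (h2 : s * s = 1) : ‖s‖ ≤ 1 := by
  have h3 : ‖s‖ * ‖s‖ ≤ 1 := by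
    rw [← CStarRing.norm_star_mul_self, h1, h2]
    exact ContinuousLinearMap.norm_id_le
  nlinarith [norm_nonneg s]

lemma mem_of_commute {P : VonNeumannAlgebra H} {x : H →L[ℂ] H}
    (h : ∀ y ∈ P.commutant, y * x = x * y) : x ∈ P := by
  rw [← VonNeumannAlgebra.commutant_commutant P, VonNeumannAlgebra.mem_commutant_iff]
  exact h

lemma commute_of_mem {P : VonNeumannAlgebra H} {x y : H →L[ℂ] H} (hx : x ∈ P)
    (hy : y ∈ P.commutant) : y * x = x * y := by
  rw [VonNeumannAlgebra.mem_commutant_iff] at hy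
  exact (hy x hx).symm

lemma mem_of_sgn {P : VonNeumannAlgebra H} {x s : H →L[ℂ] H} (hx : x ∈ P)
    (h : ∀ y : H →L[ℂ] H, y * x = x * y → y * s = s * y) : s ∈ P :=
  mem_of_commute fun y hy => h y (commute_of_mem hx hy)

/-- norm of a difference of products -/
lemma norm_mul_sub_mul_le {a b c d : H →L[ℂ] H} {α β A D : ℝ} (h1 : ‖a - c‖ ≤ α)
    (h2 : ‖b - d‖ ≤ β) (hb : ‖b‖ ≤ A) (hc : ‖c‖ ≤ D) (hα : 0 ≤ α) (hD : 0 ≤ D) :
    ‖a * b - c * d‖ ≤ α * A + D * β := by
  have : a * b - c * d = (a - c) * b + c * (b - d) := by noncomm_ring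
  rw [this]
  refine (norm_add_le _ _).trans (add_le_add ?_ ?_)
  · exact (norm_mul_le _ _).trans (mul_le_mul h1 hb (norm_nonneg _) hα)
  · exact (norm_mul_le _ _).trans (mul_le_mul hc h2 (norm_nonneg _) hD)

section

variable {G : Type} [CommGroup G]

/-- Almost multiplicative families of symmetries of `P`. -/
structure Good (P : VonNeumannAlgebra H) (f : G → (H →L[ℂ] H)) (ε : ℝ) : Prop where
  mem : ∀ g, f g ∈ P
  sa : ∀ g, star (f g) = f g
  sq : ∀ g, f g * f g = 1
  defect : ∀ g h, ‖f (g * h) - f g * f h‖ ≤ ε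

lemma good_step (h2 : ∀ g : G, g * g = 1) {P : VonNeumannAlgebra H} {f : G → (H →L[ℂ] H)}
    {ε : ℝ} (hf : Good P f ε) (hε : ε ≤ 1 / 64) :
    ∃ f' : G → (H →L[ℂ] H), Good P f' (ε / 4) ∧ ∀ g, ‖f' g - f g‖ ≤ 2 * ε := by
  have hε0 : 0 ≤ ε := (norm_nonneg _).trans (hf.defect 1 1)
  have hn : ∀ g, ‖f g‖ ≤ 1 := fun g => norm_sym_le (hf.sa g) (hf.sq g)
  have hn2 : ∀ g h, ‖f g * f h‖ ≤ 1 := fun g h =>
    (norm_mul_le _ _).trans (mul_le_one₀ (hn g) (norm_nonneg _) (hn h))
  have hex : ∀ g, ∃ S, IsMean (fun h => f (g * h) * f h) S := fun g =>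
    exists_mean _ 1 fun h => hn2 _ _
  choose F hF using hex
  have hFn : ∀ g, ‖F g‖ ≤ 1 := fun g => (hF g).norm_le zero_le_one fun h => hn2 _ _
  have hFsa : ∀ g, star (F g) = F g := by
    intro g
    have h1 := (hF g).star.shift h2 g
    have h3 : (fun h => star (f (g * (g * h)) * f (g * h))) = fun h => f (g * h) * f h := by
      funext h
      rw [star_mul, hf.sa, hf.sa, ← mul_assoc g g h, h2, one_mul]
    rw [h3] at h1
    exact h1.unique (hF g)
  have hFmem : ∀ g, F g ∈ P := fun g => (hF g).mem fun h => mul_mem (hf.mem _) (hf.mem _)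
  have hab : ∀ g h, ‖f (g * h) * f h - f g‖ ≤ ε := by
    intro g h
    have : f (g * h) * f h - f g = (f (g * h) - f g * f h) * f h := by
      rw [sub_mul, mul_assoc, hf.sq, mul_one]
    rw [this]
    calc ‖(f (g * h) - f g * f h) * f h‖ ≤ ε * 1 :=
          (norm_mul_le _ _).trans (mul_le_mul (hf.defect g h) (hn h) (norm_nonneg _) hε0)
      _ = ε := mul_one _
  have hFf : ∀ g, ‖F g - f g‖ ≤ ε := fun g => (hF g).norm_sub_le (f g) hε0 fun h => hab g h
  have hkey : ∀ g h, ‖F (g * h) - F g * F h‖ ≤ 4 * ε ^ 2 := by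
    intro g h
    have m1 : IsMean (fun y => f (g * (h * y)) * f (h * y)) (F g) := (hF g).shift h2 h
    have m2 : IsMean (fun y => f (h * y) * f y) (F h) := hF h
    have m3 : IsMean (fun y => (f (g * (h * y)) * f (h * y)) * (f (h * y) * f y)) (F (g * h)) := by
      have e : (fun y => (f (g * (h * y)) * f (h * y)) * (f (h * y) * f y)) =
          fun y => f (g * h * y) * f y := by
        funext y
        calc (f (g * (h * y)) * f (h * y)) * (f (h * y) * f y)
            = f (g * (h * y)) * (f (h * y) * f (h * y)) * f y := by noncomm_ring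
          _ = f (g * h * y) * f y := by rw [hf.sq, mul_one, mul_assoc g h y]
      rw [e]; exact hF (g * h)
    have m4 := ((m3.sub (m2.mul_left (F g))).sub (m1.mul_right (F h))).add
      (IsMean.const (G := G) (F g * F h))
    have e : (fun y => (f (g * (h * y)) * f (h * y)) * (f (h * y) * f y) -
        F g * (f (h * y) * f y) - (f (g * (h * y)) * f (h * y)) * F h + F g * F h) =
        fun y => (f (g * (h * y)) * f (h * y) - F g) * (f (h * y) * f y - F h) := by
      funext y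
      noncomm_ring
    rw [e] at m4
    have e2 : F (g * h) - F g * F h - F g * F h + F g * F h = F (g * h) - F g * F h := by
      abel
    rw [e2] at m4
    refine m4.norm_le (by positivity) fun y => ?_
    have b1 : ‖f (g * (h * y)) * f (h * y) - F g‖ ≤ 2 * ε := by
      have : f (g * (h * y)) * f (h * y) - F g =
          (f (g * (h * y)) * f (h * y) - f g) - (F g - f g) := by abel
      rw [this]
      refine (norm_sub_le _ _).trans ?_
      have := hab g (h * y)
      have := hFf g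
      linarith
    have b2 : ‖f (h * y) * f y - F h‖ ≤ 2 * ε := by
      have : f (h * y) * f y - F h = (f (h * y) * f y - f h) - (F h - f h) := by abel
      rw [this]
      refine (norm_sub_le _ _).trans ?_
      have := hab h y
      have := hFf h
      linarith
    calc ‖(f (g * (h * y)) * f (h * y) - F g) * (f (h * y) * f y - F h)‖
        ≤ (2 * ε) * (2 * ε) :=
          (norm_mul_le _ _).trans (mul_le_mul b1 b2 (norm_nonneg _) (by positivity))
      _ = 4 * ε ^ 2 := by ring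
  have hF1 : F 1 = 1 := by
    have e : (fun h => f (1 * h) * f h) = fun _ : G => (1 : H →L[ℂ] H) := by
      funext h; rw [one_mul, hf.sq]
    have h1 := hF 1
    rw [e] at h1
    exact h1.unique (IsMean.const 1)
  have hFsq : ∀ g, ‖F g * F g - 1‖ ≤ 4 * ε ^ 2 := by
    intro g
    have h1 := hkey g g
    rw [h2, hF1] at h1
    rwa [norm_sub_rev]
  have hsm : 4 * ε ^ 2 < 1 := by nlinarith
  have hs : ∀ g, ∃ s : H →L[ℂ] H, star s = s ∧ s * s = 1 ∧ ‖s - F g‖ ≤ 4 * ε ^ 2 ∧
      ∀ y : H →L[ℂ] H, y * F g = F g * y → y * s = s * y := fun g =>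
    exists_sgn (F g) (hFsa g) hsm (hFsq g)
  choose s hssa hssq hsF hscom using hs
  refine ⟨s, ⟨fun g => mem_of_sgn (hFmem g) (hscom g), hssa, hssq, ?_⟩, ?_⟩
  · intro g h
    have e : s (g * h) - s g * s h = (s (g * h) - F (g * h)) + (F (g * h) - F g * F h) +
        (F g * F h - s g * s h) := by abel
    have b1 : ‖F g * F h - s g * s h‖ ≤ 4 * ε ^ 2 * 1 + 1 * (4 * ε ^ 2) :=
      norm_mul_sub_mul_le (by rw [norm_sub_rev]; exact hsF g) (by rw [norm_sub_rev]; exact hsF h)
        (hFn h) (norm_sym_le (hssa g) (hssq g)) (by positivity) zero_le_one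
    rw [e]
    calc ‖(s (g * h) - F (g * h)) + (F (g * h) - F g * F h) + (F g * F h - s g * s h)‖
        ≤ ‖s (g * h) - F (g * h)‖ + ‖F (g * h) - F g * F h‖ + ‖F g * F h - s g * s h‖ :=
          norm_add₃_le
      _ ≤ 4 * ε ^ 2 + 4 * ε ^ 2 + (4 * ε ^ 2 * 1 + 1 * (4 * ε ^ 2)) :=
          add_le_add (add_le_add (hsF _) (hkey g h)) b1
      _ ≤ ε / 4 := by nlinarith
  · intro g
    have : s g - f g = (s g - F g) + (F g - f g) := by abel
    rw [this]
    calc ‖(s g - F g) + (F g - f g)‖ ≤ ‖s g - F g‖ + ‖F g - f g‖ := norm_add_le _ _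
      _ ≤ 4 * ε ^ 2 + ε := add_le_add (hsF g) (hFf g)
      _ ≤ 2 * ε := by nlinarith

lemma isClosed_vN (P : VonNeumannAlgebra H) : IsClosed {x : H →L[ℂ] H | x ∈ P} := by
  have : {x : H →L[ℂ] H | x ∈ P} = ⋂ y ∈ {y | y ∈ P.commutant}, {x | y * x = x * y} := by
    ext x
    simp only [Set.mem_setOf_eq, Set.mem_iInter]
    constructor
    · intro hx y hy
      exact commute_of_mem hx hy
    · intro h
      exact mem_of_commute h
  rw [this]
  refine isClosed_biInter fun y _ => ?_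
  exact isClosed_eq (continuous_const.mul continuous_id) (continuous_id.mul continuous_const)

lemma good_limit (h2 : ∀ g : G, g * g = 1) {P : VonNeumannAlgebra H} {f : G → (H →L[ℂ] H)}
    {ε : ℝ} (hf : Good P f ε) (hε : ε ≤ 1 / 64) :
    ∃ f' : G → (H →L[ℂ] H), Good P f' 0 ∧ ∀ g, ‖f' g - f g‖ ≤ 3 * ε := by
  have hε0 : 0 ≤ ε := (norm_nonneg _).trans (hf.defect 1 1)
  have hεn : ∀ n : ℕ, ε / 4 ^ n ≤ 1 / 64 := fun n =>
    (div_le_self hε0 (one_le_pow₀ (by norm_num))).trans hε
  have step : ∀ (n : ℕ) (a : {f : G → (H →L[ℂ] H) // Good P f (ε / 4 ^ n)}),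
      ∃ b : {f : G → (H →L[ℂ] H) // Good P f (ε / 4 ^ (n + 1))},
        ∀ g, ‖b.1 g - a.1 g‖ ≤ 2 * (ε / 4 ^ n) := by
    intro n a
    obtain ⟨f', hf', hd⟩ := good_step h2 a.2 (hεn n)
    refine ⟨⟨f', ?_⟩, hd⟩
    have : ε / 4 ^ (n + 1) = ε / 4 ^ n / 4 := by rw [pow_succ, div_div]
    rw [this]; exact hf'
  choose nx hnx using step
  let a : ∀ n : ℕ, {f : G → (H →L[ℂ] H) // Good P f (ε / 4 ^ n)} := fun n =>
    Nat.rec (motive := fun n => {f : G → (H →L[ℂ] H) // Good P f (ε / 4 ^ n)})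
      ⟨f, by simpa using hf⟩ (fun n x => nx n x) n
  have ha0 : (a 0).1 = f := rfl
  have ha : ∀ n g, dist ((a n).1 g) ((a (n + 1)).1 g) ≤ 2 * ε * (1 / 4 : ℝ) ^ n := by
    intro n g
    rw [dist_comm, dist_eq_norm]
    refine (hnx n (a n) g).trans ?_
    rw [one_div, inv_pow]
    exact le_of_eq (by ring)
  have hc : ∀ g, ∃ x, Tendsto (fun n => (a n).1 g) atTop (𝓝 x) := fun g =>
    cauchySeq_tendsto_of_complete
      (cauchySeq_of_le_geometric (1 / 4) (2 * ε) (by norm_num) fun n => ha n g)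
  choose F hF using hc
  have hlim : ∀ n : ℕ, ∀ g h, ‖(a n).1 (g * h) - (a n).1 g * (a n).1 h‖ ≤ ε / 4 ^ n := fun n =>
    (a n).2.defect
  have h0 : Tendsto (fun n : ℕ => ε / 4 ^ n) atTop (𝓝 0) := by
    have := (tendsto_pow_atTop_nhds_zero_of_lt_one (r := (1 / 4 : ℝ)) (by norm_num)
      (by norm_num)).const_mul ε
    rw [mul_zero] at this
    refine this.congr fun n => ?_
    rw [one_div, inv_pow, div_eq_mul_inv]
  refine ⟨F, ⟨fun g => ?_, fun g => ?_, fun g => ?_, fun g h => ?_⟩, fun g => ?_⟩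
  · exact (isClosed_vN P).mem_of_tendsto (hF g) (Filter.Eventually.of_forall fun n => (a n).2.mem g)
  · refine tendsto_nhds_unique (f := fun n => (a n).1 g) ?_ (hF g)
    have := (continuous_star.tendsto (F g)).comp (hF g)
    refine this.congr fun n => ?_
    exact (a n).2.sa g
  · have h1 := (hF g).mul (hF g)
    refine tendsto_nhds_unique h1 ?_
    refine tendsto_const_nhds.congr fun n => ?_
    exact ((a n).2.sq g).symm
  · have h1 := ((hF (g * h)).sub ((hF g).mul (hF h))).norm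
    exact le_of_tendsto_of_tendsto' h1 h0 fun n => hlim n g h
  · have h1 := dist_le_of_le_geometric_of_tendsto₀ (1 / 4 : ℝ) (2 * ε) (by norm_num)
      (fun n => ha n g) (hF g)
    rw [ha0, dist_comm, dist_eq_norm] at h1
    refine h1.trans ?_
    have : (1 : ℝ) - 1 / 4 = 3 / 4 := by norm_num
    rw [this]
    linarith

/-- Groups of commuting symmetries close to `P` are close to groups of symmetries of `P`. -/
theorem near_hom (h2 : ∀ g : G, g * g = 1) (π : G → (H →L[ℂ] H))
    (hπm : ∀ g h, π (g * h) = π g * π h) (hπ1 : π 1 = 1) (hπs : ∀ g, star (π g) = π g)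
    (P : VonNeumannAlgebra H) {γ : ℝ} (hγ : γ ≤ 1 / 1000)
    (hnear : ∀ g, ∃ x ∈ P, ‖x - π g‖ ≤ γ) :
    ∃ f : G → (H →L[ℂ] H), (∀ g h, f (g * h) = f g * f h) ∧ (∀ g, star (f g) = f g) ∧
      (∀ g, f g * f g = 1) ∧ (∀ g, f g ∈ P) ∧ ∀ g, ‖f g - π g‖ ≤ 40 * γ := by
  have hγ0 : 0 ≤ γ := by
    obtain ⟨x, _, hx⟩ := hnear 1
    exact (norm_nonneg _).trans hx
  have hπsq : ∀ g, π g * π g = 1 := fun g => by rw [← hπm, h2, hπ1]
  have hπn : ∀ g, ‖π g‖ ≤ 1 := fun g => norm_sym_le (hπs g) (hπsq g)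
  have h0 : ∀ g, ∃ s : H →L[ℂ] H, star s = s ∧ s * s = 1 ∧ s ∈ P ∧ ‖s - π g‖ ≤ 4 * γ := by
    intro g
    obtain ⟨x, hxP, hx⟩ := hnear g
    set x' : H →L[ℂ] H := (1 / 2 : ℂ) • (x + star x) with hx'
    have hx'sa : star x' = x' := by
      rw [hx', star_smul, star_add, star_star, add_comm]
      congr 1
      simp
    have hx'P : x' ∈ P := by
      refine mem_of_commute fun y hy => ?_
      have e1 := commute_of_mem hxP hy
      have e2 := commute_of_mem (star_mem hxP) hy
      rw [hx', mul_smul_comm, smul_mul_assoc, mul_add, add_mul, e1, e2]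
    have hx'n : ‖x' - π g‖ ≤ γ := by
      have e : x' - π g = (1 / 2 : ℂ) • ((x - π g) + star (x - π g)) := by
        rw [star_sub, hπs, hx']
        module
      rw [e, norm_smul]
      have h3 : ‖(x - π g) + star (x - π g)‖ ≤ γ + γ :=
        (norm_add_le _ _).trans (add_le_add hx (by rw [norm_star]; exact hx))
      have h4 : ‖(1 / 2 : ℂ)‖ = 1 / 2 := by simp
      rw [h4]
      linarith
    have hx'norm : ‖x'‖ ≤ 1 + γ := by
      have : x' = (x' - π g) + π g := by abel
      rw [this]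
      calc ‖(x' - π g) + π g‖ ≤ ‖x' - π g‖ + ‖π g‖ := norm_add_le _ _
        _ ≤ γ + 1 := add_le_add hx'n (hπn g)
        _ = 1 + γ := add_comm _ _
    have hsq : ‖x' * x' - 1‖ ≤ 3 * γ := by
      rw [← hπsq g]
      refine (norm_mul_sub_mul_le hx'n hx'n hx'norm (hπn g) hγ0 zero_le_one).trans ?_
      nlinarith
    obtain ⟨s, hs1, hs2, hs3, hs4⟩ := exists_sgn x' hx'sa (by linarith) hsq
    refine ⟨s, hs1, hs2, mem_of_sgn hx'P hs4, ?_⟩
    have : s - π g = (s - x') + (x' - π g) := by abel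
    rw [this]
    refine (norm_add_le _ _).trans ?_
    linarith
  choose s hs1 hs2 hs3 hs4 using h0
  have hgood : Good P s (12 * γ) := by
    refine ⟨hs3, hs1, hs2, fun g h => ?_⟩
    have e : s (g * h) - s g * s h = (s (g * h) - π (g * h)) + (π g * π h - s g * s h) := by
      rw [hπm]; abel
    rw [e]
    have b : ‖π g * π h - s g * s h‖ ≤ 4 * γ * 1 + 1 * (4 * γ) :=
      norm_mul_sub_mul_le (by rw [norm_sub_rev]; exact hs4 g) (by rw [norm_sub_rev]; exact hs4 h)
        (hπn h) (norm_sym_le (hs1 g) (hs2 g)) (by positivity) zero_le_one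
    refine (norm_add_le _ _).trans ?_
    have := hs4 (g * h)
    linarith
  obtain ⟨f, hf, hfs⟩ := good_limit h2 hgood (by linarith)
  refine ⟨f, fun g h => ?_, hf.sa, hf.sq, hf.mem, fun g => ?_⟩
  · have := hf.defect g h
    exact sub_eq_zero.1 (norm_le_zero_iff.1 this)
  · have : f g - π g = (f g - s g) + (s g - π g) := by abel
    rw [this]
    refine (norm_add_le _ _).trans ?_
    have := hfs g
    have := hs4 g
    linarith

/-- Close groups of commuting symmetries are conjugate by a unitary close to `1`. -/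
theorem intertwine (h2 : ∀ g : G, g * g = 1) (π f : G → (H →L[ℂ] H))
    (hπm : ∀ g h, π (g * h) = π g * π h) (hπs : ∀ g, star (π g) = π g)
    (hπq : ∀ g, π g * π g = 1)
    (hfm : ∀ g h, f (g * h) = f g * f h) (hfs : ∀ g, star (f g) = f g)
    (hfq : ∀ g, f g * f g = 1) {κ : ℝ} (hκ : κ ≤ 1 / 8) (hnear : ∀ g, ‖f g - π g‖ ≤ κ) :
    ∃ w : H →L[ℂ] H, star w * w = 1 ∧ w * star w = 1 ∧ ‖w - 1‖ ≤ 5 * κ ∧
      ∀ g, w * π g = f g * w := by
  have hκ0 : 0 ≤ κ := (norm_nonneg _).trans (hnear 1)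
  have hπn : ∀ g, ‖π g‖ ≤ 1 := fun g => norm_sym_le (hπs g) (hπq g)
  have hfn : ∀ g, ‖f g‖ ≤ 1 := fun g => norm_sym_le (hfs g) (hfq g)
  obtain ⟨s, hs⟩ := exists_mean (fun g => f g * π g) 1 fun g =>
    (norm_mul_le _ _).trans (mul_le_one₀ (hfn g) (norm_nonneg _) (hπn g))
  have hs1 : ‖s - 1‖ ≤ κ := by
    refine hs.norm_sub_le 1 hκ0 fun g => ?_
    have : f g * π g - 1 = (f g - π g) * π g := by rw [sub_mul, hπq]
    rw [this]
    calc ‖(f g - π g) * π g‖ ≤ κ * 1 :=
          (norm_mul_le _ _).trans (mul_le_mul (hnear g) (hπn g) (norm_nonneg _) hκ0)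
      _ = κ := mul_one _
  have hsh : ∀ h, s * π h = f h * s := by
    intro h
    have m1 := (hs.shift h2 h).mul_right (π h)
    have m2 := hs.mul_left (f h)
    have e : (fun g => f (h * g) * π (h * g) * π h) = fun g => f h * (f g * π g) := by
      funext g
      rw [mul_comm h g, hπm, hfm]
      have hc : f g * f h = f h * f g := by rw [← hfm, ← hfm, mul_comm]
      calc f g * f h * (π g * π h) * π h = f g * f h * π g * (π h * π h) := by noncomm_ring
        _ = f h * f g * π g := by rw [hπq, mul_one, hc]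
        _ = f h * (f g * π g) := by rw [mul_assoc]
    rw [e] at m1
    exact m1.unique m2
  obtain ⟨w, r, hw1, hw2, hw3, hwr, hr⟩ := exists_polar s hκ hs1
  refine ⟨w, hw1, hw2, hw3, fun g => ?_⟩
  have hst : π g * star s = star s * f g := by
    have := congrArg star (hsh g)
    rw [star_mul, star_mul, hπs, hfs] at this
    exact this
  have hcom : π g * (star s * s) = star s * s * π g := by
    rw [← mul_assoc, hst, mul_assoc, ← hsh, mul_assoc]
  rw [hwr, mul_assoc, ← hr _ hcom, ← mul_assoc, hsh, mul_assoc]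

end

end Pool.Agent.X191.CC
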