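import Mathlib
import Pool.Agent.X191.CC.NearHom
import Pool.Agent.X191.CC.Dist

/-!
II₁ factors with vector traces; comparison of traces of close factors.
-/

open ContinuousLinearMap Filter Topology
open scoped InnerProductSpace ComplexOrder

noncomputable section

namespace Pool.Agent.X191.CC

open H759R2.Kad H710R2.DP

variable {H : Type} [NormedAddCommGroup H] [InnerProductSpace ℂ H] [CompleteSpace H]

/-- A faithful normal tracial state, given by a sequence of vectors. -/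
structure TrV (M : VonNeumannAlgebra H) (ζ : ℕ → H) : Prop where
  sum : Summable fun n => ‖ζ n‖ ^ 2
  one : tv ζ 1 = 1
  tr : ∀ x ∈ M, ∀ y ∈ M, tv ζ (x * y) = tv ζ (y * x)
  faith : ∀ x ∈ M, tv ζ (star x * x) = 0 → x = 0

/-- A II₁ factor with its trace. -/
structure IIOne (M : VonNeumannAlgebra H) (ζ : ℕ → H) : Prop extends TrV M ζ where
  fac : IsFac M
  inf : ¬ FiniteDimensional ℂ M.toStarSubalgebra

lemma tv_star_mul_self {ζ : ℕ → H} (x : H →L[ℂ] H) :
    tv ζ (star x * x) = ((∑' n, ‖x (ζ n)‖ ^ 2 : ℝ) : ℂ) := by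
  unfold tv
  rw [Complex.ofReal_tsum]
  refine tsum_congr fun n => ?_
  have : ⟪ζ n, (star x * x) (ζ n)⟫_ℂ = ⟪x (ζ n), x (ζ n)⟫_ℂ := by
    rw [ContinuousLinearMap.star_eq_adjoint]
    show ⟪ζ n, adjoint x (x (ζ n))⟫_ℂ = _
    rw [adjoint_inner_right]
  rw [this, inner_self_eq_norm_sq_to_K]
  norm_cast

lemma tv_pos {ζ : ℕ → H} (x : H →L[ℂ] H) : 0 ≤ tv ζ (star x * x) := by
  rw [tv_star_mul_self]
  exact_mod_cast tsum_nonneg fun n => by positivity

lemma pr_star_mul {p : H →L[ℂ] H} (hp : IsPr p) : star p * p = p := by rw [hp.1, hp.2]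

lemma tv_pr_nonneg {ζ : ℕ → H} {p : H →L[ℂ] H} (hp : IsPr p) : 0 ≤ tv ζ p := by
  rw [← pr_star_mul hp]; exact tv_pos p

/-- the real trace. -/
def rtr (ζ : ℕ → H) (x : H →L[ℂ] H) : ℝ := (tv ζ x).re

lemma tr_pr_nonneg {ζ : ℕ → H} {p : H →L[ℂ] H} (hp : IsPr p) : 0 ≤ rtr ζ p :=
  (Complex.le_def.1 (tv_pr_nonneg hp)).1

lemma tv_eq_tr {ζ : ℕ → H} {p : H →L[ℂ] H} (hp : IsPr p) : tv ζ p = (rtr ζ p : ℂ) := by
  apply Complex.ext
  · simp [rtr]
  · have := (Complex.le_def.1 (tv_pr_nonneg (ζ := ζ) hp)).2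
    simpa using this.symm

omit [CompleteSpace H] in
lemma tr_add {ζ : ℕ → H} (hζ : Summable fun n => ‖ζ n‖ ^ 2) (x y : H →L[ℂ] H) :
    rtr ζ (x + y) = rtr ζ x + rtr ζ y := by
  unfold rtr; rw [tv_add hζ, Complex.add_re]

omit [CompleteSpace H] in
lemma tr_sub {ζ : ℕ → H} (hζ : Summable fun n => ‖ζ n‖ ^ 2) (x y : H →L[ℂ] H) :
    rtr ζ (x - y) = rtr ζ x - rtr ζ y := by
  unfold rtr; rw [tv_sub hζ, Complex.sub_re]

omit [CompleteSpace H] in
lemma tr_sum {ζ : ℕ → H} (hζ : Summable fun n => ‖ζ n‖ ^ 2) {ι : Type*} (s : Finset ι)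
    (f : ι → (H →L[ℂ] H)) : rtr ζ (∑ i ∈ s, f i) = ∑ i ∈ s, rtr ζ (f i) := by
  unfold rtr; rw [tv_sum hζ, Complex.re_sum]

/-- A subprojection has smaller trace. -/
lemma tr_le_of_le {ζ : ℕ → H} (hζ : Summable fun n => ‖ζ n‖ ^ 2) {p q : H →L[ℂ] H}
    (hp : IsPr p) (hq : IsPr q) (h : q * p = p) : rtr ζ p ≤ rtr ζ q := by
  have hp2 : p * q = p := by
    have := congrArg star h
    rwa [star_mul, hp.1, hq.1] at this
  have hpr : IsPr (q - p) := by
    refine ⟨by rw [star_sub, hp.1, hq.1], ?_⟩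
    rw [sub_mul, mul_sub, mul_sub, hq.2, hp.2, h, hp2]
    abel
  have := tr_pr_nonneg (ζ := ζ) hpr
  rw [tr_sub hζ] at this
  linarith

lemma isPr_mul_star {v p : H →L[ℂ] H} (hp : IsPr p) (hv : star v * v = p) :
    IsPr (v * star v) ∧ v * p = v := by
  have h1 : v * p = v := by
    have h2 : star (v * p - v) * (v * p - v) = 0 := by
      rw [star_sub, star_mul, hp.1, sub_mul, mul_sub, mul_sub]
      have e1 : p * star v * (v * p) = p := by
        rw [mul_assoc, ← mul_assoc (star v), hv, hp.2, hp.2]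
      have e2 : p * star v * v = p := by rw [mul_assoc, hv, hp.2]
      have e3 : star v * (v * p) = p := by rw [← mul_assoc, hv, hp.2]
      rw [e1, e2, e3, hv]
      abel
    have h3 : v * p - v = 0 := by
      rw [← CStarRing.star_mul_self_eq_zero_iff]; exact h2
    exact sub_eq_zero.1 h3
  refine ⟨⟨by rw [star_mul, star_star], ?_⟩, h1⟩
  rw [mul_assoc, ← mul_assoc (star v), hv, ← mul_assoc, h1]

lemma TrV.le_of_sub {M : VonNeumannAlgebra H} {ζ : ℕ → H} (h : TrV M ζ) {v p q : H →L[ℂ] H}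
    (hv : v ∈ M) (hp : IsPr p) (hq : IsPr q) (hvp : star v * v = p) (hqv : q * v = v) :
    rtr ζ p ≤ rtr ζ q := by
  have h1 := isPr_mul_star hp hvp
  have h2 : rtr ζ p = rtr ζ (v * star v) := by
    unfold rtr
    rw [← hvp, h.tr _ (star_mem hv) _ hv]
  rw [h2]
  exact tr_le_of_le h.sum h1.1 hq (by rw [← mul_assoc, hqv])

/-- If moreover the traces agree the projections are equivalent. -/
lemma TrV.eq_of_sub {M : VonNeumannAlgebra H} {ζ : ℕ → H} (h : TrV M ζ) {v p q : H →L[ℂ] H}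
    (hv : v ∈ M) (hq' : q ∈ M) (hp : IsPr p) (hq : IsPr q) (hvp : star v * v = p)
    (hqv : q * v = v) (ht : rtr ζ q ≤ rtr ζ p) : v * star v = q := by
  have h1 := isPr_mul_star hp hvp
  have h2 : rtr ζ p = rtr ζ (v * star v) := by
    unfold rtr
    rw [← hvp, h.tr _ (star_mem hv) _ hv]
  have h3 : q * (v * star v) = v * star v := by rw [← mul_assoc, hqv]
  have h4 : (v * star v) * q = v * star v := by
    have := congrArg star h3
    rwa [star_mul, h1.1.1, hq.1] at this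
  have hpr : IsPr (q - v * star v) := by
    refine ⟨by rw [star_sub, h1.1.1, hq.1], ?_⟩
    rw [sub_mul, mul_sub, mul_sub, hq.2, h1.1.2, h3, h4]
    abel
  have h5 : rtr ζ (q - v * star v) = 0 := by
    have := tr_pr_nonneg (ζ := ζ) hpr
    rw [tr_sub h.sum] at this ⊢
    linarith
  have h6 : q - v * star v = 0 := by
    refine h.faith _ (sub_mem hq' (mul_mem hv (star_mem hv))) ?_
    rw [pr_star_mul hpr, tv_eq_tr hpr, h5]
    simp
  exact (sub_eq_zero.1 h6).symm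

/-- inverse square roots of operators close to `1`. -/
theorem exists_invsqrt (a : H →L[ℂ] H) (ha : star a = a) (h : ‖a - 1‖ ≤ 3 / 8) :
    ∃ r : H →L[ℂ] H, star r = r ∧ r * r * a = 1 ∧
      ∀ y : H →L[ℂ] H, y * a = a * y → y * r = r * y := by
  have hasa : IsSelfAdjoint a := ha
  have hsp : ∀ t ∈ spectrum ℝ a, |t - 1| ≤ 3 / 8 := by
    intro t ht
    have h1 : cfc (fun t : ℝ => t - 1) a = a - 1 := by
      rw [cfc_sub (fun t : ℝ => t) (fun _ => 1) a, cfc_id' ℝ a, cfc_const_one ℝ a]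
    have h2 := norm_apply_le_norm_cfc (fun t : ℝ => t - 1) a ht
    rw [h1] at h2
    exact h2.trans h
  have hlow : ∀ t ∈ spectrum ℝ a, 5 / 8 ≤ t := by
    intro t ht
    have := (abs_le.1 (hsp t ht)).1
    linarith
  have hcont : ContinuousOn (fun t : ℝ => (Real.sqrt t)⁻¹) (spectrum ℝ a) := by
    refine ContinuousOn.inv₀ Real.continuous_sqrt.continuousOn fun t ht => ?_
    have := hlow t ht
    exact (Real.sqrt_pos.2 (by linarith)).ne'
  have hcont' : ContinuousOn (fun t : ℝ => t⁻¹) (spectrum ℝ a) := by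
    refine ContinuousOn.inv₀ continuousOn_id fun t ht => ?_
    have := hlow t ht
    exact (by linarith : (0:ℝ) < t).ne'
  refine ⟨cfc (fun t : ℝ => (Real.sqrt t)⁻¹) a,
    (cfc_predicate (R := ℝ) (fun t : ℝ => (Real.sqrt t)⁻¹) a : IsSelfAdjoint _), ?_, ?_⟩
  · rw [← cfc_mul _ _ a hcont hcont]
    have : cfc (fun t : ℝ => (Real.sqrt t)⁻¹ * (Real.sqrt t)⁻¹) a = cfc (fun t : ℝ => t⁻¹) a := by
      refine cfc_congr fun t ht => ?_
      have := hlow t ht
      show (Real.sqrt t)⁻¹ * (Real.sqrt t)⁻¹ = t⁻¹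
      rw [← mul_inv, Real.mul_self_sqrt (by linarith)]
    rw [this]
    nth_rewrite 2 [← cfc_id' ℝ a]
    rw [← cfc_mul (fun t : ℝ => t⁻¹) (fun t : ℝ => t) a hcont' continuous_id.continuousOn,
      ← cfc_const_one ℝ a]
    refine cfc_congr fun t ht => ?_
    have := hlow t ht
    show t⁻¹ * t = 1
    exact inv_mul_cancel₀ (by linarith : (0:ℝ) < t).ne'
  · intro y hy
    exact ((Commute.cfc_real (show Commute a y from hy.symm) _)).symm.eq

/-- Partial isometries from operators which are almost partial isometries. -/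
lemma exists_pi_of_near {N : VonNeumannAlgebra H} {y q q₁ : H →L[ℂ] H} (hy : y ∈ N) (hq : q ∈ N)
    (hqp : IsPr q) (h1 : q₁ * y = y) (h2 : y * q = y) (h : ‖star y * y - q‖ ≤ 3 / 8) :
    ∃ v ∈ N, star v * v = q ∧ q₁ * v = v := by
  set a := star y * y + (1 - q) with ha
  have h2' : q * star y = star y := by
    have := congrArg star h2
    rwa [star_mul, hqp.1] at this
  have hasa : star a = a := by
    rw [ha, star_add, star_mul, star_star, star_sub, star_one, hqp.1]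
  have ha1 : ‖a - 1‖ ≤ 3 / 8 := by
    have : a - 1 = star y * y - q := by rw [ha]; abel
    rw [this]; exact h
  obtain ⟨r, hr1, hr2, hr3⟩ := exists_invsqrt a hasa ha1
  have haN : a ∈ N := add_mem (mul_mem (star_mem hy) hy) (sub_mem (one_mem _) hq)
  have hrN : r ∈ N := mem_of_commute fun z hz => hr3 z (commute_of_mem haN hz)
  have hqa : q * a = a * q := by
    rw [ha, mul_add, add_mul, mul_sub, sub_mul, mul_one, one_mul, ← mul_assoc, h2', mul_assoc, h2]
  have hqr : q * r = r * q := hr3 q hqa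
  have hra : a * r = r * a := hr3 a rfl
  refine ⟨y * r, mul_mem hy hrN, ?_, by rw [← mul_assoc, h1]⟩
  have e1 : star y * y = a - (1 - q) := by rw [ha]; abel
  have e2 : (1 - q) * a = 1 - q := by
    rw [ha, mul_add]
    have e3 : (1 - q) * (star y * y) = 0 := by
      rw [← mul_assoc, sub_mul, one_mul, h2', sub_self, zero_mul]
    have e4 : (1 - q) * (1 - q) = 1 - q := by
      rw [sub_mul, one_mul, mul_sub, mul_one, hqp.2]; abel
    rw [e3, e4, zero_add]
  have e5 : r * (1 - q) * r = 1 - q := by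
    calc r * (1 - q) * r = (1 - q) * r * r := by
          rw [mul_sub, sub_mul, mul_one, ← hqr]; noncomm_ring
      _ = (1 - q) * a * r * r := by rw [e2]
      _ = (1 - q) * (r * r * a) := by
          rw [mul_assoc (1 - q), hra, mul_assoc, mul_assoc, mul_assoc, hra]
      _ = 1 - q := by rw [hr2, mul_one]
  rw [star_mul, hr1]
  calc r * star y * (y * r) = r * (star y * y) * r := by noncomm_ring
    _ = r * a * r - r * (1 - q) * r := by rw [e1]; noncomm_ring
    _ = r * r * a - (1 - q) := by rw [e5, mul_assoc, hra, mul_assoc]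
    _ = q := by rw [hr2]; abel

/-- `N` is `δ`-close to the unit ball of `M`. -/
def NearIn (M N : VonNeumannAlgebra H) (δ : ℝ) : Prop :=
  ∀ x ∈ M, ‖x‖ ≤ 1 → ∃ y ∈ N, ‖y‖ ≤ 1 ∧ ‖x - y‖ ≤ δ

lemma norm_pr_le {p : H →L[ℂ] H} (hp : IsPr p) : ‖p‖ ≤ 1 := by
  have h : ‖p‖ * ‖p‖ = ‖p‖ := by
    rw [← CStarRing.norm_star_mul_self, pr_star_mul hp]
  by_contra hlt
  push Not at hlt
  nlinarith

lemma norm_pi_le {v p : H →L[ℂ] H} (hp : IsPr p) (hv : star v * v = p) : ‖v‖ ≤ 1 := by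
  have h : ‖v‖ * ‖v‖ ≤ 1 := by
    rw [← CStarRing.norm_star_mul_self, hv]; exact norm_pr_le hp
  nlinarith [norm_nonneg v]

/-- Traces of projections near comparable projections are comparable. -/
lemma tr_mono_near {M N : VonNeumannAlgebra H} {ζ' : ℕ → H} (hN : TrV N ζ') {δ : ℝ}
    (hδ : δ ≤ 1 / 100) (hMN : NearIn M N δ) {p p₁ v q q₁ : H →L[ℂ] H} (hv : v ∈ M)
    (hp : IsPr p) (hp₁ : IsPr p₁) (hvp : star v * v = p) (hvp₁ : p₁ * v = v)
    (hq : q ∈ N) (hqp : IsPr q) (hq₁ : q₁ ∈ N) (hqp₁ : IsPr q₁)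
    (h1 : ‖q - p‖ ≤ 1 / 20) (h2 : ‖q₁ - p₁‖ ≤ 1 / 20) : rtr ζ' q ≤ rtr ζ' q₁ := by
  obtain ⟨x, hx, hxn, hxv⟩ := hMN v hv (norm_pi_le hp hvp)
  have hvp' := (isPr_mul_star hp hvp).2
  have hδ0 : 0 ≤ δ := (norm_nonneg _).trans hxv
  set y := q₁ * x * q with hy
  have hyN : y ∈ N := mul_mem (mul_mem hq₁ hx) hq
  have b1 : ‖q₁ * x - p₁ * v‖ ≤ 1 / 20 + δ := by
    have hxv' : ‖x - v‖ ≤ δ := by rw [norm_sub_rev]; exact hxv
    have := norm_mul_sub_mul_le h2 hxv' hxn (norm_pr_le hp₁) (by norm_num) zero_le_one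
    linarith
  have hq1x : ‖q₁ * x‖ ≤ 1 :=
    (norm_mul_le _ _).trans (mul_le_one₀ (norm_pr_le hqp₁) (norm_nonneg _) hxn)
  have hvn : ‖v‖ ≤ 1 := norm_pi_le hp hvp
  have b2 : ‖y - v‖ ≤ 1 / 10 + δ := by
    have e : y - v = (q₁ * x) * q - (p₁ * v) * p := by rw [hy, hvp₁, hvp']
    rw [e]
    have h3 : ‖p₁ * v‖ ≤ 1 := by rw [hvp₁]; exact hvn
    have := norm_mul_sub_mul_le b1 h1 (norm_pr_le hqp) h3 (by positivity) zero_le_one
    linarith
  have hyn : ‖y‖ ≤ 1 :=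
    (norm_mul_le _ _).trans (mul_le_one₀ hq1x (norm_nonneg _) (norm_pr_le hqp))
  have b3 : ‖star y * y - star v * v‖ ≤ (1 / 10 + δ) * 1 + 1 * (1 / 10 + δ) := by
    refine norm_mul_sub_mul_le ?_ b2 hyn (by rw [norm_star]; exact hvn) (by positivity) zero_le_one
    rw [← star_sub, norm_star]; exact b2
  have b4 : ‖star y * y - q‖ ≤ 3 / 8 := by
    have e : star y * y - q = (star y * y - star v * v) - (q - p) := by rw [hvp]; abel
    rw [e]
    refine (norm_sub_le _ _).trans ?_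
    linarith
  obtain ⟨w, hw, hw1, hw2⟩ := exists_pi_of_near hyN hq hqp
    (by rw [hy, ← mul_assoc, ← mul_assoc, hqp₁.2]) (by rw [hy, mul_assoc, hqp.2]) b4
  exact hN.le_of_sub hw hqp hqp₁ hw1 hw2

end Pool.Agent.X191.CC
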