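import Mathlib
import Pool.Agent.X191.CC.Fac

/-!
Close projections of close II₁ factors have the same trace.
-/

open ContinuousLinearMap Filter Topology
open scoped InnerProductSpace ComplexOrder

noncomputable section

namespace Pool.Agent.X191.CC

open H759R2.Kad H710R2.DP

variable {H : Type} [NormedAddCommGroup H] [InnerProductSpace ℂ H] [CompleteSpace H]

/-- The projection of a symmetry. -/
def Pj (s : H →L[ℂ] H) : H →L[ℂ] H := (1 / 2 : ℂ) • (1 - s)

lemma Pj_isPr {s : H →L[ℂ] H} (h1 : star s = s) (h2 : s * s = 1) : IsPr (Pj s) := by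
  constructor
  · unfold Pj
    rw [star_smul, star_sub, star_one, h1]
    congr 1
    simp
  · unfold Pj
    rw [smul_mul_smul_comm, sub_mul, mul_sub, mul_sub, h2, one_mul, one_mul, mul_one]
    module

omit [CompleteSpace H] in
lemma Pj_eq {p : H →L[ℂ] H} : Pj (1 - (2 : ℂ) • p) = p := by
  unfold Pj; module

omit [CompleteSpace H] in
lemma two_Pj {s : H →L[ℂ] H} : 1 - (2 : ℂ) • Pj s = s := by
  unfold Pj; module

lemma sym_of_pr {p : H →L[ℂ] H} (hp : IsPr p) :
    star (1 - (2 : ℂ) • p) = 1 - (2 : ℂ) • p ∧ (1 - (2 : ℂ) • p) * (1 - (2 : ℂ) • p) = 1 := by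
  constructor
  · rw [star_sub, star_one, star_smul, hp.1]; simp
  · rw [sub_mul, mul_sub, mul_sub, smul_mul_smul_comm, hp.2, one_mul, one_mul, mul_one]
    module

lemma norm_Pj_sub (s t : H →L[ℂ] H) : ‖Pj s - Pj t‖ = (1 / 2) * ‖s - t‖ := by
  have : Pj s - Pj t = (-(1 / 2) : ℂ) • (s - t) := by unfold Pj; module
  rw [this, norm_smul]; simp

lemma Pj_mem {P : VonNeumannAlgebra H} {s : H →L[ℂ] H} (hs : s ∈ P) : Pj s ∈ P := by
  refine mem_of_commute fun y hy => ?_
  unfold Pj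
  rw [mul_smul_comm, smul_mul_assoc, mul_sub, sub_mul, mul_one, one_mul, commute_of_mem hs hy]

lemma smul_mem' {P : VonNeumannAlgebra H} {s : H →L[ℂ] H} (c : ℂ) (hs : s ∈ P) : c • s ∈ P := by
  refine mem_of_commute fun y hy => ?_
  rw [mul_smul_comm, smul_mul_assoc, commute_of_mem hs hy]

/-- A projection of norm less than one vanishes. -/
lemma pr_eq_zero {p : H →L[ℂ] H} (hp : IsPr p) (h : ‖p‖ < 1) : p = 0 := by
  have h1 : ‖p‖ * ‖p‖ = ‖p‖ := by rw [← CStarRing.norm_star_mul_self, pr_star_mul hp]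
  have h2 : ‖p‖ = 0 := by
    by_contra h0
    have h3 : 0 < ‖p‖ := lt_of_le_of_ne (norm_nonneg _) (Ne.symm h0)
    nlinarith
  exact norm_eq_zero.1 h2

section

variable {G : Type} [CommGroup G]

/-- Additivity of the projections of close groups of symmetries. -/
lemma Pj_add {π f : G → (H →L[ℂ] H)} (hfm : ∀ g h, f (g * h) = f g * f h)
    (hfs : ∀ g, star (f g) = f g) (hfq : ∀ g, f g * f g = 1)
    (hπs : ∀ g, star (π g) = π g) (hπq : ∀ g, π g * π g = 1)
    {κ : ℝ} (hκ : κ < 1) (hn : ∀ g, ‖f g - π g‖ ≤ κ) {g h : G}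
    (hz : Pj (π g) * Pj (π h) = 0) :
    Pj (f g) * Pj (f h) = 0 ∧ Pj (f (g * h)) = Pj (f g) + Pj (f h) := by
  have hκ0 : 0 ≤ κ := (norm_nonneg _).trans (hn 1)
  have hg := Pj_isPr (hfs g) (hfq g)
  have hh := Pj_isPr (hfs h) (hfq h)
  have hc : f g * f h = f h * f g := by rw [← hfm, ← hfm, mul_comm]
  have hcP : Pj (f g) * Pj (f h) = Pj (f h) * Pj (f g) := by
    unfold Pj
    rw [smul_mul_smul_comm, smul_mul_smul_comm, sub_mul, sub_mul, mul_sub, mul_sub, mul_sub,
      mul_sub, hc]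
    congr 1
    simp only [one_mul, mul_one]
    abel
  have hpr : IsPr (Pj (f g) * Pj (f h)) := by
    refine ⟨by rw [star_mul, hg.1, hh.1, hcP], ?_⟩
    calc Pj (f g) * Pj (f h) * (Pj (f g) * Pj (f h))
        = Pj (f g) * (Pj (f h) * Pj (f g)) * Pj (f h) := by noncomm_ring
      _ = (Pj (f g) * Pj (f g)) * (Pj (f h) * Pj (f h)) := by rw [← hcP]; noncomm_ring
      _ = Pj (f g) * Pj (f h) := by rw [hg.2, hh.2]
  have hn' : ∀ g, ‖Pj (f g) - Pj (π g)‖ ≤ κ / 2 := by
    intro g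
    rw [norm_Pj_sub]
    have := hn g
    linarith
  have hb : ‖Pj (f g) * Pj (f h)‖ < 1 := by
    have e : Pj (f g) * Pj (f h) = Pj (f g) * Pj (f h) - Pj (π g) * Pj (π h) := by
      rw [hz, sub_zero]
    rw [e]
    have := norm_mul_sub_mul_le (hn' g) (hn' h) (norm_pr_le hh)
      (norm_pr_le (Pj_isPr (hπs g) (hπq g))) (by positivity) zero_le_one
    linarith
  have h0 := pr_eq_zero hpr hb
  refine ⟨h0, ?_⟩
  have h4 : (4 : ℂ) • (Pj (f g) * Pj (f h)) = 1 - f g - f h + f g * f h := by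
    unfold Pj
    rw [smul_mul_smul_comm, sub_mul, mul_sub, mul_sub, one_mul, one_mul, mul_one]
    module
  rw [h0, smul_zero] at h4
  have h5 : f (g * h) = f g + f h - 1 := by
    rw [hfm]
    have : f g * f h = (1 - f g - f h + f g * f h) + (f g + f h - 1) := by abel
    rw [this, ← h4, zero_add]
  unfold Pj
  rw [h5]
  module

end

/-- Diagonal symmetries. -/
lemma near_diag {M N : VonNeumannAlgebra H} {δ : ℝ} (hδ : δ ≤ 1 / 1000) (hMN : NearIn M N δ)
    {n : ℕ} (e : Fin n → (H →L[ℂ] H)) (he : ∀ i, e i ∈ M) (hs : ∀ i, star (e i) = e i)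
    (hm : ∀ i j, e i * e j = if i = j then e i else 0) (h1 : ∑ i, e i = 1) :
    ∃ Q : Finset (Fin n) → (H →L[ℂ] H), (∀ S, Q S ∈ N ∧ IsPr (Q S)) ∧
      (∀ S, ‖Q S - ∑ i ∈ S, e i‖ ≤ 20 * δ) ∧ (∀ S, Q S = ∑ i ∈ S, Q {i}) ∧
      Q Finset.univ = 1 := by
  classical
  have hδ0 : 0 ≤ δ := by
    obtain ⟨y, _, _, hy⟩ := hMN 0 (zero_mem _) (by simp)
    exact (norm_nonneg _).trans hy
  let π : (Fin n → ℤˣ) → (H →L[ℂ] H) := fun c => ∑ i, ((c i : ℤ) : ℂ) • e i
  have hπm : ∀ c d, π (c * d) = π c * π d := by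
    intro c d
    simp only [π, Finset.sum_mul, Finset.mul_sum, smul_mul_smul_comm, hm]
    refine Finset.sum_congr rfl fun i _ => ?_
    rw [Finset.sum_eq_single i]
    · simp
    · intro j _ hj
      rw [if_neg hj, smul_zero]
    · simp
  have hπ1 : π 1 = 1 := by simp [π, h1]
  have hπs : ∀ c, star (π c) = π c := by
    intro c
    simp only [π, star_sum, star_smul, hs]
    refine Finset.sum_congr rfl fun i _ => ?_
    congr 1
    simp
  have h2 : ∀ c : Fin n → ℤˣ, c * c = 1 := fun c => by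
    funext i; exact Int.units_mul_self (c i)
  have hπq : ∀ c, π c * π c = 1 := fun c => by rw [← hπm, h2, hπ1]
  have hπM : ∀ c, π c ∈ M := fun c => sum_mem fun i _ => smul_mem' _ (he i)
  obtain ⟨f, hfm, hfs, hfq, hfN, hfn⟩ := near_hom h2 π hπm hπ1 hπs N hδ fun c => by
    obtain ⟨y, hy, _, hyn⟩ := hMN (π c) (hπM c) (norm_sym_le (hπs c) (hπq c))
    exact ⟨y, hy, by rw [norm_sub_rev]; exact hyn⟩
  let cc : Finset (Fin n) → (Fin n → ℤˣ) := fun S i => if i ∈ S then -1 else 1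
  have hP : ∀ S, Pj (π (cc S)) = ∑ i ∈ S, e i := by
    intro S
    have e1 : Pj (π (cc S)) = ∑ i, (if i ∈ S then e i else 0) := by
      simp only [Pj, π, cc]
      rw [← h1, ← Finset.sum_sub_distrib, Finset.smul_sum]
      refine Finset.sum_congr rfl fun i _ => ?_
      by_cases hi : i ∈ S
      · simp only [hi, if_true]
        push_cast
        module
      · simp only [hi, if_false]
        push_cast
        module
    rw [e1, Finset.sum_ite_mem, Finset.univ_inter]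
  have hcc : ∀ (i : Fin n) (S : Finset (Fin n)), i ∉ S → cc (insert i S) = cc {i} * cc S := by
    intro i S hi
    funext j
    simp only [cc, Finset.mem_insert, Finset.mem_singleton, Pi.mul_apply]
    by_cases hj : j = i
    · subst hj
      simp [hi]
    · simp [hj]
  have hQP : ∀ S, ‖Pj (f (cc S)) - ∑ i ∈ S, e i‖ ≤ 20 * δ := by
    intro S
    rw [← hP S, norm_Pj_sub]
    have := hfn (cc S)
    linarith
  have hadd : ∀ (i : Fin n) (S : Finset (Fin n)), i ∉ S →
      Pj (f (cc (insert i S))) = Pj (f (cc {i})) + Pj (f (cc S)) := by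
    intro i S hi
    rw [hcc i S hi]
    refine (Pj_add (κ := 40 * δ) hfm hfs hfq hπs hπq (by linarith) hfn ?_).2
    rw [hP, hP, Finset.sum_singleton, Finset.mul_sum]
    refine Finset.sum_eq_zero fun j hj => ?_
    rw [hm, if_neg]
    intro hij
    exact hi (hij ▸ hj)
  refine ⟨fun S => Pj (f (cc S)), fun S => ⟨Pj_mem (hfN _), Pj_isPr (hfs _) (hfq _)⟩, hQP, ?_, ?_⟩
  · intro S
    induction S using Finset.induction_on with
    | empty =>
      rw [Finset.sum_empty]
      refine pr_eq_zero (Pj_isPr (hfs _) (hfq _)) ?_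
      have := hQP ∅
      rw [Finset.sum_empty, sub_zero] at this
      linarith
    | insert i S hi ih =>
      rw [Finset.sum_insert hi, ← ih]
      exact hadd i S hi
  · have hpr : IsPr (1 - Pj (f (cc Finset.univ))) := by
      have h3 := Pj_isPr (hfs (cc Finset.univ)) (hfq (cc Finset.univ))
      refine ⟨by rw [star_sub, star_one, h3.1], ?_⟩
      rw [sub_mul, one_mul, mul_sub, mul_one, h3.2]; abel
    have h4 := hQP Finset.univ
    rw [h1, norm_sub_rev] at h4
    have := pr_eq_zero hpr (by linarith)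
    exact (sub_eq_zero.1 this).symm

/-- Trace of a projection of a matrix units system. -/
lemma tv_mu {M : VonNeumannAlgebra H} {ζ : ℕ → H} (hM : TrV M ζ) {n : ℕ}
    {e : Fin n → Fin n → (H →L[ℂ] H)} (he : MU M 1 n e) (i j : Fin n) :
    rtr ζ (e i i) = rtr ζ (e j j) := by
  unfold rtr
  have h1 : e i i = e i j * e j i := by rw [he.mul, if_pos rfl]
  have h2 : e j j = e j i * e i j := by rw [he.mul, if_pos rfl]
  rw [h1, h2, hM.tr _ (he.mem i j) _ (he.mem j i)]

lemma mu_isPr {M : VonNeumannAlgebra H} {n : ℕ}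
    {e : Fin n → Fin n → (H →L[ℂ] H)} (he : MU M 1 n e) (S : Finset (Fin n)) :
    IsPr (∑ i ∈ S, e i i) := by
  constructor
  · rw [star_sum]
    exact Finset.sum_congr rfl fun i _ => he.adj i i
  · rw [Finset.sum_mul]
    refine Finset.sum_congr rfl fun i hi => ?_
    rw [Finset.mul_sum, Finset.sum_eq_single i]
    · rw [he.mul, if_pos rfl]
    · intro j _ hj
      rw [he.mul, if_neg (Ne.symm hj)]
    · intro h; exact absurd hi h

lemma mu_tr {M : VonNeumannAlgebra H} {ζ : ℕ → H} (hM : TrV M ζ) {n : ℕ} (hn : 0 < n)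
    {e : Fin n → Fin n → (H →L[ℂ] H)} (he : MU M 1 n e) (i : Fin n) :
    rtr ζ (e i i) = 1 / n := by
  have h1 : ∑ j, rtr ζ (e j j) = 1 := by
    rw [← tr_sum hM.sum, he.sum]
    unfold rtr; rw [hM.one]; simp
  have h2 : ∑ j, rtr ζ (e j j) = n * rtr ζ (e i i) := by
    rw [Finset.sum_congr rfl fun j _ => tv_mu hM he j i, Finset.sum_const, Finset.card_univ,
      Fintype.card_fin, nsmul_eq_mul]
  rw [h2] at h1
  have : (n : ℝ) ≠ 0 := by positivity
  field_simp
  linarith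

/-- comparison of projections in a factor -/
lemma comp_fac {M : VonNeumannAlgebra H} (hM : IsFac M) {p q : H →L[ℂ] H} (hp : p ∈ M)
    (hq : q ∈ M) (hpp : IsPr p) (hqp : IsPr q) :
    (∃ v ∈ M, star v * v = p ∧ q * v = v) ∨ (∃ v ∈ M, star v * v = q ∧ p * v = v) := by
  have hc : F_comp.{0} := prove5_comp prove5_join prove5_polar prove5_chain
  obtain ⟨v, hv, h⟩ := hc H M hM p hp q hq hpp hqp
  rcases h with h | h
  · exact Or.inl ⟨v, hv, h⟩
  · refine Or.inr ⟨star v, star_mem hv, by rw [star_star]; exact h.1, ?_⟩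
    have := congrArg star h.2
    rwa [star_mul, hpp.1] at this

/-- In a factor with trace: projections are ordered by their traces. -/
lemma comp_tr {M : VonNeumannAlgebra H} {ζ : ℕ → H} (hM : TrV M ζ) (hf : IsFac M)
    {p q : H →L[ℂ] H} (hp : p ∈ M) (hq : q ∈ M) (hpp : IsPr p) (hqp : IsPr q)
    (h : rtr ζ p ≤ rtr ζ q) : ∃ v ∈ M, star v * v = p ∧ q * v = v := by
  rcases comp_fac hf hp hq hpp hqp with h1 | ⟨v, hv, hvq, hpv⟩
  · exact h1
  · have h2 := hM.eq_of_sub hv hp hqp hpp hvq hpv h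
    refine ⟨star v, star_mem hv, by rw [star_star]; exact h2, ?_⟩
    have := (isPr_mul_star hqp hvq).2
    have := congrArg star this
    rwa [star_mul, hqp.1] at this

/-- The trace as a linear functional. -/
def tvL (M : VonNeumannAlgebra H) {ζ : ℕ → H} (hζ : Summable fun n => ‖ζ n‖ ^ 2) :
    M.toStarSubalgebra →ₗ[ℂ] ℂ where
  toFun x := tv ζ (x : H →L[ℂ] H)
  map_add' x y := tv_add hζ _ _
  map_smul' c x := tv_smul c _

lemma IIOne.isII1 {M : VonNeumannAlgebra H} {ζ : ℕ → H} (hM : IIOne M ζ) :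
    IsII1 M (tvL M hM.sum) where
  center := hM.fac
  infinite := hM.inf
  trace := ⟨hM.one, fun a => tv_pos _, fun a b => hM.tr _ a.2 _ b.2⟩
  faithful a ha := Subtype.ext (hM.faith _ a.2 ha)

lemma IIOne.noAb {M : VonNeumannAlgebra H} {ζ : ℕ → H} (hM : IIOne M ζ) : NoAb M 1 := by
  have hc : F_comp.{0} := prove5_comp prove5_join prove5_polar prove5_chain
  have hnomin : F_nomin.{0} := prove5_nomin prove5_range hc
  intro e he hpr _ hab
  by_contra h0
  obtain ⟨q, hq, hqp, heq, hq0, hqe⟩ := hnomin H M _ hM.isII1 e he hpr h0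
  obtain ⟨z, hz, hzn⟩ := hab q hq (1 / 4) (by norm_num)
  obtain ⟨c, rfl⟩ := hM.fac z hz.1 hz.2
  have hqe' : q * e = q := by
    have := congrArg star heq
    rwa [star_mul, hpr.1, hqp.1] at this
  have e1 : e * q * e - c • (1 : H →L[ℂ] H) * e = q - c • e := by
    rw [heq, hqe', smul_mul_assoc, one_mul]
  rw [e1] at hzn
  have hn1 : ∀ p : H →L[ℂ] H, IsPr p → p ≠ 0 → ‖p‖ = 1 := by
    intro p hp hp0
    have h1 : ‖p‖ * ‖p‖ = ‖p‖ := by rw [← CStarRing.norm_star_mul_self, pr_star_mul hp]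
    have h2 : ‖p‖ ≠ 0 := norm_ne_zero_iff.2 hp0
    field_simp at h1
    exact h1
  have hqn := hn1 q hqp hq0
  have hpr2 : IsPr (e - q) := by
    refine ⟨by rw [star_sub, hpr.1, hqp.1], ?_⟩
    rw [sub_mul, mul_sub, mul_sub, hpr.2, heq, hqe', hqp.2]; abel
  have hn2 := hn1 (e - q) hpr2 (fun h => hqe (sub_eq_zero.1 h).symm)
  have b1 : ‖(1 - c) • q‖ ≤ 1 / 4 := by
    have : (1 - c) • q = q * (q - c • e) := by
      rw [mul_sub, hqp.2, mul_smul_comm, hqe', sub_smul, one_smul]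
    rw [this]
    refine (norm_mul_le _ _).trans ?_
    rw [hqn, one_mul]; exact hzn
  have b2 : ‖c • (e - q)‖ ≤ 1 / 4 := by
    have : c • (e - q) = - ((e - q) * (q - c • e)) := by
      rw [sub_mul, mul_sub, mul_sub, heq, hqp.2, mul_smul_comm, mul_smul_comm, hpr.2, hqe']
      module
    rw [this, norm_neg]
    refine (norm_mul_le _ _).trans ?_
    rw [hn2, one_mul]; exact hzn
  rw [norm_smul, hqn, mul_one] at b1
  rw [norm_smul, hn2, mul_one] at b2
  have : ‖(1 : ℂ)‖ ≤ ‖1 - c‖ + ‖c‖ := by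
    have := norm_add_le (1 - c) c
    rwa [sub_add_cancel] at this
  rw [norm_one] at this
  linarith

/-- Matrix units of size `2 ^ k`. -/
lemma IIOne.mu {M : VonNeumannAlgebra H} {ζ : ℕ → H} (hM : IIOne M ζ) (k : ℕ) :
    ∃ e : Fin (2 ^ k) → Fin (2 ^ k) → (H →L[ℂ] H), MU M 1 (2 ^ k) e := by
  have hV : V_mu := dp_Vmu (dp_Vhalf (dp_Vab dp_Vsupp prove5_polar fin_bin) prove5_chain)
  exact hV H M 1 (one_mem _) ⟨star_one _, one_mul _⟩ hM.noAb k

/-- Projections near matrix unit projections have the right traces. -/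
lemma near_mu {M N : VonNeumannAlgebra H} {ζ' : ℕ → H} (hN : TrV N ζ') {δ : ℝ}
    (hδ : δ ≤ 1 / 1000) (hMN : NearIn M N δ) {n : ℕ} (hn : 0 < n)
    {e : Fin n → Fin n → (H →L[ℂ] H)} (he : MU M 1 n e) :
    ∃ Q : Finset (Fin n) → (H →L[ℂ] H), (∀ S, Q S ∈ N ∧ IsPr (Q S)) ∧
      (∀ S, ‖Q S - ∑ i ∈ S, e i i‖ ≤ 1 / 20) ∧ ∀ S, rtr ζ' (Q S) = S.card / n := by
  obtain ⟨Q, hQ, hQn, hQs, hQ1⟩ := near_diag hδ hMN (fun i => e i i) (fun i => he.mem i i)
    (fun i => he.adj i i) (fun i j => by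
      rw [he.mul]
      by_cases h : i = j
      · subst h; rw [if_pos rfl]
      · rw [if_neg h, if_neg h]) he.sum
  have hQn' : ∀ S, ‖Q S - ∑ i ∈ S, e i i‖ ≤ 1 / 20 := fun S => (hQn S).trans (by linarith)
  have hle : ∀ i j, rtr ζ' (Q {i}) ≤ rtr ζ' (Q {j}) := by
    intro i j
    have hpi := mu_isPr he {i}
    have hpj := mu_isPr he {j}
    rw [Finset.sum_singleton] at hpi hpj
    refine tr_mono_near hN (by linarith) hMN (v := e j i) (p := e i i) (p₁ := e j j)
      (he.mem j i) hpi hpj ?_ ?_ (hQ {i}).1 (hQ {i}).2 (hQ {j}).1 (hQ {j}).2 ?_ ?_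
    · rw [he.adj, he.mul, if_pos rfl]
    · rw [he.mul, if_pos rfl]
    · have := hQn' {i}
      rwa [Finset.sum_singleton] at this
    · have := hQn' {j}
      rwa [Finset.sum_singleton] at this
  have heq : ∀ i j, rtr ζ' (Q {i}) = rtr ζ' (Q {j}) := fun i j => le_antisymm (hle i j) (hle j i)
  have i₀ : Fin n := ⟨0, hn⟩
  have hsum : ∀ S : Finset (Fin n), rtr ζ' (Q S) = S.card * rtr ζ' (Q {i₀}) := by
    intro S
    rw [hQs S, tr_sum hN.sum, Finset.sum_congr rfl fun j _ => heq j i₀, Finset.sum_const,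
      nsmul_eq_mul]
  have h1 : rtr ζ' (Q {i₀}) = 1 / n := by
    have h2 := hsum Finset.univ
    rw [hQ1, Finset.card_univ, Fintype.card_fin] at h2
    have h3 : rtr ζ' (1 : H →L[ℂ] H) = 1 := by unfold rtr; rw [hN.one]; simp
    rw [h3] at h2
    have : (n : ℝ) ≠ 0 := by positivity
    field_simp
    linarith
  refine ⟨Q, hQ, hQn', fun S => ?_⟩
  rw [hsum, h1]; ring

lemma card_lt (n m : ℕ) (h : m ≤ n) :
    (Finset.univ.filter fun i : Fin n => (i : ℕ) < m).card = m := by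
  rw [Fin.card_filter_val_lt]
  exact min_eq_right h

/-- Close projections of close II₁ factors have the same trace. -/
theorem trace_near {M N : VonNeumannAlgebra H} {ζ ζ' : ℕ → H} (hM : IIOne M ζ) (hN : TrV N ζ')
    {δ : ℝ} (hδ : δ ≤ 1 / 1000) (hMN : NearIn M N δ) {p q : H →L[ℂ] H} (hp : p ∈ M)
    (hpp : IsPr p) (hq : q ∈ N) (hqp : IsPr q) (h : ‖q - p‖ ≤ 1 / 20) :
    rtr ζ p = rtr ζ' q := by
  have hone : IsPr (1 : H →L[ℂ] H) := ⟨star_one _, one_mul _⟩
  have h1M : rtr ζ (1 : H →L[ℂ] H) = 1 := by unfold rtr; rw [hM.one]; simp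
  have h1N : rtr ζ' (1 : H →L[ℂ] H) = 1 := by unfold rtr; rw [hN.one]; simp
  have ht0 : 0 ≤ rtr ζ p := tr_pr_nonneg hpp
  have ht1 : rtr ζ p ≤ 1 := by
    rw [← h1M]; exact tr_le_of_le hM.sum hpp hone (one_mul _)
  have hs1 : rtr ζ' q ≤ 1 := by
    rw [← h1N]; exact tr_le_of_le hN.sum hqp hone (one_mul _)
  have key : ∀ k : ℕ, |rtr ζ p - rtr ζ' q| ≤ 1 / 2 ^ k := by
    intro k
    set n := 2 ^ k with hn
    have hn0 : 0 < n := by positivity
    have hnR : (0 : ℝ) < n := by exact_mod_cast hn0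
    obtain ⟨e, he⟩ := hM.mu k
    obtain ⟨Q, hQ, hQn, hQt⟩ := near_mu hN hδ hMN hn0 he
    let S : ℕ → Finset (Fin n) := fun m => Finset.univ.filter fun i : Fin n => (i : ℕ) < m
    let E : ℕ → (H →L[ℂ] H) := fun m => ∑ i ∈ S m, e i i
    have hEp : ∀ m, IsPr (E m) := fun m => mu_isPr he _
    have hEM : ∀ m, E m ∈ M := fun m => sum_mem fun i _ => he.mem i i
    have hEt : ∀ m, m ≤ n → rtr ζ (E m) = m / n := by
      intro m hm
      show rtr ζ (∑ i ∈ S m, e i i) = m / n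
      rw [tr_sum hM.sum, Finset.sum_congr rfl fun i _ => mu_tr hM.toTrV hn0 he i, Finset.sum_const,
        card_lt n m hm, nsmul_eq_mul]
      ring
    set t := rtr ζ p with ht
    set m := ⌊(n : ℝ) * t⌋₊ with hm
    have hmt : (m : ℝ) ≤ n * t := Nat.floor_le (by positivity)
    have hmt' : n * t < m + 1 := Nat.lt_floor_add_one _
    have hmn : m ≤ n := by
      have : (m : ℝ) ≤ n := hmt.trans (by nlinarith)
      exact_mod_cast this
    -- lower bound
    have low : (m : ℝ) / n ≤ rtr ζ' q := by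
      have h1 : rtr ζ (E m) ≤ rtr ζ p := by
        rw [hEt m hmn, div_le_iff₀ hnR]; linarith
      obtain ⟨v, hv, hv1, hv2⟩ := comp_tr hM.toTrV hM.fac (hEM m) hp (hEp m) hpp h1
      have h2 := tr_mono_near hN (by linarith) hMN hv (hEp m) hpp hv1 hv2 (hQ (S m)).1
        (hQ (S m)).2 hq hqp (hQn (S m)) h
      rwa [hQt, card_lt n m hmn] at h2
    -- upper bound
    have up : rtr ζ' q ≤ ((m : ℝ) + 1) / n := by
      by_cases hm1 : m + 1 ≤ n
      · have h1 : rtr ζ p ≤ rtr ζ (E (m + 1)) := by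
          rw [hEt (m + 1) hm1, le_div_iff₀ hnR]; push_cast; linarith
        obtain ⟨v, hv, hv1, hv2⟩ := comp_tr hM.toTrV hM.fac hp (hEM (m + 1)) hpp (hEp _) h1
        have h2 := tr_mono_near hN (by linarith) hMN hv hpp (hEp _) hv1 hv2 hq hqp
          (hQ (S (m + 1))).1 (hQ (S (m + 1))).2 h (hQn (S (m + 1)))
        rw [hQt, card_lt n (m + 1) hm1] at h2
        push_cast at h2
        exact h2
      · have : n ≤ m := by omega
        have h3 : (1 : ℝ) ≤ ((m : ℝ) + 1) / n := by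
          rw [le_div_iff₀ hnR]
          have : (n : ℝ) ≤ m := by exact_mod_cast this
          linarith
        linarith
    have ht2 : (m : ℝ) / n ≤ t := by rw [div_le_iff₀ hnR]; linarith
    have ht3 : t ≤ ((m : ℝ) + 1) / n := by rw [le_div_iff₀ hnR]; linarith
    have e1 : ((m : ℝ) + 1) / n = m / n + 1 / n := by ring
    have e2 : (1 : ℝ) / n = 1 / 2 ^ k := by rw [hn]; push_cast; rfl
    rw [abs_le]
    rw [e1] at up ht3
    rw [← e2]
    constructor <;> linarith
  have h0 : |rtr ζ p - rtr ζ' q| ≤ 0 := by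
    refine ge_of_tendsto' (f := fun k : ℕ => (1 : ℝ) / 2 ^ k) (x := atTop) ?_ key
    have := tendsto_pow_atTop_nhds_zero_of_lt_one (r := (1 / 2 : ℝ)) (by norm_num) (by norm_num)
    refine this.congr fun k => ?_
    rw [one_div, one_div, inv_pow]
  exact sub_eq_zero.1 (abs_nonpos_iff.1 h0)

end Pool.Agent.X191.CC
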