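import Mathlib
import Pool.Agent.X191.CC.Trace

/-!
Maximal abelian subalgebras and cyclic projections.
-/

open ContinuousLinearMap Filter Topology
open scoped InnerProductSpace ComplexOrder

noncomputable section

namespace Pool.Agent.X191.CC

open H759R2.Kad H710R2.DP

variable {H : Type} [NormedAddCommGroup H] [InnerProductSpace ℂ H] [CompleteSpace H]

/-- The commutant of a star closed set as a von Neumann algebra. -/
def vnCent (T : Set (H →L[ℂ] H)) : VonNeumannAlgebra H where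
  toStarSubalgebra := StarSubalgebra.centralizer ℂ T
  centralizer_centralizer' := by
    have : (StarSubalgebra.centralizer ℂ T).carrier = (T ∪ star T).centralizer :=
      StarSubalgebra.coe_centralizer ℂ T
    rw [this]
    exact Set.centralizer_centralizer_centralizer _

lemma mem_vnCent {T : Set (H →L[ℂ] H)} (hT : ∀ x ∈ T, star x ∈ T) {x : H →L[ℂ] H} :
    x ∈ vnCent T ↔ ∀ t ∈ T, t * x = x * t := by
  have h : x ∈ vnCent T ↔ ∀ g ∈ T, g * x = x * g ∧ star g * x = x * star g :=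
    StarSubalgebra.mem_centralizer_iff ℂ
  rw [h]
  exact ⟨fun h t ht => (h t ht).1, fun h t ht => ⟨h t ht, h _ (hT t ht)⟩⟩

/-- Real and imaginary parts. -/
lemma re_im (x : H →L[ℂ] H) :
    ∃ a b : H →L[ℂ] H, star a = a ∧ star b = b ∧ x = a + Complex.I • b ∧
      ∀ y : H →L[ℂ] H, y * x = x * y → y * star x = star x * y → y * a = a * y ∧ y * b = b * y := by
  refine ⟨(1 / 2 : ℂ) • (x + star x), (-(Complex.I / 2) : ℂ) • (x - star x), ?_, ?_, ?_, ?_⟩
  · rw [star_smul, star_add, star_star, add_comm]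
    congr 1
    simp
  · rw [star_smul, star_sub, star_star]
    have : star (-(Complex.I / 2) : ℂ) = Complex.I / 2 := by
      simp
      ring
    rw [this]
    module
  · rw [smul_smul]
    have : Complex.I * (-(Complex.I / 2)) = 1 / 2 := by
      have := Complex.I_mul_I
      linear_combination (-(1:ℂ) / 2) * this
    rw [this]
    module
  · intro y h1 h2
    constructor
    · rw [mul_smul_comm, smul_mul_assoc, mul_add, add_mul, h1, h2]
    · rw [mul_smul_comm, smul_mul_assoc, mul_sub, sub_mul, h1, h2]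

/-- Maximal abelian subalgebras. -/
theorem exists_masa (M : VonNeumannAlgebra H) (S₀ : Set (H →L[ℂ] H)) (h1 : ∀ x ∈ S₀, x ∈ M)
    (h2 : ∀ x ∈ S₀, star x = x) (h3 : ∀ x ∈ S₀, ∀ y ∈ S₀, x * y = y * x) :
    ∃ A : VonNeumannAlgebra H, (∀ x ∈ A, x ∈ M) ∧ (∀ x ∈ A, ∀ y ∈ A, x * y = y * x) ∧
      (∀ x ∈ M, (∀ a ∈ A, x * a = a * x) → x ∈ A) ∧ ∀ x ∈ S₀, x ∈ A := by
  let 𝒮 : Set (Set (H →L[ℂ] H)) := {S | (∀ x ∈ S, x ∈ M) ∧ (∀ x ∈ S, star x = x) ∧
    ∀ x ∈ S, ∀ y ∈ S, x * y = y * x}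
  obtain ⟨S, hS₀S, hS⟩ := zorn_subset_nonempty 𝒮 (by
    intro c hc hchain hne
    refine ⟨⋃₀ c, ⟨?_, ?_, ?_⟩, fun s hs => Set.subset_sUnion_of_mem hs⟩
    · rintro x ⟨s, hs, hx⟩
      exact (hc hs).1 x hx
    · rintro x ⟨s, hs, hx⟩
      exact (hc hs).2.1 x hx
    · rintro x ⟨s, hs, hx⟩ y ⟨t, ht, hy⟩
      rcases hchain.total hs ht with h | h
      · exact (hc ht).2.2 x (h hx) y hy
      · exact (hc hs).2.2 x hx y (h hy)) S₀ ⟨h1, h2, h3⟩
  have hSp : S ∈ 𝒮 := hS.prop
  have hSmax : ∀ T ∈ 𝒮, S ⊆ T → T ⊆ S := fun T hT hST => hS.le_of_ge hT hST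
  -- the algebra
  let T : Set (H →L[ℂ] H) := {x | x ∈ M.commutant} ∪ S
  have hT : ∀ x ∈ T, star x ∈ T := by
    rintro x (hx | hx)
    · exact Or.inl (star_mem (show x ∈ M.commutant from hx))
    · right; rw [hSp.2.1 x hx]; exact hx
  let A := vnCent T
  have hA : ∀ x, x ∈ A ↔ x ∈ M ∧ ∀ s ∈ S, s * x = x * s := by
    intro x
    rw [mem_vnCent hT]
    constructor
    · intro h
      exact ⟨mem_of_commute fun y hy => h y (Or.inl hy), fun s hs => h s (Or.inr hs)⟩
    · rintro ⟨hx, hs⟩ t (ht | ht)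
      · exact commute_of_mem hx ht
      · exact hs t ht
  have hsa : ∀ a ∈ A, star a = a → a ∈ S := by
    intro a ha has
    obtain ⟨haM, haS⟩ := (hA a).1 ha
    have : insert a S ∈ 𝒮 := by
      refine ⟨?_, ?_, ?_⟩
      · rintro x (rfl | hx)
        · exact haM
        · exact hSp.1 x hx
      · rintro x (rfl | hx)
        · exact has
        · exact hSp.2.1 x hx
      · rintro x (rfl | hx) y (rfl | hy)
        · rfl
        · exact (haS y hy).symm
        · exact haS x hx
        · exact hSp.2.2 x hx y hy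
    exact hSmax _ this (Set.subset_insert _ _) (Set.mem_insert _ _)
  have hSA : ∀ s ∈ S, s ∈ A := fun s hs => (hA s).2 ⟨hSp.1 s hs, fun t ht => hSp.2.2 t ht s hs⟩
  refine ⟨A, fun x hx => ((hA x).1 hx).1, ?_, ?_, fun x hx => hSA x (hS₀S hx)⟩
  · intro x hx y hy
    obtain ⟨a, b, ha, hb, hyab, hcom⟩ := re_im y
    have hmem : a ∈ A ∧ b ∈ A := by
      constructor
      · refine mem_of_commute fun z hz => ?_
        exact (hcom z (commute_of_mem hy hz) (commute_of_mem (star_mem hy) hz)).1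
      · refine mem_of_commute fun z hz => ?_
        exact (hcom z (commute_of_mem hy hz) (commute_of_mem (star_mem hy) hz)).2
    have e1 := ((hA x).1 hx).2 a (hsa a hmem.1 ha)
    have e2 := ((hA x).1 hx).2 b (hsa b hmem.2 hb)
    rw [hyab, mul_add, add_mul, mul_smul_comm, smul_mul_assoc, e1, e2]
  · intro x hx h
    exact (hA x).2 ⟨hx, fun s hs => (h s (hSA s hs)).symm⟩

/-- The symmetries of an algebra. -/
def SymG (A : VonNeumannAlgebra H) : Type :=
  {g : H →L[ℂ] H // g ∈ A ∧ star g = g ∧ g * g = 1}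

/-- They form a group if the algebra is abelian. -/
@[reducible] def symGroup (A : VonNeumannAlgebra H) (hA : ∀ x ∈ A, ∀ y ∈ A, x * y = y * x) :
    CommGroup (SymG A) where
  mul g h := ⟨g.1 * h.1, mul_mem g.2.1 h.2.1, by
    rw [star_mul, g.2.2.1, h.2.2.1, hA _ h.2.1 _ g.2.1], by
    calc g.1 * h.1 * (g.1 * h.1) = g.1 * (h.1 * g.1) * h.1 := by noncomm_ring
      _ = (g.1 * g.1) * (h.1 * h.1) := by rw [hA _ h.2.1 _ g.2.1]; noncomm_ring
      _ = 1 := by rw [g.2.2.2, h.2.2.2, one_mul]⟩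
  one := ⟨1, one_mem _, star_one _, one_mul _⟩
  inv g := g
  mul_assoc a b c := Subtype.ext (mul_assoc _ _ _)
  one_mul a := Subtype.ext (one_mul _)
  mul_one a := Subtype.ext (mul_one _)
  inv_mul_cancel a := Subtype.ext a.2.2.2
  mul_comm a b := Subtype.ext (hA _ a.2.1 _ b.2.1)

/-- Elements of abelian algebras are limits of combinations of projections. -/
lemma span_pr (A : VonNeumannAlgebra H) (hA : ∀ x ∈ A, ∀ y ∈ A, x * y = y * x)
    {x : H →L[ℂ] H} (hx : x ∈ A) (ε : ℝ) (hε : 0 < ε) :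
    ∃ (n : ℕ) (c : Fin n → ℂ) (p : Fin n → (H →L[ℂ] H)), (∀ k, p k ∈ A ∧ IsPr (p k)) ∧
      ‖x - ∑ k, c k • p k‖ ≤ ε := by
  obtain ⟨n, c, p, hp, h⟩ := dp_span fin_bin H A x ⟨hx, fun a ha => hA x hx a ha⟩ ε hε
  exact ⟨n, c, p, fun k => ⟨(hp k).2.1, (hp k).1⟩, h⟩

/-! ### Cyclic projections -/

/-- The closed submodule generated by a vector. -/
def cycSub (M : VonNeumannAlgebra H) (ξ : H) : Submodule ℂ H :=
  (Submodule.span ℂ {v | ∃ x ∈ M, v = x ξ}).topologicalClosure

instance (M : VonNeumannAlgebra H) (ξ : H) : CompleteSpace (cycSub M ξ) :=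
  (Submodule.isClosed_topologicalClosure _).completeSpace_coe

/-- Its projection. -/
def cyc (M : VonNeumannAlgebra H) (ξ : H) : H →L[ℂ] H := (cycSub M ξ).starProjection

lemma cyc_isPr (M : VonNeumannAlgebra H) (ξ : H) : IsPr (cyc M ξ) := by
  have h := isStarProjection_starProjection (U := cycSub M ξ)
  exact ⟨h.isSelfAdjoint, h.isIdempotentElem⟩

lemma mem_cycSub (M : VonNeumannAlgebra H) (ξ : H) {x : H →L[ℂ] H} (hx : x ∈ M) :
    x ξ ∈ cycSub M ξ :=
  Submodule.le_topologicalClosure _ (Submodule.subset_span ⟨x, hx, rfl⟩)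

lemma cyc_of_mem (M : VonNeumannAlgebra H) (ξ : H) {v : H} (hv : v ∈ cycSub M ξ) :
    cyc M ξ v = v := Submodule.starProjection_eq_self_iff.2 hv

lemma cyc_apply (M : VonNeumannAlgebra H) (ξ : H) {x : H →L[ℂ] H} (hx : x ∈ M) :
    cyc M ξ (x ξ) = x ξ := cyc_of_mem M ξ (mem_cycSub M ξ hx)

lemma cyc_range (M : VonNeumannAlgebra H) (ξ v : H) : cyc M ξ v ∈ cycSub M ξ :=
  Submodule.starProjection_apply_mem _ _

lemma cyc_orth (M : VonNeumannAlgebra H) (ξ η : H) (h : ∀ x ∈ M, ⟪x ξ, η⟫_ℂ = 0) :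
    cyc M ξ η = 0 := by
  refine (Submodule.starProjection_apply_eq_zero_iff _).2 ?_
  unfold cycSub
  rw [Submodule.orthogonal_closure, Submodule.mem_orthogonal]
  intro u hu
  induction hu using Submodule.span_induction with
  | mem x hx => obtain ⟨y, hy, rfl⟩ := hx; exact h y hy
  | zero => exact inner_zero_left _
  | add x y _ _ hx hy => rw [inner_add_left, hx, hy, add_zero]
  | smul c x _ hx => rw [inner_smul_left, hx, mul_zero]

lemma cycSub_map (M : VonNeumannAlgebra H) (η : H) (T : H →L[ℂ] H)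
    (h : ∀ x ∈ M, T (x η) ∈ cycSub M η) : ∀ v ∈ cycSub M η, T v ∈ cycSub M η := by
  have h1 : cycSub M η ≤ (cycSub M η).comap (T : H →ₗ[ℂ] H) := by
    refine Submodule.topologicalClosure_minimal _ ?_ ?_
    · rw [Submodule.span_le]
      rintro v ⟨x, hx, rfl⟩
      exact h x hx
    · exact (Submodule.isClosed_topologicalClosure _).preimage T.continuous
  intro v hv
  exact h1 hv

lemma cycSub_stable (M : VonNeumannAlgebra H) (η : H) {x : H →L[ℂ] H} (hx : x ∈ M) :
    ∀ v ∈ cycSub M η, x v ∈ cycSub M η :=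
  cycSub_map M η x fun _ hy => mem_cycSub M η (mul_mem hx hy)

lemma mul_cyc_of_map (M : VonNeumannAlgebra H) (η : H) {T : H →L[ℂ] H}
    (h : ∀ v ∈ cycSub M η, T v ∈ cycSub M η) : cyc M η * T * cyc M η = T * cyc M η := by
  refine ContinuousLinearMap.ext fun v => ?_
  show cyc M η (T (cyc M η v)) = T (cyc M η v)
  exact cyc_of_mem M η (h _ (cyc_range M η v))

/-- operators of the commutant which map the generating vector into the submodule -/
lemma cyc_inv (M : VonNeumannAlgebra H) (η : H) {T : H →L[ℂ] H} (hT : T ∈ M.commutant)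
    (h : T η ∈ cycSub M η) : cyc M η * T * cyc M η = T * cyc M η := by
  refine mul_cyc_of_map M η (cycSub_map M η T fun x hx => ?_)
  have : T (x η) = x (T η) := by
    have := congrArg (fun z : H →L[ℂ] H => z η) (commute_of_mem hx hT)
    exact this
  rw [this]
  exact cycSub_stable M η hx _ h

lemma cyc_mem (M : VonNeumannAlgebra H) (ξ : H) : cyc M ξ ∈ M.commutant := by
  rw [VonNeumannAlgebra.mem_commutant_iff]
  intro x hx
  have e1 := mul_cyc_of_map M ξ (cycSub_stable M ξ hx)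
  have e2 := mul_cyc_of_map M ξ (cycSub_stable M ξ (star_mem hx))
  have e3 := congrArg star e2
  rw [star_mul, star_mul, star_mul, star_star, (cyc_isPr M ξ).1] at e3
  exact e1.symm.trans ((mul_assoc _ _ _).trans e3)

/-- Self-adjoint operators of the commutant which map the generating vector into the submodule
commute with the cyclic projection. -/
lemma cyc_commute (M : VonNeumannAlgebra H) (η : H) {T : H →L[ℂ] H} (hT : T ∈ M.commutant)
    (hTs : star T = T) (h : T η ∈ cycSub M η) : cyc M η * T = T * cyc M η := by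
  have e1 := cyc_inv M η hT h
  have e2 := congrArg star e1
  rw [star_mul, star_mul, star_mul, hTs, (cyc_isPr M η).1, ← mul_assoc, e1] at e2
  exact e2.symm

end Pool.Agent.X191.CC
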