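import Mathlib
import Pool.Agent.X191.CC.Masa

/-!
Frames: orthogonal families of vectors on which the algebra acts as on `L²(M) p`.
-/

open ContinuousLinearMap Filter Topology
open scoped InnerProductSpace ComplexOrder

noncomputable section

namespace Pool.Agent.X191.CC

open H759R2.Kad H710R2.DP

variable {H : Type} [NormedAddCommGroup H] [InnerProductSpace ℂ H] [CompleteSpace H]

/-- The vectors `ξ i` generate mutually orthogonal submodules isomorphic to `L²(M) p_i`. -/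
structure Frame (M : VonNeumannAlgebra H) (ζ : ℕ → H) {ι : Type} [DecidableEq ι] (ξ : ι → H)
    (p : ι → (H →L[ℂ] H)) : Prop where
  mem : ∀ i, p i ∈ M
  pr : ∀ i, IsPr (p i)
  inner : ∀ i j, ∀ x ∈ M, ⟪ξ i, x (ξ j)⟫_ℂ = if i = j then tv ζ (x * p i) else 0

lemma inner_star (x : H →L[ℂ] H) (ξ η : H) : ⟪x ξ, η⟫_ℂ = ⟪ξ, (star x) η⟫_ℂ := by
  rw [ContinuousLinearMap.star_eq_adjoint, adjoint_inner_right]

lemma inner_star' (x : H →L[ℂ] H) (ξ η : H) : ⟪ξ, x η⟫_ℂ = ⟪(star x) ξ, η⟫_ℂ := by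
  rw [ContinuousLinearMap.star_eq_adjoint, adjoint_inner_left]

lemma Frame.apply_eq {M : VonNeumannAlgebra H} {ζ : ℕ → H} {ι : Type} [DecidableEq ι]
    {ξ : ι → H} {p : ι → (H →L[ℂ] H)} (hf : Frame M ζ ξ p) (i : ι) : p i (ξ i) = ξ i := by
  have hq : IsPr (1 - p i) := by
    refine ⟨by rw [star_sub, star_one, (hf.pr i).1], ?_⟩
    rw [sub_mul, one_mul, mul_sub, mul_one, (hf.pr i).2]; abel
  have h1 : ⟪(1 - p i) (ξ i), (1 - p i) (ξ i)⟫_ℂ = 0 := by
    rw [inner_star, hq.1]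
    have : (1 - p i) ((1 - p i) (ξ i)) = (1 - p i) (ξ i) := by
      have := congrArg (fun z : H →L[ℂ] H => z (ξ i)) hq.2
      exact this
    rw [this, hf.inner i i _ (sub_mem (one_mem _) (hf.mem i)), if_pos rfl, sub_mul, one_mul,
      (hf.pr i).2, sub_self, tv_zero]
  have h2 := inner_self_eq_zero.1 h1
  have h3 : (1 - p i) (ξ i) = ξ i - p i (ξ i) := rfl
  rw [h3] at h2
  exact (sub_eq_zero.1 h2).symm

/-- From a frame of total trace larger than `s` to frames with matrix unit projections. -/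
theorem Frame.refine' {M : VonNeumannAlgebra H} {ζ : ℕ → H} (hM : IIOne M ζ) {n : ℕ}
    {ξ : Fin n → H} {p : Fin n → (H →L[ℂ] H)} (hf : Frame M ζ ξ p) {s : ℝ}
    (hs : s < ∑ i, rtr ζ (p i)) :
    ∃ (n' : ℕ) (ξ' : Fin n' → H) (e : H →L[ℂ] H), Frame M ζ ξ' (fun _ => e) ∧
      s < n' * rtr ζ e := by
  classical
  obtain ⟨k, hk⟩ : ∃ k : ℕ, (n : ℝ) / 2 ^ k < ∑ i, rtr ζ (p i) - s := by
    have h1 : Tendsto (fun k : ℕ => (n : ℝ) / 2 ^ k) atTop (𝓝 0) := by
      have := (tendsto_pow_atTop_nhds_zero_of_lt_one (r := (1 / 2 : ℝ)) (by norm_num)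
        (by norm_num)).const_mul (n : ℝ)
      rw [mul_zero] at this
      refine this.congr fun k => ?_
      rw [one_div, inv_pow, div_eq_mul_inv]
    exact (h1.eventually (gt_mem_nhds (sub_pos.2 hs))).exists
  set N := 2 ^ k with hN
  have hN0 : 0 < N := by positivity
  have hNR : (0 : ℝ) < N := by exact_mod_cast hN0
  obtain ⟨e, he⟩ := hM.mu k
  let S : ℕ → Finset (Fin N) := fun m => Finset.univ.filter fun i : Fin N => (i : ℕ) < m
  let E : ℕ → (H →L[ℂ] H) := fun m => ∑ i ∈ S m, e i i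
  have hEp : ∀ m, IsPr (E m) := fun m => mu_isPr he _
  have hEM : ∀ m, E m ∈ M := fun m => sum_mem fun i _ => he.mem i i
  have hEt : ∀ m, m ≤ N → rtr ζ (E m) = m / N := by
    intro m hm
    show rtr ζ (∑ i ∈ S m, e i i) = m / N
    rw [tr_sum hM.sum, Finset.sum_congr rfl fun i _ => mu_tr hM.toTrV hN0 he i, Finset.sum_const,
      card_lt N m hm, nsmul_eq_mul]
    ring
  have hone : IsPr (1 : H →L[ℂ] H) := ⟨star_one _, one_mul _⟩
  have h1M : rtr ζ (1 : H →L[ℂ] H) = 1 := by unfold rtr; rw [hM.one]; simp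
  let m : Fin n → ℕ := fun i => ⌊(N : ℝ) * rtr ζ (p i)⌋₊
  have ht0 : ∀ i, 0 ≤ rtr ζ (p i) := fun i => tr_pr_nonneg (hf.pr i)
  have ht1 : ∀ i, rtr ζ (p i) ≤ 1 := fun i => by
    rw [← h1M]; exact tr_le_of_le hM.sum (hf.pr i) hone (one_mul _)
  have hm1 : ∀ i, (m i : ℝ) ≤ N * rtr ζ (p i) := fun i =>
    Nat.floor_le (mul_nonneg hNR.le (ht0 i))
  have hm2 : ∀ i, N * rtr ζ (p i) < m i + 1 := fun i => Nat.lt_floor_add_one _
  have hmN : ∀ i, m i ≤ N := fun i => by
    have : (m i : ℝ) ≤ N := (hm1 i).trans (by have := ht1 i; nlinarith)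
    exact_mod_cast this
  have hv : ∀ i, ∃ v ∈ M, star v * v = E (m i) ∧ p i * v = v := by
    intro i
    refine comp_tr hM.toTrV hM.fac (hEM _) (hf.mem i) (hEp _) (hf.pr i) ?_
    rw [hEt _ (hmN i), div_le_iff₀ hNR]
    have := hm1 i
    linarith
  choose v hvM hv1 hv2 using hv
  have i₀ : Fin N := ⟨0, hN0⟩
  -- the partial isometries
  let idx : (Σ i : Fin n, Fin (m i)) → Fin N := fun a => ⟨a.2, a.2.2.trans_le (hmN a.1)⟩
  let u : (Σ i : Fin n, Fin (m i)) → (H →L[ℂ] H) := fun a => e i₀ (idx a) * star (v a.1)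
  have huM : ∀ a, u a ∈ M := fun a => mul_mem (he.mem _ _) (star_mem (hvM _))
  have hup : ∀ a, u a * p a.1 = u a := by
    intro a
    have := congrArg star (hv2 a.1)
    rw [star_mul, (hf.pr a.1).1] at this
    show e i₀ (idx a) * star (v a.1) * p a.1 = _
    rw [mul_assoc, this]
  have hEe : ∀ (a : Σ i : Fin n, Fin (m i)) , e i₀ (idx a) * E (m a.1) = e i₀ (idx a) := by
    intro a
    show e i₀ (idx a) * ∑ i ∈ S (m a.1), e i i = _
    rw [Finset.mul_sum, Finset.sum_eq_single (idx a)]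
    · rw [he.mul, if_pos rfl]
    · intro j _ hj
      rw [he.mul, if_neg (Ne.symm hj)]
    · intro h
      exfalso
      apply h
      simp only [S, Finset.mem_filter, Finset.mem_univ, true_and]
      exact a.2.2
  have huu : ∀ a b : (Σ i : Fin n, Fin (m i)), a.1 = b.1 →
      u a * star (u b) = if a = b then e i₀ i₀ else 0 := by
    rintro ⟨i, l⟩ ⟨j, l'⟩ hij
    simp only at hij
    subst hij
    have e1 : u ⟨i, l⟩ * star (u ⟨i, l'⟩) =
        e i₀ (idx ⟨i, l⟩) * (star (v i) * v i) * e (idx ⟨i, l'⟩) i₀ := by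
      show e i₀ (idx ⟨i, l⟩) * star (v i) * star (e i₀ (idx ⟨i, l'⟩) * star (v i)) = _
      rw [star_mul, star_star, he.adj]
      noncomm_ring
    rw [e1, hv1, hEe ⟨i, l⟩, he.mul]
    by_cases h : l = l'
    · subst h; rw [if_pos rfl, if_pos rfl]
    · have n1 : idx ⟨i, l⟩ ≠ idx ⟨i, l'⟩ := by
        intro h'
        have h2 := congrArg Fin.val h'
        have h3 : (l : ℕ) = (l' : ℕ) := h2
        exact h (Fin.ext h3)
      have n2 : (⟨i, l⟩ : Σ i : Fin n, Fin (m i)) ≠ ⟨i, l'⟩ := by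
        intro h'
        simp only [Sigma.mk.injEq, heq_eq_eq, true_and] at h'
        exact h h'
      rw [if_neg n1, if_neg n2]
  have hframe : Frame M ζ (fun a => u a (ξ a.1)) (fun _ : (Σ i : Fin n, Fin (m i)) => e i₀ i₀) := by
    refine ⟨fun _ => he.mem _ _, fun _ => ?_, ?_⟩
    · have := mu_isPr he {i₀}
      rwa [Finset.sum_singleton] at this
    · intro a b x hx
      have e1 : ⟪u a (ξ a.1), x (u b (ξ b.1))⟫_ℂ = ⟪ξ a.1, (star (u a) * x * u b) (ξ b.1)⟫_ℂ := by
        rw [inner_star]; rfl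
      rw [e1, hf.inner _ _ _ (mul_mem (mul_mem (star_mem (huM a)) hx) (huM b))]
      by_cases hab : a.1 = b.1
      · rw [if_pos hab]
        have e2 : star (u a) * x * u b * p a.1 = star (u a) * (x * u b) := by
          rw [hab, mul_assoc, hup b, mul_assoc]
        rw [e2, hM.tr _ (star_mem (huM a)) _ (mul_mem hx (huM b)), mul_assoc,
          huu b a hab.symm]
        by_cases h : a = b
        · rw [if_pos h, if_pos h.symm]
        · rw [if_neg h, if_neg (Ne.symm h), mul_zero, tv_zero]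
      · rw [if_neg hab, if_neg (fun h => hab (congrArg Sigma.fst h))]
  -- transport to `Fin`
  let n' := Fintype.card (Σ i : Fin n, Fin (m i))
  let eq := Fintype.equivFin (Σ i : Fin n, Fin (m i))
  refine ⟨n', fun j => u (eq.symm j) (ξ (eq.symm j).1), e i₀ i₀,
    ⟨fun _ => he.mem _ _, fun _ => ?_, fun a b x hx => ?_⟩, ?_⟩
  · have := mu_isPr he {i₀}
    rwa [Finset.sum_singleton] at this
  · rw [hframe.inner (eq.symm a) (eq.symm b) x hx]
    by_cases h : a = b
    · subst h; rw [if_pos rfl, if_pos rfl]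
    · rw [if_neg h, if_neg (fun h' => h (eq.symm.injective h'))]
  · rw [mu_tr hM.toTrV hN0 he]
    have h1 : (n' : ℝ) = ∑ i, (m i : ℝ) := by
      show ((Fintype.card (Σ i : Fin n, Fin (m i)) : ℕ) : ℝ) = _
      rw [Fintype.card_sigma]
      push_cast
      simp
    have h2 : N * ∑ i, rtr ζ (p i) - n ≤ ∑ i, (m i : ℝ) := by
      have : ∑ i : Fin n, ((N : ℝ) * rtr ζ (p i) - 1) ≤ ∑ i, (m i : ℝ) :=
        Finset.sum_le_sum fun i _ => by have := hm2 i; linarith
      rw [Finset.sum_sub_distrib, ← Finset.mul_sum] at this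
      simpa using this
    have h3 : (n : ℝ) / N < ∑ i, rtr ζ (p i) - s := by
      have : ((2 : ℝ) ^ k) = N := by rw [hN]; push_cast; rfl
      rwa [← this]
    rw [h1, mul_one_div, lt_div_iff₀ hNR]
    rw [div_lt_iff₀ hNR] at h3
    nlinarith

end Pool.Agent.X191.CC
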