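import Mathlib
import Pool.Agent.X191.CC.Frame

/-!
Transfer of frames between close II₁ factors.
-/

open ContinuousLinearMap Filter Topology
open scoped InnerProductSpace ComplexOrder

noncomputable section

namespace Pool.Agent.X191.CC

open H759R2.Kad H710R2.DP

variable {H : Type} [NormedAddCommGroup H] [InnerProductSpace ℂ H] [CompleteSpace H]

lemma cyc_frame {M : VonNeumannAlgebra H} {ζ : ℕ → H} (hM : TrV M ζ) {ι : Type} [DecidableEq ι]
    {ξ : ι → H} {e : H →L[ℂ] H} (hf : Frame M ζ ξ (fun _ => e)) {r : H →L[ℂ] H} (hr : r ∈ M)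
    (hrp : IsPr r) (hre : r * e = e * r) (i j : ι) :
    cyc M (r (ξ j)) (ξ i) = if i = j then r (ξ j) else 0 := by
  have heM : e ∈ M := hf.mem i
  by_cases h : i = j
  · subst h
    rw [if_pos rfl]
    have e1 : ξ i = r (ξ i) + (1 - r) (ξ i) := by
      show ξ i = r (ξ i) + (ξ i - r (ξ i))
      abel
    have e2 : cyc M (r (ξ i)) ((1 - r) (ξ i)) = 0 := by
      refine cyc_orth _ _ _ fun x hx => ?_
      have e3 : ⟪x (r (ξ i)), (1 - r) (ξ i)⟫_ℂ = ⟪ξ i, (r * star x * (1 - r)) (ξ i)⟫_ℂ := by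
        rw [inner_star, inner_star, hrp.1]; rfl
      have hxm : star x ∈ M := star_mem hx
      have h1r : 1 - r ∈ M := sub_mem (one_mem _) hr
      rw [e3, hf.inner i i _ (mul_mem (mul_mem hr hxm) h1r), if_pos rfl]
      have e4 : r * star x * (1 - r) * e = r * (star x * ((1 - r) * e)) := by noncomm_ring
      rw [e4, hM.tr _ hr _ (mul_mem hxm (mul_mem h1r heM))]
      have e5 : star x * ((1 - r) * e) * r = 0 := by
        have : (1 - r) * e * r = 0 := by
          rw [mul_assoc, ← hre, ← mul_assoc, sub_mul, one_mul, hrp.2, sub_self, zero_mul]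
        rw [mul_assoc, this, mul_zero]
      rw [e5, tv_zero]
    have e6 : cyc M (r (ξ i)) (r (ξ i)) = r (ξ i) := by
      have := cyc_apply M (r (ξ i)) (one_mem M)
      exact this
    calc cyc M (r (ξ i)) (ξ i) = cyc M (r (ξ i)) (r (ξ i) + (1 - r) (ξ i)) := by rw [← e1]
      _ = r (ξ i) := by rw [map_add, e6, e2, add_zero]
  · rw [if_neg h]
    refine cyc_orth _ _ _ fun x hx => ?_
    have e3 : ⟪x (r (ξ j)), ξ i⟫_ℂ = ⟪ξ j, (r * star x) (ξ i)⟫_ℂ := by
      rw [inner_star, inner_star, hrp.1]; rfl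
    rw [e3, hf.inner j i _ (mul_mem hr (star_mem hx)), if_neg (Ne.symm h)]

/-- The cyclic projections of a frame commute. -/
lemma cyc_frame_comm {M : VonNeumannAlgebra H} {ζ : ℕ → H} (hM : TrV M ζ) {ι : Type}
    [DecidableEq ι] {ξ : ι → H} {e : H →L[ℂ] H} (hf : Frame M ζ ξ (fun _ => e))
    {p r : H →L[ℂ] H} (hp : p ∈ M) (hr : r ∈ M)
    (hrp : IsPr r) (hre : r * e = e * r) (hpr : p * r = r * p) (i j : ι) :
    cyc M (p (ξ i)) * cyc M (r (ξ j)) = cyc M (r (ξ j)) * cyc M (p (ξ i)) := by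
  refine cyc_commute M _ (cyc_mem M _) (cyc_isPr M _).1 ?_
  have e1 : cyc M (r (ξ j)) (p (ξ i)) = p (cyc M (r (ξ j)) (ξ i)) := by
    have := congrArg (fun z : H →L[ℂ] H => z (ξ i)) (commute_of_mem hp (cyc_mem M (r (ξ j))))
    exact this
  rw [e1, cyc_frame hM hf hr hrp hre]
  by_cases h : i = j
  · subst h
    rw [if_pos rfl]
    have e2 : p (r (ξ i)) = r (p (ξ i)) := by
      have := congrArg (fun z : H →L[ℂ] H => z (ξ i)) hpr
      exact this
    rw [e2]
    exact mem_cycSub M _ hr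
  · rw [if_neg h, map_zero]
    exact zero_mem _

/-- The intertwining unitary of two commuting pairs of abelian algebras. -/
theorem exists_w {M N A A' : VonNeumannAlgebra H} {δ : ℝ} (hδ : δ ≤ 1 / 16000)
    (h1 : ∀ x ∈ M, ‖x‖ ≤ 1 → ∃ y ∈ N, ‖y - x‖ ≤ δ)
    (h2 : ∀ x ∈ M.commutant, ‖x‖ ≤ 1 → ∃ y ∈ N.commutant, ‖y - x‖ ≤ δ)
    (hA : ∀ x ∈ A, ∀ y ∈ A, x * y = y * x) (hAM : ∀ x ∈ A, x ∈ M)
    (hA' : ∀ x ∈ A', ∀ y ∈ A', x * y = y * x) (hAM' : ∀ x ∈ A', x ∈ M.commutant) :
    ∃ (w : H →L[ℂ] H) (f : SymG A → (H →L[ℂ] H)) (f' : SymG A' → (H →L[ℂ] H)),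
      star w * w = 1 ∧ w * star w = 1 ∧ ‖w - 1‖ ≤ 1 / 40 ∧
      (∀ g, f g ∈ N ∧ star (f g) = f g ∧ f g * f g = 1 ∧ w * g.1 = f g * w) ∧
      (∀ g, f' g ∈ N.commutant ∧ star (f' g) = f' g ∧ f' g * f' g = 1 ∧ w * g.1 = f' g * w) := by
  letI := symGroup A hA
  letI := symGroup A' hA'
  have hsq : ∀ g : SymG A, g * g = 1 := fun g => Subtype.ext g.2.2.2
  have hsq' : ∀ g : SymG A', g * g = 1 := fun g => Subtype.ext g.2.2.2
  obtain ⟨f, hfm, hfs, hfq, hfN, hfn⟩ := near_hom hsq (fun g : SymG A => g.1) (fun g h => rfl) rfl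
    (fun g => g.2.2.1) N (γ := δ) (by linarith)
    (fun g => h1 g.1 (hAM _ g.2.1) (norm_sym_le g.2.2.1 g.2.2.2))
  obtain ⟨f', hfm', hfs', hfq', hfN', hfn'⟩ := near_hom hsq' (fun g : SymG A' => g.1)
    (fun g h => rfl) rfl
    (fun g => g.2.2.1) N.commutant (γ := δ) (by linarith)
    (fun g => h2 g.1 (hAM' _ g.2.1) (norm_sym_le g.2.2.1 g.2.2.2))
  have hδ0 : 0 ≤ δ := by
    obtain ⟨x, _, hx⟩ := h1 0 (zero_mem _) (by simp)
    exact (norm_nonneg _).trans hx
  have hf1 : f 1 = 1 := by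
    have := hfm 1 1
    rw [mul_one] at this
    rw [this, hfq]
  have hf1' : f' 1 = 1 := by
    have := hfm' 1 1
    rw [mul_one] at this
    rw [this, hfq']
  -- the products
  have hc : ∀ (g : SymG A) (g' : SymG A'), g'.1 * g.1 = g.1 * g'.1 := fun g g' =>
    commute_of_mem (hAM _ g.2.1) (hAM' _ g'.2.1)
  have hcf : ∀ (g : SymG A) (g' : SymG A'), f' g' * f g = f g * f' g' := fun g g' =>
    commute_of_mem (hfN g) (hfN' g')
  let π : SymG A × SymG A' → (H →L[ℂ] H) := fun x => x.1.1 * x.2.1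
  let F : SymG A × SymG A' → (H →L[ℂ] H) := fun x => f x.1 * f' x.2
  have hGG : ∀ x : SymG A × SymG A', x * x = 1 := fun x => Prod.ext (hsq _) (hsq' _)
  have hπm : ∀ x y, π (x * y) = π x * π y := by
    rintro ⟨a, a'⟩ ⟨b, b'⟩
    show (a.1 * b.1) * (a'.1 * b'.1) = (a.1 * a'.1) * (b.1 * b'.1)
    calc (a.1 * b.1) * (a'.1 * b'.1) = a.1 * (b.1 * a'.1) * b'.1 := by noncomm_ring
      _ = (a.1 * a'.1) * (b.1 * b'.1) := by rw [← hc]; noncomm_ring
  have hFm : ∀ x y, F (x * y) = F x * F y := by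
    rintro ⟨a, a'⟩ ⟨b, b'⟩
    show f (a * b) * f' (a' * b') = (f a * f' a') * (f b * f' b')
    rw [hfm, hfm']
    calc (f a * f b) * (f' a' * f' b') = f a * (f b * f' a') * f' b' := by noncomm_ring
      _ = (f a * f' a') * (f b * f' b') := by rw [← hcf]; noncomm_ring
  have hπs : ∀ x, star (π x) = π x := by
    rintro ⟨a, a'⟩
    show star (a.1 * a'.1) = a.1 * a'.1
    rw [star_mul, a.2.2.1, a'.2.2.1, hc]
  have hFs : ∀ x, star (F x) = F x := by
    rintro ⟨a, a'⟩
    show star (f a * f' a') = f a * f' a'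
    rw [star_mul, hfs, hfs', hcf]
  have hπ1 : π 1 = 1 := by
    show (1 : SymG A).1 * (1 : SymG A').1 = 1
    exact one_mul _
  have hF1 : F 1 = 1 := by
    show f 1 * f' 1 = 1
    rw [hf1, hf1', one_mul]
  have hπq : ∀ x, π x * π x = 1 := fun x => by rw [← hπm, hGG, hπ1]
  have hFq : ∀ x, F x * F x = 1 := fun x => by rw [← hFm, hGG, hF1]
  have hn : ∀ x, ‖F x - π x‖ ≤ 1 / 200 := by
    rintro ⟨a, a'⟩
    have := norm_mul_sub_mul_le (hfn a) (hfn' a') (norm_sym_le (hfs' a') (hfq' a'))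
      (norm_sym_le a.2.2.1 a.2.2.2) (by positivity) zero_le_one
    refine this.trans ?_
    linarith
  obtain ⟨w, hw1, hw2, hw3, hw4⟩ := intertwine hGG π F hπm hπs hπq hFm hFs hFq
    (by norm_num) hn
  refine ⟨w, f, f', hw1, hw2, by linarith, fun g => ⟨hfN g, hfs g, hfq g, ?_⟩,
    fun g => ⟨hfN' g, hfs' g, hfq' g, ?_⟩⟩
  · have := hw4 (g, 1)
    have e1 : π (g, 1) = g.1 := mul_one _
    have e2 : F (g, 1) = f g := by
      show f g * f' 1 = f g
      rw [hf1', mul_one]
    rwa [e1, e2] at this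
  · have := hw4 (1, g)
    have e1 : π (1, g) = g.1 := one_mul _
    have e2 : F (1, g) = f' g := by
      show f 1 * f' g = f' g
      rw [hf1, one_mul]
    rwa [e1, e2] at this

lemma norm_tv_le {M : VonNeumannAlgebra H} {ζ : ℕ → H} (hM : TrV M ζ) (x : H →L[ℂ] H) :
    ‖tv ζ x‖ ≤ ‖x‖ := by
  have hs : ∑' n, ‖ζ n‖ ^ 2 = 1 := by
    have h1 := hM.one
    have h2 : tv ζ 1 = ((∑' n, ‖ζ n‖ ^ 2 : ℝ) : ℂ) := by
      have := tv_star_mul_self (ζ := ζ) (1 : H →L[ℂ] H)
      rw [star_one, one_mul] at this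
      exact this
    rw [h2] at h1
    exact_mod_cast h1
  unfold tv
  have h3 : Summable fun n => ‖x‖ * ‖ζ n‖ ^ 2 := hM.sum.mul_left _
  have h4 : ∀ n, ‖⟪ζ n, x (ζ n)⟫_ℂ‖ ≤ ‖x‖ * ‖ζ n‖ ^ 2 := fun n => by
    calc ‖⟪ζ n, x (ζ n)⟫_ℂ‖ ≤ ‖ζ n‖ * ‖x (ζ n)‖ := norm_inner_le_norm _ _
      _ ≤ ‖ζ n‖ * (‖x‖ * ‖ζ n‖) := by gcongr; exact le_opNorm _ _
      _ = _ := by ring
  refine (tsum_of_norm_bounded h3.hasSum h4).trans ?_
  rw [tsum_mul_left, hs, mul_one]

lemma conj_near {w x : H →L[ℂ] H} {β : ℝ} (hw : ‖w‖ ≤ 1) (h : ‖w - 1‖ ≤ β) :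
    ‖w * x * star w - x‖ ≤ 2 * β * ‖x‖ := by
  have hβ : 0 ≤ β := (norm_nonneg _).trans h
  have e : w * x * star w - x = (w - 1) * x * star w + x * star (w - 1) := by
    rw [star_sub, star_one]; noncomm_ring
  rw [e]
  have h1 : ‖(w - 1) * x * star w‖ ≤ β * ‖x‖ * 1 := by
    refine (norm_mul_le _ _).trans (mul_le_mul ?_ (by rw [norm_star]; exact hw) (norm_nonneg _)
      (by positivity))
    exact (norm_mul_le _ _).trans (mul_le_mul_of_nonneg_right h (norm_nonneg _))
  have h2 : ‖x * star (w - 1)‖ ≤ ‖x‖ * β := by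
    refine (norm_mul_le _ _).trans (mul_le_mul_of_nonneg_left ?_ (norm_nonneg _))
    rw [norm_star]; exact h
  refine (norm_add_le _ _).trans ?_
  linarith

omit [CompleteSpace H] in
lemma IsMean.inner_eq {G : Type} [CommGroup G] {f : G → (H →L[ℂ] H)} {S : H →L[ℂ] H}
    (hS : IsMean f S) (ξ η : H) (c : ℂ) (hc : ∀ g, ⟪η, f g ξ⟫_ℂ = c) : ⟪η, S ξ⟫_ℂ = c := by
  refine tendsto_nhds_unique (hS ξ η) ?_
  refine tendsto_const_nhds.congr fun F => ?_
  unfold avg
  rw [smul_apply, inner_smul_right, sum_apply, inner_sum]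
  simp only [hc, Finset.sum_const, Finset.card_powerset, nsmul_eq_mul]
  push_cast
  rw [← mul_assoc, inv_mul_cancel₀ (by positivity), one_mul]

/-- Transfer of frames between close II₁ factors. -/
theorem frame_transfer {M N : VonNeumannAlgebra H} {ζ ζ' : ℕ → H} (hM : IIOne M ζ)
    (hN : TrV N ζ') {δ : ℝ} (hδ : δ ≤ 1 / 16000)
    (hMN : NearIn M N δ) (hNM : NearIn N M δ)
    (h2 : ∀ x ∈ M.commutant, ‖x‖ ≤ 1 → ∃ y ∈ N.commutant, ‖y - x‖ ≤ δ)
    {ι : Type} [DecidableEq ι] [Nonempty ι]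
    {ξ : ι → H} {e : H →L[ℂ] H} (hf : Frame M ζ ξ (fun _ => e)) :
    ∃ (ξ' : ι → H) (e' : H →L[ℂ] H), Frame N ζ' ξ' (fun _ => e') ∧ rtr ζ' e' = rtr ζ e := by
  classical
  obtain ⟨i₀⟩ := (inferInstance : Nonempty ι)
  have heM : e ∈ M := hf.mem i₀
  have hep : IsPr e := hf.pr i₀
  have hδ0 : 0 ≤ δ := by
    obtain ⟨y, _, _, hy⟩ := hMN 0 (zero_mem _) (by simp)
    exact (norm_nonneg _).trans hy
  -- the abelian algebras
  obtain ⟨A, hAM, hAc, hAmax, heA'⟩ := exists_masa M {e} (by rintro x rfl; exact heM)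
    (by rintro x rfl; exact hep.1) (by rintro x rfl y rfl; rfl)
  have heA : e ∈ A := heA' e rfl
  obtain ⟨A', hAM', hAc', -, hcA'⟩ := exists_masa M.commutant
    {T | ∃ p ∈ A, IsPr p ∧ ∃ j, T = cyc M (p (ξ j))}
    (by rintro x ⟨p, hp, hpp, j, rfl⟩; exact cyc_mem M _)
    (by rintro x ⟨p, hp, hpp, j, rfl⟩; exact (cyc_isPr M _).1)
    (by
      rintro x ⟨p, hp, hpp, i, rfl⟩ y ⟨r, hr, hrp, j, rfl⟩
      exact cyc_frame_comm hM.toTrV hf (hAM p hp) (hAM r hr) hrp (hAc r hr e heA)
        (hAc p hp r hr) i j)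
  have hcyc : ∀ p ∈ A, IsPr p → ∀ j, cyc M (p (ξ j)) ∈ A' := fun p hp hpp j =>
    hcA' _ ⟨p, hp, hpp, j, rfl⟩
  obtain ⟨w, f, f', hw1, hw2, hw3, hfw, hfw'⟩ := exists_w hδ
    (fun x hx hx1 => by
      obtain ⟨y, hy, _, hyn⟩ := hMN x hx hx1
      exact ⟨y, hy, by rw [norm_sub_rev]; exact hyn⟩) h2 hAc hAM hAc' hAM'
  have hwn : ‖w‖ ≤ 1 := by
    have : ‖w‖ * ‖w‖ ≤ 1 := by
      rw [← CStarRing.norm_star_mul_self, hw1]; exact ContinuousLinearMap.norm_id_le
    nlinarith [norm_nonneg w]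
  have hwsn : ‖star w‖ ≤ 1 := by rw [norm_star]; exact hwn
  -- conjugation
  have hww : ∀ a b : H →L[ℂ] H, w * (a * b) * star w = w * a * star w * (w * b * star w) := by
    intro a b
    have : w * a * star w * (w * b * star w) = w * a * (star w * w) * b * star w := by
      noncomm_ring
    rw [this, hw1, mul_one]
    noncomm_ring
  have hconj : ∀ g : SymG A, w * g.1 * star w = f g := fun g => by
    rw [(hfw g).2.2.2, mul_assoc, hw2, mul_one]
  have hprA : ∀ p ∈ A, IsPr p → ∃ g : SymG A, g.1 = 1 - (2 : ℂ) • p := fun p hp hpp =>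
    ⟨⟨1 - (2 : ℂ) • p, sub_mem (one_mem _) (smul_mem' _ hp), sym_of_pr hpp⟩, rfl⟩
  have hwp : ∀ p ∈ A, IsPr p → w * p * star w ∈ N ∧ IsPr (w * p * star w) := by
    intro p hp hpp
    obtain ⟨g, hg⟩ := hprA p hp hpp
    have e1 : w * p * star w = Pj (f g) := by
      rw [← hconj g, hg]
      unfold Pj
      have : w * (1 - (2 : ℂ) • p) * star w = 1 - (2 : ℂ) • (w * p * star w) := by
        rw [mul_sub, sub_mul, mul_one, hw2, mul_smul_comm, smul_mul_assoc]
      rw [this]
      module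
    rw [e1]
    exact ⟨Pj_mem (hfw g).1, Pj_isPr (hfw g).2.1 (hfw g).2.2.1⟩
  -- (e)
  have hconjA : ∀ x ∈ A, w * x * star w ∈ N := by
    intro x hx
    have hcl := isClosed_vN N
    have : w * x * star w ∈ closure {y : H →L[ℂ] H | y ∈ N} := by
      rw [Metric.mem_closure_iff]
      intro ε hε
      obtain ⟨n, c, p, hp, hn⟩ := span_pr A hAc hx (ε / 2) (by positivity)
      refine ⟨w * (∑ k, c k • p k) * star w, ?_, ?_⟩
      · show w * (∑ k, c k • p k) * star w ∈ N
        rw [Finset.mul_sum, Finset.sum_mul]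
        refine sum_mem fun k _ => ?_
        rw [mul_smul_comm, smul_mul_assoc]
        exact smul_mem' _ (hwp _ (hp k).1 (hp k).2).1
      · rw [dist_eq_norm]
        have e1 : w * x * star w - w * (∑ k, c k • p k) * star w =
            w * (x - ∑ k, c k • p k) * star w := by noncomm_ring
        rw [e1]
        calc ‖w * (x - ∑ k, c k • p k) * star w‖
            ≤ ‖w‖ * ‖x - ∑ k, c k • p k‖ * ‖star w‖ :=
              (norm_mul_le _ _).trans (mul_le_mul_of_nonneg_right (norm_mul_le _ _)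
                (norm_nonneg _))
          _ ≤ 1 * (ε / 2) * 1 := by gcongr
          _ < ε := by linarith
    rwa [hcl.closure_eq] at this
  -- (g)
  have htr : ∀ x ∈ A, tv ζ' (w * x * star w) = tv ζ x := by
    have hpr : ∀ p ∈ A, IsPr p → tv ζ' (w * p * star w) = tv ζ p := by
      intro p hp hpp
      obtain ⟨h3, h4⟩ := hwp p hp hpp
      have h5 : ‖w * p * star w - p‖ ≤ 1 / 20 := by
        have := conj_near (x := p) hwn hw3
        have h6 := norm_pr_le hpp
        linarith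
      have := trace_near hM hN (by linarith) hMN (hAM p hp) hpp h3 h4 h5
      rw [tv_eq_tr hpp, tv_eq_tr h4, this]
    intro x hx
    have key : ∀ ε : ℝ, 0 < ε → ‖tv ζ' (w * x * star w) - tv ζ x‖ ≤ ε := by
      intro ε hε
      obtain ⟨n, c, p, hp, hn⟩ := span_pr A hAc hx (ε / 2) (by positivity)
      set s := ∑ k, c k • p k with hs
      have e1 : tv ζ' (w * s * star w) = tv ζ s := by
        rw [hs, Finset.mul_sum, Finset.sum_mul, tv_sum hN.sum, tv_sum hM.sum]
        refine Finset.sum_congr rfl fun k _ => ?_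
        rw [mul_smul_comm, smul_mul_assoc, tv_smul, tv_smul, hpr _ (hp k).1 (hp k).2]
      have e2 : tv ζ' (w * x * star w) - tv ζ x =
          tv ζ' (w * (x - s) * star w) - tv ζ (x - s) := by
        have : w * (x - s) * star w = w * x * star w - w * s * star w := by noncomm_ring
        rw [this, tv_sub hN.sum, tv_sub hM.sum, e1]
        ring
      rw [e2]
      have b1 : ‖tv ζ' (w * (x - s) * star w)‖ ≤ ε / 2 := by
        refine (norm_tv_le hN _).trans ?_
        calc ‖w * (x - s) * star w‖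
            ≤ ‖w‖ * ‖x - s‖ * ‖star w‖ :=
              (norm_mul_le _ _).trans (mul_le_mul_of_nonneg_right (norm_mul_le _ _)
                (norm_nonneg _))
          _ ≤ 1 * (ε / 2) * 1 := by gcongr
          _ = ε / 2 := by ring
      have b2 : ‖tv ζ (x - s)‖ ≤ ε / 2 := (norm_tv_le hM.toTrV _).trans hn
      refine (norm_sub_le _ _).trans ?_
      linarith
    have h0 : ‖tv ζ' (w * x * star w) - tv ζ x‖ ≤ 0 := le_of_forall_pos_le_add fun ε hε => by
      rw [zero_add]; exact key ε hε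
    exact sub_eq_zero.1 (norm_le_zero_iff.1 h0)
  -- symmetries generate
  have hcomA : ∀ x : H →L[ℂ] H, (∀ g : SymG A, x * g.1 = g.1 * x) → ∀ a ∈ A, x * a = a * x := by
    intro x hx a ha
    have hxA : x ∈ A.commutant ∨ True := Or.inr trivial
    have hp : ∀ p ∈ A, IsPr p → x * p = p * x := by
      intro p hp hpp
      obtain ⟨g, hg⟩ := hprA p hp hpp
      have h3 := hx g
      rw [hg, mul_sub, sub_mul, mul_one, one_mul, mul_smul_comm, smul_mul_assoc] at h3
      have h4 : (2 : ℂ) • (x * p) = (2 : ℂ) • (p * x) := sub_right_injective h3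
      exact smul_right_injective _ two_ne_zero h4
    have hcl : IsClosed {a : H →L[ℂ] H | x * a = a * x} :=
      isClosed_eq (continuous_const.mul continuous_id) (continuous_id.mul continuous_const)
    have : a ∈ closure {a : H →L[ℂ] H | x * a = a * x} := by
      rw [Metric.mem_closure_iff]
      intro ε hε
      obtain ⟨n, c, p, hp', hn⟩ := span_pr A hAc ha (ε / 2) (by positivity)
      refine ⟨∑ k, c k • p k, ?_, ?_⟩
      · show x * (∑ k, c k • p k) = (∑ k, c k • p k) * x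
        rw [Finset.mul_sum, Finset.sum_mul]
        refine Finset.sum_congr rfl fun k _ => ?_
        rw [mul_smul_comm, smul_mul_assoc, hp _ (hp' k).1 (hp' k).2]
      · rw [dist_eq_norm]
        linarith
    rwa [hcl.closure_eq] at this
  letI := symGroup A hAc
  have hsq : ∀ g : SymG A, g * g = 1 := fun g => Subtype.ext g.2.2.2
  -- (f)
  have hX : ∀ y ∈ N, (∀ g, y * f g = f g * y) → star w * y * w ∈ A := by
    -- distance estimate
    have hdist : ∀ y ∈ N, (∀ g, y * f g = f g * y) → ‖y‖ ≤ 1 →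
        ∃ a ∈ A, ‖star w * y * w - a‖ ≤ 1 / 2 := by
      intro y hy hyc hy1
      obtain ⟨m, hm, hm1, hmy⟩ := hNM y hy hy1
      obtain ⟨T, hT⟩ := exists_mean (fun g : SymG A => g.1 * m * g.1) 1 fun g => by
        have hg := norm_sym_le g.2.2.1 g.2.2.2
        calc ‖g.1 * m * g.1‖ ≤ ‖g.1‖ * ‖m‖ * ‖g.1‖ :=
              (norm_mul_le _ _).trans (mul_le_mul_of_nonneg_right (norm_mul_le _ _)
                (norm_nonneg _))
          _ ≤ 1 * 1 * 1 := by gcongr
          _ = 1 := by ring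
      have hTM : T ∈ M := hT.mem fun g => mul_mem (mul_mem (hAM _ g.2.1) hm) (hAM _ g.2.1)
      have hTc : ∀ g : SymG A, T * g.1 = g.1 * T := by
        intro g
        have m1 := (hT.shift hsq g).mul_right g.1
        have m2 := hT.mul_left g.1
        have e1 : (fun h : SymG A => (g * h).1 * m * (g * h).1 * g.1) =
            fun h : SymG A => g.1 * (h.1 * m * h.1) := by
          funext h
          show (g.1 * h.1) * m * (g.1 * h.1) * g.1 = _
          have : (g.1 * h.1) * g.1 = h.1 := by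
            rw [hAc _ g.2.1 _ h.2.1, mul_assoc, g.2.2.2, mul_one]
          rw [mul_assoc, this]
          noncomm_ring
        rw [e1] at m1
        exact m1.unique m2
      have hTA : T ∈ A := hAmax T hTM (hcomA T hTc)
      refine ⟨T, hTA, ?_⟩
      set x := star w * y * w with hx
      have hxc : ∀ g : SymG A, x * g.1 = g.1 * x := by
        intro g
        have h3 := (hfw g).2.2.2
        have h4 : g.1 * star w = star w * f g := by
          have := congrArg star h3
          rwa [star_mul, star_mul, (hfw g).2.1, g.2.2.1] at this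
        calc x * g.1 = star w * y * (w * g.1) := by rw [hx]; noncomm_ring
          _ = star w * (y * f g) * w := by rw [h3]; noncomm_ring
          _ = star w * f g * y * w := by rw [hyc]; noncomm_ring
          _ = g.1 * x := by rw [← h4, hx]; noncomm_ring
      have hxm : ‖x - m‖ ≤ 1 / 2 := by
        have h5 : ‖x - y‖ ≤ 2 * (1 / 40) * ‖y‖ := by
          have h6 : ‖star w - 1‖ ≤ 1 / 40 := by
            rw [← star_one, ← star_sub, norm_star]; exact hw3
          have := conj_near (x := y) hwsn h6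
          rwa [star_star] at this
        have e1 : x - m = (x - y) + (y - m) := by abel
        rw [e1]
        refine (norm_add_le _ _).trans ?_
        nlinarith
      rw [norm_sub_rev]
      refine hT.norm_sub_le x (by norm_num) fun g => ?_
      have e1 : g.1 * m * g.1 - x = g.1 * (m - x) * g.1 := by
        rw [mul_sub, sub_mul, ← hxc, mul_assoc x, g.2.2.2, mul_one]
      rw [e1]
      have hg := norm_sym_le g.2.2.1 g.2.2.2
      have hxm' : ‖m - x‖ ≤ 1 / 2 := by rw [norm_sub_rev]; exact hxm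
      calc ‖g.1 * (m - x) * g.1‖ ≤ ‖g.1‖ * ‖m - x‖ * ‖g.1‖ :=
            (norm_mul_le _ _).trans (mul_le_mul_of_nonneg_right (norm_mul_le _ _)
              (norm_nonneg _))
        _ ≤ 1 * (1 / 2) * 1 := by gcongr
        _ = 1 / 2 := by ring
    have hdist' : ∀ y ∈ N, (∀ g, y * f g = f g * y) →
        ∃ a ∈ A, ‖star w * y * w - a‖ ≤ 1 / 2 * ‖y‖ := by
      intro y hy hyc
      by_cases h0 : ‖y‖ = 0
      · refine ⟨0, zero_mem _, ?_⟩
        rw [norm_eq_zero.1 h0]
        simp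
      · have h0' : 0 < ‖y‖ := lt_of_le_of_ne (norm_nonneg _) (Ne.symm h0)
        have hc0 : (‖y‖ : ℂ) ≠ 0 := by exact_mod_cast h0
        obtain ⟨a, ha, han⟩ := hdist ((‖y‖ : ℂ)⁻¹ • y) (smul_mem' _ hy)
          (fun g => by rw [smul_mul_assoc, mul_smul_comm, hyc]) (by
            rw [norm_smul, norm_inv, Complex.norm_real, norm_norm, inv_mul_cancel₀ h0])
        refine ⟨(‖y‖ : ℂ) • a, smul_mem' _ ha, ?_⟩
        have e1 : star w * y * w - (‖y‖ : ℂ) • a =
            (‖y‖ : ℂ) • (star w * ((‖y‖ : ℂ)⁻¹ • y) * w - a) := by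
          rw [mul_smul_comm, smul_mul_assoc, smul_sub, smul_smul, mul_inv_cancel₀ hc0, one_smul]
        rw [e1, norm_smul, Complex.norm_real, norm_norm]
        nlinarith
    intro y hy hyc
    set x := star w * y * w with hx
    have hAcl := isClosed_vN A
    have hne : {a : H →L[ℂ] H | a ∈ A}.Nonempty := ⟨0, zero_mem A⟩
    have hr : ∀ a ∈ A, 2 * Metric.infDist x {a : H →L[ℂ] H | a ∈ A} ≤ dist x a := by
      intro a ha
      have hy' : y - w * a * star w ∈ N := sub_mem hy (hconjA a ha)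
      have hyc' : ∀ g, (y - w * a * star w) * f g = f g * (y - w * a * star w) := by
        intro g
        rw [sub_mul, mul_sub, hyc]
        congr 1
        rw [← hconj g]
        calc w * a * star w * (w * g.1 * star w) = w * a * (star w * w) * g.1 * star w := by
              noncomm_ring
          _ = w * (a * g.1) * star w := by rw [hw1]; noncomm_ring
          _ = w * g.1 * (star w * w) * a * star w := by rw [hAc a ha _ g.2.1, hw1]; noncomm_ring
          _ = w * g.1 * star w * (w * a * star w) := by noncomm_ring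
      obtain ⟨b, hb, hbn⟩ := hdist' _ hy' hyc'
      have e1 : star w * (y - w * a * star w) * w = x - a := by
        calc star w * (y - w * a * star w) * w
            = star w * y * w - (star w * w) * a * (star w * w) := by noncomm_ring
          _ = x - a := by rw [hw1, one_mul, mul_one]
      have e2 : y - w * a * star w = w * (x - a) * star w := by
        rw [← e1]
        calc y - w * a * star w = (w * star w) * (y - w * a * star w) * (w * star w) := by
              rw [hw2, one_mul, mul_one]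
          _ = _ := by noncomm_ring
      have b1 : ‖y - w * a * star w‖ ≤ ‖x - a‖ := by
        rw [e2]
        calc ‖w * (x - a) * star w‖
            ≤ ‖w‖ * ‖x - a‖ * ‖star w‖ :=
              (norm_mul_le _ _).trans (mul_le_mul_of_nonneg_right (norm_mul_le _ _)
                (norm_nonneg _))
          _ ≤ 1 * ‖x - a‖ * 1 := by gcongr
          _ = ‖x - a‖ := by ring
      rw [e1] at hbn
      have hab : a + b ∈ {a : H →L[ℂ] H | a ∈ A} := add_mem ha hb
      have h3 := Metric.infDist_le_dist_of_mem (x := x) hab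
      rw [dist_eq_norm, ← sub_sub] at h3
      rw [dist_eq_norm]
      linarith
    have h4 : 2 * Metric.infDist x {a : H →L[ℂ] H | a ∈ A} ≤
        Metric.infDist x {a : H →L[ℂ] H | a ∈ A} :=
      (Metric.le_infDist hne).2 fun {a} ha => hr a ha
    have h5 : Metric.infDist x {a : H →L[ℂ] H | a ∈ A} = 0 :=
      le_antisymm (by linarith) Metric.infDist_nonneg
    exact (hAcl.mem_iff_infDist_zero hne).2 h5
  -- (h)
  have hap : ∀ (T S : H →L[ℂ] H) (v : H), T (S v) = (T * S) v := fun _ _ _ => rfl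
  refine ⟨fun i => w (ξ i), w * e * star w, ⟨fun _ => hconjA e heA, fun _ => (hwp e heA hep).2,
    ?_⟩, by unfold rtr; rw [htr e heA]⟩
  intro i j y hy
  by_cases hij : i = j
  · subst hij
    rw [if_pos rfl]
    show ⟪w (ξ i), y (w (ξ i))⟫_ℂ = _
    -- the invariance
    have hinv : ∀ g : SymG A, ⟪w (ξ i), (f g * y * f g) (w (ξ i))⟫_ℂ = ⟪w (ξ i), y (w (ξ i))⟫_ℂ := by
      intro g
      have hp := Pj_mem g.2.1
      have hpp := Pj_isPr g.2.2.1 g.2.2.2
      have hce := hcyc _ hp hpp i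
      obtain ⟨g', hg'⟩ : ∃ g' : SymG A', g'.1 = 1 - (2 : ℂ) • cyc M (Pj g.1 (ξ i)) :=
        ⟨⟨1 - (2 : ℂ) • cyc M (Pj g.1 (ξ i)), sub_mem (one_mem _) (smul_mem' _ hce),
          sym_of_pr (cyc_isPr _ _)⟩, rfl⟩
      have e1 : g'.1 (ξ i) = g.1 (ξ i) := by
        have e2 := cyc_frame hM.toTrV hf (hAM _ hp) hpp (hAc _ hp e heA) i i
        rw [if_pos rfl] at e2
        have e3 : g'.1 (ξ i) = ξ i - (2 : ℂ) • (cyc M (Pj g.1 (ξ i)) (ξ i)) := by rw [hg']; rfl
        have e4 : g.1 (ξ i) = ξ i - (2 : ℂ) • (Pj g.1 (ξ i)) := by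
          have : g.1 = 1 - (2 : ℂ) • Pj g.1 := two_Pj.symm
          nth_rewrite 1 [this]
          rfl
        rw [e3, e4, e2]
      have e5 : f g (w (ξ i)) = f' g' (w (ξ i)) := by
        rw [hap, hap, ← (hfw g).2.2.2, ← (hfw' g').2.2.2, ← hap, ← hap, e1]
      calc ⟪w (ξ i), (f g * y * f g) (w (ξ i))⟫_ℂ = ⟪f g (w (ξ i)), y (f g (w (ξ i)))⟫_ℂ := by
            rw [inner_star (f g), (hfw g).2.1]; rfl
        _ = ⟪f' g' (w (ξ i)), y (f' g' (w (ξ i)))⟫_ℂ := by rw [e5]
        _ = ⟪w (ξ i), (f' g' * y * f' g') (w (ξ i))⟫_ℂ := by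
            rw [inner_star (f' g'), (hfw' g').2.1]; rfl
        _ = ⟪w (ξ i), y (w (ξ i))⟫_ℂ := by
            rw [commute_of_mem hy (hfw' g').1, mul_assoc, (hfw' g').2.2.1, mul_one]
    obtain ⟨T, hT⟩ := exists_mean (fun g : SymG A => f g * y * f g) ‖y‖ fun g => by
      have hg := norm_sym_le (hfw g).2.1 (hfw g).2.2.1
      calc ‖f g * y * f g‖ ≤ ‖f g‖ * ‖y‖ * ‖f g‖ :=
            (norm_mul_le _ _).trans (mul_le_mul_of_nonneg_right (norm_mul_le _ _)
              (norm_nonneg _))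
        _ ≤ 1 * ‖y‖ * 1 := by gcongr
        _ = ‖y‖ := by ring
    have hTN : T ∈ N := hT.mem fun g => mul_mem (mul_mem (hfw _).1 hy) (hfw _).1
    have hTc : ∀ g : SymG A, T * f g = f g * T := by
      intro g
      have m1 := (hT.shift hsq g).mul_right (f g)
      have m2 := hT.mul_left (f g)
      have hfm : ∀ h : SymG A, f (g * h) = f g * f h := by
        intro h
        rw [← hconj, ← hconj, ← hconj]
        exact hww g.1 h.1
      have hfc : ∀ h : SymG A, f g * f h = f h * f g := by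
        intro h
        have : g * h = h * g := Subtype.ext (hAc _ g.2.1 _ h.2.1)
        rw [← hfm, this, ← hconj, ← hconj, ← hconj]
        exact hww h.1 g.1
      have e1 : (fun h : SymG A => f (g * h) * y * f (g * h) * f g) =
          fun h : SymG A => f g * (f h * y * f h) := by
        funext h
        rw [hfm]
        have : (f g * f h) * f g = f h := by
          rw [hfc, mul_assoc, (hfw g).2.2.1, mul_one]
        calc (f g * f h) * y * (f g * f h) * f g = (f g * f h) * y * ((f g * f h) * f g) := by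
              noncomm_ring
          _ = f g * (f h * y * f h) := by rw [this]; noncomm_ring
      rw [e1] at m1
      exact m1.unique m2
    have haA := hX T hTN hTc
    have e1 : ⟪w (ξ i), T (w (ξ i))⟫_ℂ = ⟪w (ξ i), y (w (ξ i))⟫_ℂ := hT.inner_eq _ _ _ hinv
    have e2 : ⟪w (ξ i), T (w (ξ i))⟫_ℂ = ⟪ξ i, (star w * T * w) (ξ i)⟫_ℂ := by
      rw [inner_star w]; rfl
    have e3 : w * ((star w * T * w) * e) * star w = T * (w * e * star w) := by
      calc w * ((star w * T * w) * e) * star w = (w * star w) * T * (w * e * star w) := by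
            noncomm_ring
        _ = T * (w * e * star w) := by rw [hw2, one_mul]
    have hee : ∀ g : SymG A, f g * (w * e * star w) = (w * e * star w) * f g := by
      intro g
      rw [← hconj g]
      calc w * g.1 * star w * (w * e * star w) = w * g.1 * (star w * w) * e * star w := by
            noncomm_ring
        _ = w * (g.1 * e) * star w := by rw [hw1]; noncomm_ring
        _ = w * e * (star w * w) * g.1 * star w := by rw [hAc _ g.2.1 _ heA, hw1]; noncomm_ring
        _ = _ := by noncomm_ring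
    have e4 : tv ζ' (T * (w * e * star w)) = tv ζ' (y * (w * e * star w)) := by
      refine (hT.mul_right (w * e * star w)).tv_eq (C := ‖y‖ * ‖w * e * star w‖) ?_ hN.sum _ ?_
      · intro g
        have hg := norm_sym_le (hfw g).2.1 (hfw g).2.2.1
        refine (norm_mul_le _ _).trans (mul_le_mul_of_nonneg_right ?_ (norm_nonneg _))
        calc ‖f g * y * f g‖ ≤ ‖f g‖ * ‖y‖ * ‖f g‖ :=
              (norm_mul_le _ _).trans (mul_le_mul_of_nonneg_right (norm_mul_le _ _)
                (norm_nonneg _))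
          _ ≤ 1 * ‖y‖ * 1 := by gcongr
          _ = ‖y‖ := by ring
      · intro g
        have hgN := (hfw g).1
        have heN := hconjA e heA
        have e5 : f g * y * f g * (w * e * star w) = f g * (y * (w * e * star w) * f g) := by
          rw [mul_assoc (f g * y), hee]; noncomm_ring
        rw [e5, hN.tr _ hgN _ (mul_mem (mul_mem hy heN) hgN), mul_assoc, (hfw g).2.2.1, mul_one]
    rw [← e1, e2, hf.inner i i _ (hAM _ haA), if_pos rfl, ← htr _ (mul_mem haA heA), e3, e4]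
  · rw [if_neg hij]
    show ⟪w (ξ i), y (w (ξ j))⟫_ℂ = 0
    have hone : (1 : H →L[ℂ] H) ∈ A := one_mem _
    have hone' : IsPr (1 : H →L[ℂ] H) := ⟨star_one _, one_mul _⟩
    have hce := hcyc _ hone hone' j
    obtain ⟨g', hg'⟩ : ∃ g' : SymG A', g'.1 = 1 - (2 : ℂ) • cyc M ((1 : H →L[ℂ] H) (ξ j)) :=
      ⟨⟨1 - (2 : ℂ) • cyc M ((1 : H →L[ℂ] H) (ξ j)), sub_mem (one_mem _) (smul_mem' _ hce),
        sym_of_pr (cyc_isPr _ _)⟩, rfl⟩
    have e1 : ∀ k, g'.1 (ξ k) = if k = j then - ξ k else ξ k := by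
      intro k
      have e2 := cyc_frame hM.toTrV hf (one_mem _) hone' (hAc _ hone e heA) k j
      have e3 : g'.1 (ξ k) = ξ k - (2 : ℂ) • (cyc M ((1 : H →L[ℂ] H) (ξ j)) (ξ k)) := by
        rw [hg']; rfl
      rw [e3, e2]
      by_cases h : k = j
      · subst h
        rw [if_pos rfl, if_pos rfl]
        show ξ k - (2 : ℂ) • ξ k = - ξ k
        module
      · rw [if_neg h, if_neg h, smul_zero, sub_zero]
    have e4 : ∀ k, f' g' (w (ξ k)) = if k = j then - w (ξ k) else w (ξ k) := by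
      intro k
      rw [hap, ← (hfw' g').2.2.2, ← hap, e1]
      by_cases h : k = j
      · rw [if_pos h, if_pos h, map_neg]
      · rw [if_neg h, if_neg h]
    have e5 : ⟪w (ξ i), y (w (ξ j))⟫_ℂ = - ⟪w (ξ i), y (w (ξ j))⟫_ℂ := by
      calc ⟪w (ξ i), y (w (ξ j))⟫_ℂ = ⟪f' g' (w (ξ i)), y (w (ξ j))⟫_ℂ := by
            rw [e4 i, if_neg hij]
        _ = ⟪w (ξ i), (f' g' * y) (w (ξ j))⟫_ℂ := by
            rw [inner_star (f' g'), (hfw' g').2.1]; rfl
        _ = ⟪w (ξ i), y (f' g' (w (ξ j)))⟫_ℂ := by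
            rw [commute_of_mem hy (hfw' g').1]; rfl
        _ = - ⟪w (ξ i), y (w (ξ j))⟫_ℂ := by
            rw [e4 j, if_pos rfl, map_neg, inner_neg_right]
    exact CharZero.eq_neg_self_iff.1 e5

end Pool.Agent.X191.CC
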