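import Mathlib
import Pool.Agent.X191.CC.Main

/-!
Total frames attain the dimension.
-/

open ContinuousLinearMap Filter Topology
open scoped InnerProductSpace ComplexOrder ENNReal

noncomputable section

namespace Pool.Agent.X191.CC

open H759R2.Kad H710R2.DP

variable {H : Type} [NormedAddCommGroup H] [InnerProductSpace ℂ H] [CompleteSpace H]

lemma pr_inner {P : H →L[ℂ] H} (hP : IsPr P) (v : H) : ⟪v, P v⟫_ℂ = ((‖P v‖ ^ 2 : ℝ) : ℂ) := by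
  have h1 : P v = P (P v) := by
    have := congrArg (fun z : H →L[ℂ] H => z v) hP.2
    exact this.symm
  have h2 : ⟪v, P v⟫_ℂ = ⟪P v, P v⟫_ℂ := by
    rw [inner_star P, hP.1, ← h1]
  rw [h2, inner_self_eq_norm_sq_to_K]
  norm_cast

lemma pr_pyth {P : H →L[ℂ] H} (hP : IsPr P) (v : H) :
    ‖v‖ ^ 2 = ‖P v‖ ^ 2 + ‖v - P v‖ ^ 2 := by
  have hq : IsPr (1 - P) := by
    refine ⟨by rw [star_sub, star_one, hP.1], ?_⟩
    rw [sub_mul, one_mul, mul_sub, mul_one, hP.2]; abel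
  have h1 := pr_inner hP v
  have h2 := pr_inner hq v
  have h3 : (1 - P) v = v - P v := rfl
  rw [h3, inner_sub_right, h1, inner_self_eq_norm_sq_to_K] at h2
  have h4 : ‖v‖ ^ 2 - ‖P v‖ ^ 2 = ‖v - P v‖ ^ 2 := by
    have h5 := congrArg Complex.re h2
    simpa [← Complex.ofReal_pow] using h5
  linarith

lemma pr_norm_le {P : H →L[ℂ] H} (hP : IsPr P) (v : H) : ‖P v‖ ≤ ‖v‖ := by
  have := pr_pyth hP v
  nlinarith [norm_nonneg v, norm_nonneg (P v), sq_nonneg ‖v - P v‖]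

/-- the symmetry of the dimension: `‖[Mξ]η‖ ≤ ‖[Mη]ξ‖` for tracial vectors. -/
lemma cyc_dual {M : VonNeumannAlgebra H} {ζ : ℕ → H} (hM : TrV M ζ) {ξ η : H}
    {p q : H →L[ℂ] H} (hp : p ∈ M) (hpp : IsPr p) (hq : q ∈ M) (hqp : IsPr q)
    (hpξ : p ξ = ξ) (hqη : q η = η)
    (hξ : ∀ x ∈ M, ⟪ξ, x ξ⟫_ℂ = tv ζ (x * p)) (hη : ∀ x ∈ M, ⟪η, x η⟫_ℂ = tv ζ (x * q)) :
    ‖cyc M ξ η‖ ≤ ‖cyc M η ξ‖ := by
  have hR : ∀ u ∈ cycSub M η, 2 * (⟪u, ξ⟫_ℂ).re - ‖u‖ ^ 2 ≤ ‖cyc M η ξ‖ ^ 2 := by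
    intro u hu
    have h1 : ⟪u, ξ⟫_ℂ = ⟪u, cyc M η ξ⟫_ℂ := by
      conv_lhs => rw [← cyc_of_mem M η hu]
      rw [inner_star, (cyc_isPr M η).1]
    have h2 : (⟪u, cyc M η ξ⟫_ℂ).re ≤ ‖u‖ * ‖cyc M η ξ‖ :=
      (Complex.re_le_norm _).trans (norm_inner_le_norm _ _)
    rw [h1]
    nlinarith [sq_nonneg (‖u‖ - ‖cyc M η ξ‖)]
  have hL : ∀ x ∈ M, 2 * (⟪x ξ, η⟫_ℂ).re - ‖x ξ‖ ^ 2 ≤ ‖cyc M η ξ‖ ^ 2 := by
    intro x hx
    set y := q * x * p with hy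
    have hyM : y ∈ M := mul_mem (mul_mem hq hx) hp
    have hyp : y * p = y := by rw [hy, mul_assoc, hpp.2]
    have hqy : q * y = y := by rw [hy, ← mul_assoc, ← mul_assoc, hqp.2]
    have hyξ : y ξ = q (x ξ) := by
      show q (x (p ξ)) = _
      rw [hpξ]
    have e1 : ⟪x ξ, η⟫_ℂ = ⟪y ξ, η⟫_ℂ := by
      rw [hyξ, inner_star q, hqp.1, hqη]
    have e2 : ‖y ξ‖ ≤ ‖x ξ‖ := by rw [hyξ]; exact pr_norm_le hqp _
    have e3 : ((‖y ξ‖ ^ 2 : ℝ) : ℂ) = tv ζ (star y * y) := by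
      have : ⟪y ξ, y ξ⟫_ℂ = ⟪ξ, (star y * y) ξ⟫_ℂ := by rw [inner_star]; rfl
      rw [inner_self_eq_norm_sq_to_K, hξ _ (mul_mem (star_mem hyM) hyM), mul_assoc, hyp] at this
      rw [← this]
      norm_cast
    have e4 : ((‖star y η‖ ^ 2 : ℝ) : ℂ) = tv ζ (y * star y) := by
      have : ⟪star y η, star y η⟫_ℂ = ⟪η, (y * star y) η⟫_ℂ := by
        rw [inner_star, star_star]; rfl
      have hyq : star y * q = star y := by
        have := congrArg star hqy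
        rwa [star_mul, hqp.1] at this
      rw [inner_self_eq_norm_sq_to_K, hη _ (mul_mem hyM (star_mem hyM)), mul_assoc, hyq] at this
      rw [← this]
      norm_cast
    have e5 : ‖y ξ‖ ^ 2 = ‖star y η‖ ^ 2 := by
      have : ((‖y ξ‖ ^ 2 : ℝ) : ℂ) = ((‖star y η‖ ^ 2 : ℝ) : ℂ) := by
        rw [e3, e4, hM.tr _ hyM _ (star_mem hyM)]
      exact_mod_cast this
    have e6 : (⟪y ξ, η⟫_ℂ).re = (⟪star y η, ξ⟫_ℂ).re := by
      rw [inner_star y, ← inner_conj_symm, Complex.conj_re]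
    have h3 := hR _ (mem_cycSub M η (star_mem hyM))
    rw [e1, e6]
    have h4 : ‖y ξ‖ ^ 2 ≤ ‖x ξ‖ ^ 2 := by
      have := norm_nonneg (y ξ)
      gcongr
    linarith
  have hcl : ∀ v ∈ cycSub M ξ, 2 * (⟪v, η⟫_ℂ).re - ‖v‖ ^ 2 ≤ ‖cyc M η ξ‖ ^ 2 := by
    intro v hv
    have hcl : IsClosed {v : H | 2 * (⟪v, η⟫_ℂ).re - ‖v‖ ^ 2 ≤ ‖cyc M η ξ‖ ^ 2} := by
      refine isClosed_le ?_ continuous_const
      have : Continuous fun v : H => ⟪v, η⟫_ℂ := continuous_id.inner continuous_const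
      exact (continuous_const.mul (Complex.continuous_re.comp this)).sub (continuous_norm.pow 2)
    have hsub : (Submodule.span ℂ {v | ∃ x ∈ M, v = x ξ} : Set H) ⊆
        {v : H | 2 * (⟪v, η⟫_ℂ).re - ‖v‖ ^ 2 ≤ ‖cyc M η ξ‖ ^ 2} := by
      intro v hv
      have : ∃ x ∈ M, v = x ξ := by
        induction hv using Submodule.span_induction with
        | mem x hx => exact hx
        | zero => exact ⟨0, zero_mem _, rfl⟩
        | add x y _ _ hx hy =>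
          obtain ⟨a, ha, rfl⟩ := hx
          obtain ⟨b, hb, rfl⟩ := hy
          exact ⟨a + b, add_mem ha hb, rfl⟩
        | smul c x _ hx =>
          obtain ⟨a, ha, rfl⟩ := hx
          exact ⟨c • a, smul_mem' _ ha, rfl⟩
      obtain ⟨x, hx, rfl⟩ := this
      exact hL x hx
    exact closure_minimal hsub hcl hv
  have h5 := hcl _ (cyc_range M ξ η)
  have h6 : (⟪cyc M ξ η, η⟫_ℂ).re = ‖cyc M ξ η‖ ^ 2 := by
    rw [← inner_conj_symm, Complex.conj_re, pr_inner (cyc_isPr M ξ) η, Complex.ofReal_re]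
  rw [h6] at h5
  have h7 : ‖cyc M ξ η‖ ^ 2 ≤ ‖cyc M η ξ‖ ^ 2 := by linarith
  exact le_of_sq_le_sq h7 (norm_nonneg _)

/-- Finite sums of orthogonal projections. -/
lemma pr_sum {ι : Type} [DecidableEq ι] (P : ι → (H →L[ℂ] H)) (hP : ∀ i, IsPr (P i))
    (ho : ∀ i j, i ≠ j → P i * P j = 0) (F : Finset ι) : IsPr (∑ i ∈ F, P i) := by
  constructor
  · rw [star_sum]
    exact Finset.sum_congr rfl fun i _ => (hP i).1
  · rw [Finset.sum_mul]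
    refine Finset.sum_congr rfl fun i hi => ?_
    rw [Finset.mul_sum, Finset.sum_eq_single i]
    · exact (hP i).2
    · intro j _ hj
      exact ho i j (Ne.symm hj)
    · intro h; exact absurd hi h

lemma norm_pr_sum {ι : Type} [DecidableEq ι] (P : ι → (H →L[ℂ] H)) (hP : ∀ i, IsPr (P i))
    (ho : ∀ i j, i ≠ j → P i * P j = 0) (F : Finset ι) (v : H) :
    ‖(∑ i ∈ F, P i) v‖ ^ 2 = ∑ i ∈ F, ‖P i v‖ ^ 2 := by
  have h1 := pr_inner (pr_sum P hP ho F) v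
  have h2 : ⟪v, (∑ i ∈ F, P i) v⟫_ℂ = ((∑ i ∈ F, ‖P i v‖ ^ 2 : ℝ) : ℂ) := by
    rw [sum_apply, inner_sum, Finset.sum_congr rfl fun i _ => pr_inner (hP i) v]
    push_cast
    rfl
  rw [h2] at h1
  exact (Complex.ofReal_injective h1).symm

lemma Frame.cyc_orth' {M : VonNeumannAlgebra H} {ζ : ℕ → H} {ι : Type} [DecidableEq ι]
    {ξ : ι → H} {p : ι → (H →L[ℂ] H)} (hf : Frame M ζ ξ p) {i j : ι} (h : i ≠ j) :
    cyc M (ξ i) * cyc M (ξ j) = 0 := by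
  have h0 : ∀ v ∈ cycSub M (ξ j), cyc M (ξ i) v = 0 := by
    intro v hv
    have h1 : cycSub M (ξ j) ≤ LinearMap.ker ((cyc M (ξ i) : H →L[ℂ] H) : H →ₗ[ℂ] H) := by
      refine Submodule.topologicalClosure_minimal _ ?_ ?_
      · rw [Submodule.span_le]
        rintro v ⟨x, hx, rfl⟩
        show cyc M (ξ i) (x (ξ j)) = 0
        refine cyc_orth _ _ _ fun y hy => ?_
        have : ⟪y (ξ i), x (ξ j)⟫_ℂ = ⟪ξ i, (star y * x) (ξ j)⟫_ℂ := by rw [inner_star]; rfl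
        rw [this, hf.inner i j _ (mul_mem (star_mem hy) hx), if_neg h]
      · exact (cyc M (ξ i)).isClosed_ker
    exact h1 hv
  refine ContinuousLinearMap.ext fun v => ?_
  exact h0 _ (cyc_range M (ξ j) v)

/-- Parseval's inequality for total frames. -/
lemma Frame.parseval {M : VonNeumannAlgebra H} {ζ : ℕ → H} {ι : Type} [DecidableEq ι]
    {ξ : ι → H} {p : ι → (H →L[ℂ] H)} (hf : Frame M ζ ξ p)
    (ht : ∀ v : H, (∀ i, ∀ x ∈ M, ⟪x (ξ i), v⟫_ℂ = 0) → v = 0) (η : H) :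
    ENNReal.ofReal (‖η‖ ^ 2) ≤ ∑' i, ENNReal.ofReal (‖cyc M (ξ i) η‖ ^ 2) := by
  have htop : (⨆ i, cycSub M (ξ i)).topologicalClosure = ⊤ := by
    rw [Submodule.topologicalClosure_eq_top_iff]
    rw [eq_bot_iff]
    intro v hv
    rw [Submodule.mem_orthogonal] at hv
    refine (Submodule.mem_bot ℂ).2 (ht v fun i x hx => ?_)
    exact hv _ (Submodule.mem_iSup_of_mem i (mem_cycSub M (ξ i) hx))
  have hP := fun i => cyc_isPr M (ξ i)
  have ho := fun i j (h : i ≠ j) => hf.cyc_orth' h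
  refine ENNReal.le_of_forall_pos_le_add fun ε hε _ => ?_
  have hε' : (0 : ℝ) < Real.sqrt ε := Real.sqrt_pos.2 hε
  have hmem : η ∈ closure ((⨆ i, cycSub M (ξ i) : Submodule ℂ H) : Set H) := by
    have : η ∈ (⨆ i, cycSub M (ξ i)).topologicalClosure := by rw [htop]; trivial
    exact this
  obtain ⟨u, hu, hun⟩ := Metric.mem_closure_iff.1 hmem _ hε'
  obtain ⟨F, hF⟩ := (Submodule.mem_iSup_iff_exists_finset (p := fun i => cycSub M (ξ i))).1 hu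
  set Q := ∑ i ∈ F, cyc M (ξ i) with hQ
  have hQp : IsPr Q := pr_sum _ hP ho F
  have hQu : Q u = u := by
    have h1 : (⨆ i ∈ F, cycSub M (ξ i)) ≤ LinearMap.ker ((1 - Q : H →L[ℂ] H) : H →ₗ[ℂ] H) := by
      refine iSup₂_le fun i hi v hv => ?_
      show v - Q v = 0
      have h2 : Q v = v := by
        rw [← cyc_of_mem M (ξ i) hv]
        show (Q * cyc M (ξ i)) v = _
        rw [hQ, Finset.sum_mul, Finset.sum_eq_single i]
        · rw [(hP i).2]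
        · intro j _ hj
          exact ho j i hj
        · intro h; exact absurd hi h
      rw [h2, sub_self]
    have h3 := h1 hF
    have h4 : u - Q u = 0 := h3
    exact (sub_eq_zero.1 h4).symm
  have h5 : ‖η - Q η‖ ^ 2 ≤ ε := by
    have e1 : η - Q η = (1 - Q) (η - u) := by
      show η - Q η = (η - u) - Q (η - u)
      rw [map_sub, hQu]; abel
    have hq : IsPr (1 - Q) := by
      refine ⟨by rw [star_sub, star_one, hQp.1], ?_⟩
      rw [sub_mul, one_mul, mul_sub, mul_one, hQp.2]; abel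
    rw [e1]
    have e2 := pr_norm_le hq (η - u)
    rw [dist_eq_norm] at hun
    have e3 : ‖(1 - Q) (η - u)‖ ≤ Real.sqrt ε := e2.trans hun.le
    have e4 : ‖(1 - Q) (η - u)‖ ^ 2 ≤ Real.sqrt ε ^ 2 := by gcongr
    rwa [Real.sq_sqrt (NNReal.coe_nonneg ε)] at e4
  have h6 := pr_pyth hQp η
  rw [hQ, norm_pr_sum _ hP ho, ← hQ] at h6
  have h7 : ‖η‖ ^ 2 ≤ ∑ i ∈ F, ‖cyc M (ξ i) η‖ ^ 2 + ε := by linarith
  calc ENNReal.ofReal (‖η‖ ^ 2) ≤ ENNReal.ofReal (∑ i ∈ F, ‖cyc M (ξ i) η‖ ^ 2 + ε) :=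
        ENNReal.ofReal_le_ofReal h7
    _ = ENNReal.ofReal (∑ i ∈ F, ‖cyc M (ξ i) η‖ ^ 2) + ENNReal.ofReal ε :=
        ENNReal.ofReal_add (Finset.sum_nonneg fun i _ => by positivity) (NNReal.coe_nonneg ε)
    _ = ∑ i ∈ F, ENNReal.ofReal (‖cyc M (ξ i) η‖ ^ 2) + ε := by
        rw [ENNReal.ofReal_sum_of_nonneg fun i _ => by positivity]
        congr 1
        simp
    _ ≤ _ := add_le_add (ENNReal.sum_le_tsum F) le_rfl

/-- `τ(p_i) = ‖ξ_i‖²`. -/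
lemma Frame.norm_sq {M : VonNeumannAlgebra H} {ζ : ℕ → H} {ι : Type} [DecidableEq ι]
    {ξ : ι → H} {p : ι → (H →L[ℂ] H)} (hf : Frame M ζ ξ p) (i : ι) :
    rtr ζ (p i) = ‖ξ i‖ ^ 2 := by
  have h1 := hf.inner i i 1 (one_mem _)
  rw [if_pos rfl, one_mul] at h1
  have h2 : ⟪ξ i, (1 : H →L[ℂ] H) (ξ i)⟫_ℂ = ((‖ξ i‖ ^ 2 : ℝ) : ℂ) := by
    show ⟪ξ i, ξ i⟫_ℂ = _
    rw [inner_self_eq_norm_sq_to_K]
    norm_cast
  rw [h2] at h1
  unfold rtr
  rw [← h1, Complex.ofReal_re]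

/-- Total frames attain the dimension. -/
theorem Frame.sum_le {M : VonNeumannAlgebra H} {ζ : ℕ → H} (hM : TrV M ζ) {ι : Type}
    [DecidableEq ι] {ξ : ι → H} {p : ι → (H →L[ℂ] H)} (hf : Frame M ζ ξ p)
    (ht : ∀ v : H, (∀ i, ∀ x ∈ M, ⟪x (ξ i), v⟫_ℂ = 0) → v = 0) {n : ℕ} {η : Fin n → H}
    {q : Fin n → (H →L[ℂ] H)} (hg : Frame M ζ η q) :
    ∑ j, ENNReal.ofReal (rtr ζ (q j)) ≤ ∑' i, ENNReal.ofReal (rtr ζ (p i)) := by
  have hd : ∀ i j, ‖cyc M (ξ i) (η j)‖ ≤ ‖cyc M (η j) (ξ i)‖ := by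
    intro i j
    refine cyc_dual hM (hf.mem i) (hf.pr i) (hg.mem j) (hg.pr j) (hf.apply_eq i) (hg.apply_eq j)
      (fun x hx => ?_) (fun x hx => ?_)
    · rw [hf.inner i i x hx, if_pos rfl]
    · rw [hg.inner j j x hx, if_pos rfl]
  have hP := fun j => cyc_isPr M (η j)
  have ho := fun i j (h : i ≠ j) => hg.cyc_orth' h
  have hb : ∀ i, ∑ j, ENNReal.ofReal (‖cyc M (ξ i) (η j)‖ ^ 2) ≤ ENNReal.ofReal (‖ξ i‖ ^ 2) := by
    intro i
    rw [← ENNReal.ofReal_sum_of_nonneg fun j _ => by positivity]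
    refine ENNReal.ofReal_le_ofReal ?_
    calc ∑ j, ‖cyc M (ξ i) (η j)‖ ^ 2 ≤ ∑ j, ‖cyc M (η j) (ξ i)‖ ^ 2 :=
          Finset.sum_le_sum fun j _ => by
            have := hd i j
            gcongr
      _ = ‖(∑ j, cyc M (η j)) (ξ i)‖ ^ 2 := (norm_pr_sum _ hP ho Finset.univ (ξ i)).symm
      _ ≤ ‖ξ i‖ ^ 2 := by
          have := pr_norm_le (pr_sum _ hP ho Finset.univ) (ξ i)
          gcongr
  calc ∑ j, ENNReal.ofReal (rtr ζ (q j)) = ∑ j, ENNReal.ofReal (‖η j‖ ^ 2) :=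
        Finset.sum_congr rfl fun j _ => by rw [hg.norm_sq]
    _ ≤ ∑ j, ∑' i, ENNReal.ofReal (‖cyc M (ξ i) (η j)‖ ^ 2) :=
        Finset.sum_le_sum fun j _ => hf.parseval ht (η j)
    _ = ∑' i, ∑ j, ENNReal.ofReal (‖cyc M (ξ i) (η j)‖ ^ 2) :=
        (Summable.tsum_finsetSum fun j _ => ENNReal.summable).symm
    _ ≤ ∑' i, ENNReal.ofReal (‖ξ i‖ ^ 2) := ENNReal.tsum_le_tsum hb
    _ = _ := by
        congr 1
        funext i
        rw [hf.norm_sq]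

end Pool.Agent.X191.CC
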